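import Pool.Agent.R952.BP.Defs2

/-!
# The Aizenman-Lebowitz lemma for internally spanned sets
(helper691, piece ST5 of helper952's project for MP_c8529a_pr / S19636)
-/

set_option autoImplicit false

set_option maxRecDepth 20000

namespace Pool.Agent.R952.BP

open Finset Pool.Agent.Helper91.BP

lemma AL_code_bd (c : Sym) : ∀ r ∈ code c, 1 ≤ r ∧ r ≤ 262144 := by
  cases c <;> intro r hr <;> simp [code] at hr <;> omega

lemma AL_codeo_bd : ∀ r ∈ code .o, 32768 ≤ r ∧ r ≤ 262144 := by
  intro r hr; simp [code] at hr; omega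

lemma AL_sg_bd (t : Bool) : |sg t| ≤ 1 ∧ |2 * sg t| ≤ 2 := by
  cases t <;> simp [sg]

lemma AL_supp_bd (i : Fin 6) (t : Bool) (e : Fin 6 → Bool) (y : Site) (hy : y ∈ supp i t e)
    (j : Fin 6) : |y j| ≤ 2 := by
  unfold supp at hy
  rw [Fintype.mem_piFinset] at hy
  have h := hy j
  have h1 := AL_sg_bd t
  have h2 := AL_sg_bd (e j)
  split_ifs at h
  · simp only [mem_insert, mem_singleton] at h
    rcases h with h | h <;> rw [h]
    · rw [abs_neg]; omega
    · rw [abs_neg]; omega
  · simp only [mem_insert, mem_singleton] at h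
    rcases h with h | h | h <;> rw [h]
    · simp
    · omega
    · omega

lemma AL_quad_bd (i l : Fin 6) (t : Bool) (v : Fin 6 → Bool) (y : Site) (hy : y ∈ quad i l t v)
    (j : Fin 6) : |y j| ≤ 2 := by
  unfold quad at hy
  rw [Fintype.mem_piFinset] at hy
  have h := hy j
  rw [abs_le]
  split_ifs at h <;> simp only [mem_insert, mem_singleton] at h <;> omega

lemma AL_col_bd (u0 u1 k : ℤ) (c : Sym) (h0 : |u0| ≤ 1) (h1 : |u1| ≤ 1) (hk : 1 ≤ k ∧ k ≤ 262144)
    (y : Site) (hy : y ∈ col u0 u1 k c) (j : Fin 6) : |y j| ≤ 262144 := by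
  unfold col at hy
  rw [mem_image] at hy
  obtain ⟨r, hr, rfl⟩ := hy
  have h2 := AL_code_bd c r hr
  rw [abs_le] at *
  fin_cases j <;> simp <;> omega

lemma AL_rule_bd (X : Finset Site) (hX : X ∈ U) (y : Site) (hy : y ∈ X) (j : Fin 6) :
    |y j| ≤ 262144 := by
  unfold U at hX
  simp only [mem_union] at hX
  rcases hX with hX | hX | hX | hX | hX
  · unfold QRules at hX
    rw [mem_image] at hX
    obtain ⟨q, _, rfl⟩ := hX
    rw [mem_union] at hy
    rcases hy with hy | hy
    · have := AL_supp_bd _ _ _ y hy j; omega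
    · have := AL_quad_bd _ _ _ _ y hy j; omega
  · unfold ARules at hX
    rw [mem_image] at hX
    obtain ⟨q, hq, rfl⟩ := hX
    rw [mem_product] at hq
    rw [mem_union] at hy
    rcases hy with hy | hy
    · have := AL_supp_bd _ _ _ y hy j; omega
    · exact AL_col_bd _ _ _ _ (by norm_num) (by norm_num) (AL_code_bd _ _ hq.2) y hy j
  · unfold BRules at hX
    rw [mem_image] at hX
    obtain ⟨q, hq, rfl⟩ := hX
    rw [mem_product] at hq
    rw [mem_union] at hy
    rcases hy with hy | hy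
    · have := AL_supp_bd _ _ _ y hy j; omega
    · exact AL_col_bd _ _ _ _ (by norm_num) (by norm_num) (AL_code_bd _ _ hq.2) y hy j
  · unfold IRules at hX
    rw [mem_biUnion] at hX
    obtain ⟨q, _, hX⟩ := hX
    rw [mem_image] at hX
    obtain ⟨k, hk, rfl⟩ := hX
    rw [mem_union, mem_union] at hy
    rcases hy with hy | hy | hy
    · have := AL_supp_bd _ _ _ y hy j; omega
    · exact AL_col_bd _ _ _ _ (by norm_num) (by norm_num) (AL_code_bd _ _ hk) y hy j
    · exact AL_col_bd _ _ _ _ (by norm_num) (by norm_num) (AL_code_bd _ _ hk) y hy j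
  · unfold TRules at hX
    rw [mem_image] at hX
    obtain ⟨v, hv, rfl⟩ := hX
    unfold vbox at hv
    rw [Fintype.mem_piFinset] at hv
    have hvj : ∀ j, 0 ≤ v j ∧ v j ≤ 2 := by
      intro j
      have h := hv j
      split_ifs at h <;> simp only [mem_insert, mem_singleton] at h <;> omega
    rw [mem_union, mem_union] at hy
    rcases hy with hy | hy | hy
    · have := AL_supp_bd _ _ _ y hy j; omega
    · rw [mem_image] at hy
      obtain ⟨r, hr, rfl⟩ := hy
      have h2 := AL_codeo_bd r hr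
      have h3 := hvj j
      rw [abs_le]
      simp only [Pi.sub_apply]
      fin_cases j <;> simp at h3 ⊢ <;> omega
    · rw [mem_singleton] at hy
      subst hy
      have h3 := hvj j
      rw [abs_le]
      simp only [Pi.sub_apply]
      fin_cases j <;> simp at h3 ⊢ <;> omega

/-- the family of small internally spanned connected sets -/
def AL_fam (A : Set Site) (s : ℤ) (C : Finset Site) : Prop :=
  C.Nonempty ∧ conn C ∧ IS A C ∧ inbox C s

lemma AL_IS_sub {A : Set Site} {C C' : Finset Site} (h : IS A C) (hsub : C ⊆ C') {D : Set Site}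
    (h1 : ∀ x ∈ C', x ∈ A → x ∈ D)
    (h2 : ∀ x ∈ C', ∀ X ∈ U, (∀ y ∈ X, x + y ∈ C' ∧ x + y ∈ D) → x ∈ D) : ∀ x ∈ C, x ∈ D :=
  h D (fun x hx hA => h1 x (hsub hx) hA)
    (fun x hx X hX hy => h2 x (hsub hx) X hX (fun y hyX => ⟨hsub (hy y hyX).1, (hy y hyX).2⟩))

lemma AL_card {C : Finset Site} {s : ℤ} (h : inbox C s) : C.card ≤ s.toNat ^ 6 := by
  obtain ⟨c, hc⟩ := h
  have hsub : C ⊆ Fintype.piFinset (fun j => Finset.Ico (c j) (c j + s)) := by
    intro x hx
    rw [Fintype.mem_piFinset]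
    intro j
    rw [Finset.mem_Ico]
    exact hc x hx j
  refine (Finset.card_le_card hsub).trans ?_
  rw [Fintype.card_piFinset]
  simp

lemma AL_conn_glue {C C' : Finset Site} (h : conn C) (h' : conn C') {p q : Site} (hp : p ∈ C)
    (hq : q ∈ C') (hpq : nearD RR p q) : conn (C ∪ C') := by
  have hqp : nearD RR q p := by
    intro j; rw [abs_sub_comm]; exact hpq j
  intro D hD1 hD2
  by_cases hc : (∃ x ∈ C, x ∈ D) ∧ (∃ x ∈ C, x ∉ D)
  · obtain ⟨u, hu, v, hv, h1, h2, h3⟩ := h D hc.1 hc.2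
    exact ⟨u, mem_union_left _ hu, v, mem_union_left _ hv, h1, h2, h3⟩
  by_cases hc' : (∃ x ∈ C', x ∈ D) ∧ (∃ x ∈ C', x ∉ D)
  · obtain ⟨u, hu, v, hv, h1, h2, h3⟩ := h' D hc'.1 hc'.2
    exact ⟨u, mem_union_right _ hu, v, mem_union_right _ hv, h1, h2, h3⟩
  by_cases hpD : p ∈ D
  · by_cases hqD : q ∈ D
    · exfalso
      obtain ⟨v, hv, hvD⟩ := hD2
      rw [mem_union] at hv
      rcases hv with hv | hv
      · exact hc ⟨⟨p, hp, hpD⟩, ⟨v, hv, hvD⟩⟩
      · exact hc' ⟨⟨q, hq, hqD⟩, ⟨v, hv, hvD⟩⟩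
    · exact ⟨p, mem_union_left _ hp, q, mem_union_right _ hq, hpD, hqD, hpq⟩
  · by_cases hqD : q ∈ D
    · exact ⟨q, mem_union_right _ hq, p, mem_union_left _ hp, hqD, hpD, hqp⟩
    · exfalso
      obtain ⟨v, hv, hvD⟩ := hD1
      rw [mem_union] at hv
      rcases hv with hv | hv
      · exact hc ⟨⟨v, hv, hvD⟩, ⟨p, hp, hpD⟩⟩
      · exact hc' ⟨⟨v, hv, hvD⟩, ⟨q, hq, hqD⟩⟩

lemma AL_conn_star {X : Finset Site} (x : Site) (F : Site → Finset Site)
    (hconn : ∀ y ∈ X, conn (F y)) (hmem : ∀ y ∈ X, x + y ∈ F y)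
    (hbd : ∀ y ∈ X, ∀ j, |y j| ≤ RR) : conn ({x} ∪ X.biUnion F) := by
  intro D hD1 hD2
  have hnear : ∀ y ∈ X, nearD RR x (x + y) ∧ nearD RR (x + y) x := by
    intro y hy
    have h := hbd y hy
    constructor
    · intro j
      have := h j
      simp only [Pi.add_apply]
      rw [abs_le] at this ⊢
      omega
    · intro j
      have := h j
      simp only [Pi.add_apply]
      rw [abs_le] at this ⊢
      omega
  have hx : x ∈ {x} ∪ X.biUnion F := mem_union_left _ (mem_singleton_self x)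
  have hF : ∀ y ∈ X, F y ⊆ {x} ∪ X.biUnion F := by
    intro y hy q hq
    exact mem_union_right _ (mem_biUnion.2 ⟨y, hy, hq⟩)
  by_cases hxD : x ∈ D
  · obtain ⟨v, hv, hvD⟩ := hD2
    rw [mem_union, mem_singleton, mem_biUnion] at hv
    rcases hv with hv | ⟨y, hy, hv⟩
    · exact absurd (hv ▸ hxD) hvD
    · by_cases hc : ∃ q ∈ F y, q ∈ D
      · obtain ⟨u, hu, w, hw, h1, h2, h3⟩ := hconn y hy D hc ⟨v, hv, hvD⟩
        exact ⟨u, hF y hy hu, w, hF y hy hw, h1, h2, h3⟩
      · push Not at hc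
        exact ⟨x, hx, x + y, hF y hy (hmem y hy), hxD, hc _ (hmem y hy), (hnear y hy).1⟩
  · obtain ⟨v, hv, hvD⟩ := hD1
    rw [mem_union, mem_singleton, mem_biUnion] at hv
    rcases hv with hv | ⟨y, hy, hv⟩
    · exact absurd (hv ▸ hvD) hxD
    · by_cases hc : ∃ q ∈ F y, q ∉ D
      · obtain ⟨u, hu, w, hw, h1, h2, h3⟩ := hconn y hy D ⟨v, hv, hvD⟩ hc
        exact ⟨u, hF y hy hu, w, hF y hy hw, h1, h2, h3⟩
      · push Not at hc
        exact ⟨x + y, hF y hy (hmem y hy), x, hx, hc _ (hmem y hy), hxD, (hnear y hy).2⟩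

theorem AL {N : ℕ} [NeZero N] (A : Set (Fin 6 → ZMod N)) (hperc : Perc N A) (s : ℤ)
    (hs : 2 * RR ≤ s) : ∃ C : Finset Site, C.Nonempty ∧ conn C ∧ IS {x | red N x ∈ A} C ∧
      inbox C (3 * s) ∧ ¬ inbox C s := by
  have hs' : 524300 ≤ s := by unfold RR at hs; omega
  by_contra hcon
  have H : ∀ C : Finset Site, C.Nonempty → conn C → IS {x | red N x ∈ A} C →
      inbox C (3 * s) → inbox C s := by
    intro C h1 h2 h3 h4
    by_contra h5
    exact hcon ⟨C, h1, h2, h3, h4, h5⟩
  set At : Set Site := {x | red N x ∈ A} with hAt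
  set G : Set Site := {x | ∃ C, AL_fam At s C ∧ x ∈ C} with hG
  have hGmem : ∀ x, x ∈ G ↔ ∃ C, AL_fam At s C ∧ x ∈ C := fun x => Iff.rfl
  have hAG : ∀ x ∈ At, x ∈ G := by
    intro x hx
    refine ⟨{x}, ⟨⟨x, mem_singleton_self x⟩, ?_, ?_, ?_⟩, mem_singleton_self x⟩
    · rintro D ⟨u, hu, huD⟩ ⟨v, hv, hvD⟩
      rw [mem_singleton] at hu hv
      subst hu
      subst hv
      exact absurd huD hvD
    · intro D h1 _ u hu
      apply h1 u hu
      rw [mem_singleton] at hu
      rw [hu]; exact hx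
    · refine ⟨x, ?_⟩
      intro u hu j
      rw [mem_singleton] at hu
      rw [hu]
      constructor <;> omega
  have hclosed : Closed G := by
    intro x X hX hy
    choose! F hF using hy
    have hbd : ∀ y ∈ X, ∀ j, |y j| ≤ 262144 := fun y hyX j => AL_rule_bd X hX y hyX j
    have hC : AL_fam At s ({x} ∪ X.biUnion F) := by
      have hne : ({x} ∪ X.biUnion F).Nonempty := ⟨x, mem_union_left _ (mem_singleton_self x)⟩
      have hsub : ∀ y ∈ X, F y ⊆ {x} ∪ X.biUnion F := by
        intro y hy q hq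
        exact mem_union_right _ (mem_biUnion.2 ⟨y, hy, hq⟩)
      have hco : conn ({x} ∪ X.biUnion F) := by
        apply AL_conn_star x F (fun y hy => (hF y hy).1.2.1) (fun y hy => (hF y hy).2)
        intro y hy j
        have := hbd y hy j
        unfold RR
        omega
      have hIS : IS At ({x} ∪ X.biUnion F) := by
        intro D h1 h2
        have h3 : ∀ y ∈ X, ∀ q ∈ F y, q ∈ D := fun y hy =>
          AL_IS_sub (hF y hy).1.2.2.1 (hsub y hy) h1 h2
        intro q hq
        rw [mem_union, mem_singleton, mem_biUnion] at hq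
        rcases hq with hq | ⟨y, hy, hq⟩
        · rw [hq]
          apply h2 x (mem_union_left _ (mem_singleton_self x)) X hX
          intro y hy
          exact ⟨hsub y hy (hF y hy).2, h3 y hy _ (hF y hy).2⟩
        · exact h3 y hy q hq
      refine ⟨hne, hco, hIS, H _ hne hco hIS ?_⟩
      refine ⟨fun j => x j - (s - 1 + 262144), ?_⟩
      intro q hq j
      rw [mem_union, mem_singleton, mem_biUnion] at hq
      rcases hq with hq | ⟨y, hy, hq⟩
      · rw [hq]
        show x j - (s - 1 + 262144) ≤ x j ∧ x j < x j - (s - 1 + 262144) + 3 * s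
        constructor <;> omega
      · show x j - (s - 1 + 262144) ≤ q j ∧ q j < x j - (s - 1 + 262144) + 3 * s
        obtain ⟨c, hc⟩ := (hF y hy).1.2.2.2
        have h1 := hc q hq j
        have h2 := hc (x + y) (hF y hy).2 j
        have h3 := hbd y hy j
        simp only [Pi.add_apply] at h2
        rw [abs_le] at h3
        constructor <;> omega
    exact ⟨_, hC, mem_union_left _ (mem_singleton_self x)⟩
  have hred : ∀ x y : Site, red N (x + y) = red N x + red N y := by
    intro x y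
    funext j
    simp [red]
  have huniv : ∀ x : Site, x ∈ G := by
    have h := hperc {t | ∀ x : Site, red N x = t → x ∈ G} ?_ ?_
    · intro x
      have hx : red N x ∈ {t | ∀ x : Site, red N x = t → x ∈ G} := by
        rw [h]; exact Set.mem_univ _
      exact hx x rfl
    · intro t ht x hx
      apply hAG
      show red N x ∈ A
      rw [hx]; exact ht
    · intro t X hX hy x hx
      apply hclosed x X hX
      intro y hyX
      apply hy y hyX
      rw [hred, hx]
  -- a member of the family of maximal cardinality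
  have hmax : ∃ C, AL_fam At s C ∧ ∀ C', AL_fam At s C' → C'.card ≤ C.card := by
    set S : Set ℕ := {n | ∃ C, AL_fam At s C ∧ C.card = n} with hS
    have hne : S.Nonempty := by
      obtain ⟨C, hC, _⟩ := huniv 0
      exact ⟨C.card, C, hC, rfl⟩
    have hbdd : BddAbove S := by
      refine ⟨s.toNat ^ 6, ?_⟩
      rintro n ⟨C, hC, rfl⟩
      exact AL_card hC.2.2.2
    obtain ⟨C, hC, hCc⟩ := Nat.sSup_mem hne hbdd
    refine ⟨C, hC, ?_⟩
    intro C' hC'
    rw [hCc]
    exact le_csSup hbdd ⟨C', hC', rfl⟩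
  obtain ⟨C, hC, hCmax⟩ := hmax
  obtain ⟨p, hp, hpmax⟩ := C.exists_max_image (fun p => p 0) hC.1
  set x : Site := Function.update p 0 (p 0 + 1) with hxdef
  have hxC : x ∉ C := by
    intro hx
    have := hpmax x hx
    simp [hxdef] at this
  have hpx : ∀ j, |p j - x j| ≤ 1 := by
    intro j
    by_cases hj : j = 0
    · subst hj; simp [hxdef]
    · simp [hxdef, Function.update_of_ne hj]
  obtain ⟨Cx, hCx, hxCx⟩ := huniv x
  have hnear : nearD RR p x := by
    intro j
    have := hpx j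
    unfold RR
    omega
  have hne : (C ∪ Cx).Nonempty := ⟨p, mem_union_left _ hp⟩
  have hco : conn (C ∪ Cx) := AL_conn_glue hC.2.1 hCx.2.1 hp hxCx hnear
  have hIS : IS At (C ∪ Cx) := by
    intro D h1 h2 q hq
    rw [mem_union] at hq
    rcases hq with hq | hq
    · exact AL_IS_sub hC.2.2.1 subset_union_left h1 h2 q hq
    · exact AL_IS_sub hCx.2.2.1 subset_union_right h1 h2 q hq
  have hbox : inbox (C ∪ Cx) (3 * s) := by
    refine ⟨fun j => p j - s, ?_⟩
    intro q hq j
    obtain ⟨c, hc⟩ := hC.2.2.2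
    obtain ⟨c', hc'⟩ := hCx.2.2.2
    have h1 := hc p hp j
    have h2 := hc' x hxCx j
    have h3 := hpx j
    rw [abs_le] at h3
    rw [mem_union] at hq
    rcases hq with hq | hq
    · have h4 := hc q hq j
      show p j - s ≤ q j ∧ q j < p j - s + 3 * s
      constructor <;> omega
    · have h4 := hc' q hq j
      show p j - s ≤ q j ∧ q j < p j - s + 3 * s
      constructor <;> omega
  have hfam : AL_fam At s (C ∪ Cx) := ⟨hne, hco, hIS, H _ hne hco hIS hbox⟩
  have hcard := hCmax _ hfam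
  have hlt : C.card < (C ∪ Cx).card := by
    apply Finset.card_lt_card
    rw [Finset.ssubset_iff_of_subset subset_union_left]
    exact ⟨x, mem_union_right _ hxCx, hxC⟩
  omega

end Pool.Agent.R952.BP
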