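import Mathlib

/-!
# MP_c8529a_pr / S19636: final asymptotics (helper422)
-/

set_option autoImplicit false

namespace Pool.Agent.R952.BP

open Finset

theorem asym_irr (a : ℚ) : (5 + Real.logb 2 3) / 4 ≠ (a : ℝ) := by
  intro h
  set q : ℚ := 4 * a - 5 with hq
  have h1 : Real.logb 2 3 = (q : ℝ) := by
    rw [hq]
    push_cast
    linarith
  have hpos : (0 : ℝ) < Real.logb 2 3 := Real.logb_pos (by norm_num) (by norm_num)
  have hq0 : 0 < q := by
    rw [h1] at hpos
    exact_mod_cast hpos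
  have h2 : (2 : ℝ) ^ (q : ℝ) = 3 := by
    rw [← h1]
    exact Real.rpow_logb (by norm_num) (by norm_num) (by norm_num)
  have hnum : (q : ℝ) * (q.den : ℝ) = ((q.num.toNat : ℕ) : ℝ) := by
    have h3 : (q : ℚ) * (q.den : ℚ) = (q.num : ℚ) := Rat.mul_den_eq_num q
    have h4 : ((q.num.toNat : ℕ) : ℤ) = q.num := Int.toNat_of_nonneg (Rat.num_nonneg.2 hq0.le)
    have h5 : ((q.num.toNat : ℕ) : ℝ) = ((q.num : ℤ) : ℝ) := by exact_mod_cast h4
    rw [h5]
    exact_mod_cast h3
  have h6 : (2 : ℝ) ^ (q.num.toNat) = (3 : ℝ) ^ (q.den) := by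
    rw [← Real.rpow_natCast 2 q.num.toNat, ← hnum, Real.rpow_mul (by norm_num), h2,
      Real.rpow_natCast]
  have h7 : (2 : ℕ) ^ (q.num.toNat) = (3 : ℕ) ^ (q.den) := by exact_mod_cast h6
  have hn0 : q.num.toNat ≠ 0 := by
    have : 0 < q.num := Rat.num_pos.2 hq0
    omega
  have h8 : Even ((3 : ℕ) ^ q.den) := by
    rw [← h7]
    exact (Nat.even_pow' hn0).2 (by decide)
  have h9 : Odd ((3 : ℕ) ^ q.den) := Odd.pow (by decide)
  exact (Nat.not_even_iff_odd.2 h9) h8

theorem asym_iter_top (m : ℕ) : Filter.Tendsto (Real.log^[m]) Filter.atTop Filter.atTop := by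
  induction m with
  | zero => exact Filter.tendsto_id
  | succ m ih =>
    rw [Function.iterate_succ]
    exact ih.comp Real.tendsto_log_atTop

theorem asym_iter_o (m : ℕ) :
    Asymptotics.IsLittleO Filter.atTop (Real.log^[m + 1]) (id : ℝ → ℝ) := by
  induction m with
  | zero => exact Real.isLittleO_log_id_atTop
  | succ m ih =>
    have h1 : Asymptotics.IsLittleO Filter.atTop ((Real.log^[m + 1]) ∘ Real.log)
        ((id : ℝ → ℝ) ∘ Real.log) := ih.comp_tendsto Real.tendsto_log_atTop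
    have h2 : ((id : ℝ → ℝ) ∘ Real.log) = Real.log := rfl
    rw [h2] at h1
    rw [Function.iterate_succ]
    exact h1.trans Real.isLittleO_log_id_atTop

theorem asym_ratio (m : ℕ) :
    Filter.Tendsto (fun y : ℝ => y / Real.log^[m + 1] y) Filter.atTop Filter.atTop := by
  have h1 : Filter.Tendsto (fun y : ℝ => Real.log^[m + 1] y / y) Filter.atTop (nhds 0) :=
    (asym_iter_o m).tendsto_div_nhds_zero
  have h2 : Filter.Tendsto (fun y : ℝ => Real.log^[m + 1] y / y) Filter.atTop
      (nhdsWithin 0 (Set.Ioi 0)) := by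
    refine tendsto_nhdsWithin_iff.2 ⟨h1, ?_⟩
    filter_upwards [Filter.eventually_gt_atTop 0, (asym_iter_top (m + 1)).eventually_gt_atTop 0]
      with y hy hy'
    exact div_pos hy' hy
  have h3 := h2.inv_tendsto_nhdsGT_zero
  refine h3.congr (fun y => ?_)
  simp

theorem final_asym (pc : ℕ → ℝ)
    (hlow : ∀ δ : ℝ, 0 < δ → δ ≤ 1 / 100 → ∀ᶠ n : ℕ in Filter.atTop,
      (Real.log ((n : ℝ) + 1)) ^ (-((5 + Real.logb 2 3) / 4 + δ)) ≤ pc n)
    (hup : ∀ δ : ℝ, 0 < δ → δ ≤ 1 / 100 → ∀ᶠ n : ℕ in Filter.atTop,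
      pc n ≤ (Real.log ((n : ℝ) + 1)) ^ (-((5 + Real.logb 2 3) / 4 - δ)))
    (r : ℕ) (hr : 1 ≤ r) (α : ℚ) :
    ¬ Filter.Tendsto (fun n : ℕ => Real.log (pc n) / Real.log (1 / Real.log^[r] ((n : ℝ) + 1)))
      Filter.atTop (nhds (α : ℝ)) := by
  intro hT
  set A : ℝ := (5 + Real.logb 2 3) / 4 with hA
  have hApos : 0 < A := by
    have hpos : (0 : ℝ) < Real.logb 2 3 := Real.logb_pos (by norm_num) (by norm_num)
    rw [hA]
    linarith
  have hx : Filter.Tendsto (fun n : ℕ => (n : ℝ) + 1) Filter.atTop Filter.atTop :=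
    Filter.tendsto_atTop_add_const_right _ _ tendsto_natCast_atTop_atTop
  have hlog : Filter.Tendsto (fun n : ℕ => Real.log ((n : ℝ) + 1)) Filter.atTop Filter.atTop :=
    Real.tendsto_log_atTop.comp hx
  have hL : Filter.Tendsto (fun n : ℕ => Real.log (Real.log ((n : ℝ) + 1)))
      Filter.atTop Filter.atTop := Real.tendsto_log_atTop.comp hlog
  -- the main limit
  have hmain : Filter.Tendsto (fun n : ℕ => Real.log (pc n) /
      (-(Real.log (Real.log ((n : ℝ) + 1))))) Filter.atTop (nhds A) := by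
    rw [Metric.tendsto_nhds]
    intro ε hε
    set δ : ℝ := min (ε / 2) (1 / 100) with hδ
    have hδ0 : 0 < δ := lt_min (by linarith) (by norm_num)
    have hδ1 : δ ≤ 1 / 100 := min_le_right _ _
    have hδε : δ < ε := lt_of_le_of_lt (min_le_left _ _) (by linarith)
    filter_upwards [hlow δ hδ0 hδ1, hup δ hδ0 hδ1, hlog.eventually_gt_atTop 0,
      hL.eventually_gt_atTop 0] with n h1 h2 h3 h4
    set l : ℝ := Real.log ((n : ℝ) + 1) with hl
    have hp1 : 0 < l ^ (-(A + δ)) := Real.rpow_pos_of_pos h3 _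
    have hpc : 0 < pc n := lt_of_lt_of_le hp1 h1
    have h5 : -(A + δ) * Real.log l ≤ Real.log (pc n) := by
      rw [← Real.log_rpow h3]
      exact Real.log_le_log hp1 h1
    have h6 : Real.log (pc n) ≤ -(A - δ) * Real.log l := by
      rw [← Real.log_rpow h3]
      exact Real.log_le_log hpc h2
    rw [Real.dist_eq]
    have h7 : Real.log (pc n) / (-(Real.log l)) - A =
        (-(Real.log (pc n)) - A * Real.log l) / Real.log l := by
      field_simp
    rw [h7, abs_div, abs_of_pos h4, div_lt_iff₀ h4, abs_lt]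
    constructor <;> nlinarith
  obtain ⟨s, rfl⟩ : ∃ s, r = s + 1 := ⟨r - 1, by omega⟩
  rcases Nat.eq_zero_or_pos s with hs | hs
  · subst hs
    have hT' : Filter.Tendsto (fun n : ℕ => Real.log (pc n) /
        (-(Real.log (Real.log ((n : ℝ) + 1))))) Filter.atTop (nhds (α : ℝ)) := by
      refine hT.congr (fun n => ?_)
      simp [Real.log_inv]
    exact asym_irr α (tendsto_nhds_unique hmain hT')
  · obtain ⟨m, rfl⟩ : ∃ m, s = m + 1 := ⟨s - 1, by omega⟩
    have h1 : Filter.Tendsto (fun n : ℕ => Real.log (Real.log ((n : ℝ) + 1)) /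
        Real.log^[m + 1] (Real.log (Real.log ((n : ℝ) + 1)))) Filter.atTop Filter.atTop :=
      (asym_ratio m).comp hL
    have h2 := hmain.pos_mul_atTop hApos h1
    have h3 : Filter.Tendsto (fun n : ℕ => Real.log (pc n) /
        Real.log (1 / Real.log^[m + 1 + 1] ((n : ℝ) + 1))) Filter.atTop Filter.atTop := by
      refine h2.congr' ?_
      filter_upwards [hL.eventually_gt_atTop 0] with n h4
      have h5 : Real.log (1 / Real.log^[m + 1 + 1] ((n : ℝ) + 1)) =
          -(Real.log^[m + 1] (Real.log (Real.log ((n : ℝ) + 1)))) := by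
        have h6 : Real.log^[m + 1] (Real.log (Real.log ((n : ℝ) + 1))) =
            Real.log (Real.log^[m + 1 + 1] ((n : ℝ) + 1)) := by
          exact (Function.iterate_succ_apply Real.log (m + 1) (Real.log ((n : ℝ) + 1))).symm.trans
            ((Function.iterate_succ_apply Real.log (m + 2) ((n : ℝ) + 1)).symm.trans
              (Function.iterate_succ_apply' Real.log (m + 2) ((n : ℝ) + 1)))
        rw [h6, one_div, Real.log_inv]
      rw [h5]
      set B := Real.log^[m + 1] (Real.log (Real.log ((n : ℝ) + 1)))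
      set l := Real.log (Real.log ((n : ℝ) + 1))
      by_cases hB : B = 0
      · simp [hB]
      · field_simp
    exact not_tendsto_nhds_of_tendsto_atTop h3 _ hT

end Pool.Agent.R952.BP
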