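import Pool.Agent.R952.BP.Defs

/-!
# Criticality of the update family (piece ST1 of S19636, written by helper252)
-/

set_option autoImplicit false
set_option linter.constructorNameAsVariable false
set_option linter.unusedSimpArgs false
set_option maxRecDepth 20000

namespace Pool.Agent.R952.BP

open Finset

theorem Crit_sg (t : Bool) : sg t = 1 ∨ sg t = -1 := by
  cases t <;> simp [sg]

theorem Crit_supp_nonempty (i : Fin 6) (t : Bool) (e : Fin 6 → Bool) : (supp i t e).Nonempty := by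
  unfold supp
  rw [Fintype.piFinset_nonempty]
  intro j
  split <;> simp

theorem Crit_zero_supp (i : Fin 6) (t : Bool) (e : Fin 6 → Bool) :
    (0 : Site) ∉ supp i t e := by
  unfold supp
  rw [Fintype.mem_piFinset]
  intro h
  have h1 := h i
  rcases Crit_sg t with h2 | h2 <;> simp [h2] at h1

theorem Crit_zero_quad (i l : Fin 6) (hl : l ≠ i) (t : Bool) (v : Fin 6 → Bool) :
    (0 : Site) ∉ quad i l t v := by
  unfold quad
  rw [Fintype.mem_piFinset]
  intro h
  have h1 := h l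
  cases t <;> simp [hl] at h1

theorem Crit_zero_col1 (k : ℤ) (c : Sym) : (0 : Site) ∉ col (-1) 0 k c := by
  unfold col
  intro h
  rw [mem_image] at h
  obtain ⟨r, -, h⟩ := h
  have := congrFun h 0
  simp at this

theorem Crit_zero_col2 (k : ℤ) (c : Sym) : (0 : Site) ∉ col 0 (-1) k c := by
  unfold col
  intro h
  rw [mem_image] at h
  obtain ⟨r, -, h⟩ := h
  have := congrFun h 1
  simp at this

theorem Crit_mem_U {X : Finset Site} (hX : X ∈ U) :
    (∃ (i : Fin 6) (t : Bool) (e : Fin 6 → Bool) (l : Fin 6) (t' : Bool) (v : Fin 6 → Bool),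
      l ≠ i ∧ X = supp i t e ∪ quad i l t' v) ∨
    (∃ (k : ℤ) (c : Sym), X = supp0 ∪ col (-1) 0 k c) ∨
    (∃ (k : ℤ) (c : Sym), X = supp0 ∪ col 0 (-1) k c) ∨
    (∃ (k : ℤ) (c d : Sym), X = supp0 ∪ (col (-1) 0 k c ∪ col 0 (-1) k d)) ∨
    (∃ v ∈ vbox, X = supp0 ∪ ((code .o).image (fun r => (![0, 0, r, 0, 0, 0] : Site) - v) ∪
    {(![0, 0, 0, 1, 0, 0] : Site) - v})) := by
  unfold U at hX
  rw [mem_union, mem_union, mem_union, mem_union] at hX
  rcases hX with h | h | h | h | h
  · left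
    unfold QRules at h
    rw [mem_image] at h
    obtain ⟨q, hq, rfl⟩ := h
    rw [mem_filter] at hq
    exact ⟨q.1, q.2.1, q.2.2.1, q.2.2.2.1, q.2.2.2.2.1, q.2.2.2.2.2, hq.2, rfl⟩
  · right; left
    unfold ARules at h
    rw [mem_image] at h
    obtain ⟨q, -, rfl⟩ := h
    exact ⟨q.2, q.1, rfl⟩
  · right; right; left
    unfold BRules at h
    rw [mem_image] at h
    obtain ⟨q, -, rfl⟩ := h
    exact ⟨q.2, q.1, rfl⟩
  · right; right; right; left
    unfold IRules at h
    rw [mem_biUnion] at h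
    obtain ⟨q, -, h⟩ := h
    rw [mem_image] at h
    obtain ⟨k, -, rfl⟩ := h
    exact ⟨k, q.1, q.2, rfl⟩
  · right; right; right; right
    unfold TRules at h
    rw [mem_image] at h
    obtain ⟨v, hv, rfl⟩ := h
    exact ⟨v, hv, rfl⟩

theorem Crit_vbox {v : Site} (hv : v ∈ vbox) : v 4 ≠ 0 ∧ v 5 = 0 := by
  unfold vbox at hv
  rw [Fintype.mem_piFinset] at hv
  have h4 := hv 4
  have h5 := hv 5
  simp at h4 h5
  refine ⟨?_, h5⟩
  rcases h4 with h | h <;> rw [h] <;> norm_num

theorem U_ne : ∀ X ∈ U, X.Nonempty ∧ (0 : Fin 6 → ℤ) ∉ X := by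
  intro X hX
  rcases Crit_mem_U hX with ⟨i, t, e, l, t', v, hl, rfl⟩ | ⟨k, c, rfl⟩ | ⟨k, c, rfl⟩ |
    ⟨k, c, d, rfl⟩ | ⟨v, hv, rfl⟩
  · refine ⟨(Crit_supp_nonempty i t e).mono subset_union_left, ?_⟩
    rw [mem_union, not_or]
    exact ⟨Crit_zero_supp i t e, Crit_zero_quad i l hl t' v⟩
  · refine ⟨(Crit_supp_nonempty _ _ _).mono subset_union_left, ?_⟩
    rw [mem_union, not_or]
    exact ⟨Crit_zero_supp _ _ _, Crit_zero_col1 k c⟩
  · refine ⟨(Crit_supp_nonempty _ _ _).mono subset_union_left, ?_⟩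
    rw [mem_union, not_or]
    exact ⟨Crit_zero_supp _ _ _, Crit_zero_col2 k c⟩
  · refine ⟨(Crit_supp_nonempty _ _ _).mono subset_union_left, ?_⟩
    rw [mem_union, mem_union, not_or, not_or]
    exact ⟨Crit_zero_supp _ _ _, Crit_zero_col1 k c, Crit_zero_col2 k d⟩
  · refine ⟨(Crit_supp_nonempty _ _ _).mono subset_union_left, ?_⟩
    rw [mem_union, mem_union, not_or, not_or]
    have h4 := (Crit_vbox hv).1
    refine ⟨Crit_zero_supp _ _ _, ?_, ?_⟩
    · intro h
      rw [mem_image] at h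
      obtain ⟨r, -, h⟩ := h
      have := congrFun h 4
      simp [Pi.sub_apply] at this
      exact h4 this
    · intro h
      rw [mem_singleton] at h
      have := congrFun h 4
      simp [Pi.sub_apply] at this
      exact h4 this

/-- Every rule contains a site with vanishing `i`-coordinate. -/
theorem Crit_coord (i : Fin 6) {X : Finset Site} (hX : X ∈ U) : ∃ x ∈ X, x i = 0 := by
  have hs : ∀ (i' : Fin 6) (t : Bool) (e : Fin 6 → Bool), i ≠ i' → ∃ x ∈ supp i' t e, x i = 0 := by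
    intro i' t e hi
    refine ⟨fun j => if j = i' then -(sg t) else 0, ?_, by simp [hi]⟩
    unfold supp
    rw [Fintype.mem_piFinset]
    intro j
    by_cases hj : j = i' <;> simp [hj]
  have hcode : ∀ c : Sym, (code c).Nonempty := by
    intro c
    cases c <;> simp [code]
  rcases Crit_mem_U hX with ⟨i', t, e, l, t', v, hl, rfl⟩ | ⟨k, c, rfl⟩ | ⟨k, c, rfl⟩ |
    ⟨k, c, d, rfl⟩ | ⟨v, hv, rfl⟩
  · by_cases hi : i = i'
    · refine ⟨fun j => if j = i' then 0 else if j = l then (if t' then 1 else -2) else 0, ?_,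
        by simp [hi]⟩
      rw [mem_union]
      right
      unfold quad
      rw [Fintype.mem_piFinset]
      intro j
      by_cases hj : j = i'
      · simp [hj]
      · by_cases hj2 : j = l
        · subst hj2
          cases t' <;> simp [hj]
        · cases hv : v j <;> simp [hj, hj2, hv]
    · obtain ⟨x, hx, hxi⟩ := hs i' t e hi
      exact ⟨x, mem_union_left _ hx, hxi⟩
  all_goals
    by_cases hi : i = 5
    swap
    · obtain ⟨x, hx, hxi⟩ := hs 5 true (fun _ => true) hi
      exact ⟨x, mem_union_left _ hx, hxi⟩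
    subst hi
  · obtain ⟨r, hr⟩ := hcode c
    refine ⟨![-1, 0, r - k, 0, 0, 0], mem_union_right _ (mem_image_of_mem _ hr), by simp⟩
  · obtain ⟨r, hr⟩ := hcode c
    refine ⟨![0, -1, r - k, 0, 0, 0], mem_union_right _ (mem_image_of_mem _ hr), by simp⟩
  · obtain ⟨r, hr⟩ := hcode c
    refine ⟨![-1, 0, r - k, 0, 0, 0], mem_union_right _
      (mem_union_left _ (mem_image_of_mem _ hr)), by simp⟩
  · refine ⟨(![0, 0, 0, 1, 0, 0] : Site) - v, mem_union_right _
      (mem_union_right _ (mem_singleton_self _)), ?_⟩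
    have h5 := (Crit_vbox hv).2
    simp [Pi.sub_apply, h5]

/-- A unit vector which is stable has a vanishing coordinate. -/
theorem Crit_stable (u : Fin 6 → ℝ)
    (h : ∀ X ∈ U, ∃ x ∈ X, 0 ≤ ∑ i, (x i : ℝ) * u i) : ∃ j, u j = 0 := by
  by_contra hne
  push Not at hne
  set e : Fin 6 → Bool := fun j => decide (u j < 0) with he
  have hneg : ∀ j, (sg (e j) : ℝ) * u j < 0 := by
    intro j
    rcases lt_or_gt_of_ne (hne j) with hj | hj
    · simp [he, hj, sg]
    · have : ¬ u j < 0 := not_lt.mpr hj.le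
      simp [he, this, sg, hj]
  have hX : supp 0 (!(e 0)) e ∪ quad 0 1 (e 1) e ∈ U := by
    unfold U
    apply mem_union_left
    unfold QRules
    rw [mem_image]
    exact ⟨(0, !(e 0), e, 1, e 1, e), by simp, rfl⟩
  obtain ⟨x, hx, hpos⟩ := h _ hX
  have hle : ∀ j, (x j : ℝ) * u j ≤ 0 ∧ (((x ∈ supp 0 (!(e 0)) e ∧ j = 0) ∨
      (x ∈ quad 0 1 (e 1) e ∧ j = 1)) → (x j : ℝ) * u j < 0) := by
    intro j
    rw [mem_union] at hx
    have hnj := hneg j
    rcases hx with hx | hx
    · have hmem := hx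
      unfold supp at hx
      rw [Fintype.mem_piFinset] at hx
      have hxj := hx j
      by_cases hj : j = 0
      · subst hj
        have hstrict : (x 0 : ℝ) * u 0 < 0 := by
          cases h0 : e 0 <;> simp [h0, sg] at hxj hnj <;> rcases hxj with h1 | h1 <;>
            rw [h1] <;> push_cast <;> nlinarith
        exact ⟨hstrict.le, fun _ => hstrict⟩
      · have hle : (x j : ℝ) * u j ≤ 0 := by
          cases h0 : e j <;> simp [h0, sg, hj] at hxj hnj <;> rcases hxj with h1 | h1 | h1 <;>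
            rw [h1] <;> push_cast <;> nlinarith
        refine ⟨hle, ?_⟩
        rintro (⟨-, h1⟩ | ⟨h1, h2⟩)
        · exact absurd h1 hj
        · unfold quad at h1
          rw [Fintype.mem_piFinset] at h1
          have h3 := h1 0
          have h4 := hx 0
          cases h0 : e 0 <;> simp [h0, sg] at h3 h4 <;> omega
    · have hmem := hx
      unfold quad at hx
      rw [Fintype.mem_piFinset] at hx
      have hxj := hx j
      by_cases hj : j = 0
      · subst hj
        simp at hxj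
        refine ⟨by rw [hxj]; simp, ?_⟩
        rintro (⟨h1, -⟩ | ⟨-, h2⟩)
        · unfold supp at h1
          rw [Fintype.mem_piFinset] at h1
          have h4 := h1 0
          cases h0 : e 0 <;> simp [h0, sg] at h4 <;> omega
        · exact absurd h2 (by decide)
      · by_cases hj1 : j = 1
        · subst hj1
          have hstrict : (x 1 : ℝ) * u 1 < 0 := by
            cases h0 : e 1 <;> simp [h0, sg] at hxj hnj <;> rcases hxj with h1 | h1 <;>
              rw [h1] <;> push_cast <;> nlinarith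
          exact ⟨hstrict.le, fun _ => hstrict⟩
        · have hle : (x j : ℝ) * u j ≤ 0 := by
            cases h0 : e j <;> simp [h0, sg, hj, hj1] at hxj hnj <;> rcases hxj with h1 | h1 <;>
              rw [h1] <;> push_cast <;> nlinarith
          refine ⟨hle, ?_⟩
          rintro (⟨-, h1⟩ | ⟨-, h2⟩)
          · exact absurd h1 hj
          · exact absurd h2 hj1
  have hlt : ∑ j, (x j : ℝ) * u j < ∑ _j : Fin 6, (0 : ℝ) := by
    apply Finset.sum_lt_sum
    · intro j _
      exact (hle j).1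
    · rw [mem_union] at hx
      rcases hx with hx | hx
      · exact ⟨0, mem_univ _, (hle 0).2 (Or.inl ⟨hx, rfl⟩)⟩
      · exact ⟨1, mem_univ _, (hle 1).2 (Or.inr ⟨hx, rfl⟩)⟩
  simp at hlt
  linarith

theorem Crit_sphere_null : MeasureTheory.volume {w : Fin 5 → ℝ | ∑ i, w i ^ 2 = 1} = 0 := by
  have h1 := (PiLp.volume_preserving_toLp (Fin 5)).measure_preimage
    (s := Metric.sphere (0 : EuclideanSpace ℝ (Fin 5)) 1)
    (Metric.isClosed_sphere.measurableSet.nullMeasurableSet)
  rw [MeasureTheory.Measure.addHaar_sphere] at h1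
  rw [← h1]
  congr 1
  ext w
  simp only [Set.mem_preimage, mem_sphere_zero_iff_norm, Set.mem_ofPred_eq, EuclideanSpace.norm_eq,
    Real.norm_eq_abs, sq_abs]
  constructor
  · intro h
    rw [h, Real.sqrt_one]
  · intro h
    have h2 : (0 : ℝ) ≤ ∑ i, w i ^ 2 := Finset.sum_nonneg (fun i _ => sq_nonneg _)
    have h3 := Real.sqrt_eq_one.mp h
    exact h3

theorem Crit_slice_null (j : Fin 6) : MeasureTheory.Measure.hausdorffMeasure (((6 : ℕ) : ℝ) - 1)
    {u : Fin 6 → ℝ | u j = 0 ∧ ∑ i, u i ^ 2 = 1} = 0 := by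
  have h5 : (((6 : ℕ) : ℝ) - 1) = (Fintype.card (Fin 5) : ℝ) := by norm_num
  rw [h5]
  set f : (Fin 5 → ℝ) → (Fin 6 → ℝ) := fun w => j.insertNth (0 : ℝ) w with hf
  have hlip : LipschitzWith 1 f := by
    apply LipschitzWith.of_dist_le_mul
    intro a b
    rw [NNReal.coe_one, one_mul, dist_pi_le_iff dist_nonneg]
    intro i
    refine Fin.succAboveCases j ?_ ?_ i
    · simp [hf]
    · intro k
      simp only [hf, Fin.insertNth_apply_succAbove]
      exact dist_le_pi_dist a b k
  have hsub : {u : Fin 6 → ℝ | u j = 0 ∧ ∑ i, u i ^ 2 = 1} ⊆ f '' {w : Fin 5 → ℝ | ∑ i, w i ^ 2 = 1} := by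
    rintro u ⟨hu0, hu1⟩
    refine ⟨fun k => u (j.succAbove k), ?_, ?_⟩
    · rw [Set.mem_ofPred_eq]
      rw [Fin.sum_univ_succAbove _ j, hu0] at hu1
      simpa using hu1
    · have := Fin.insertNth_self_removeNth j u
      simp only [hf]
      rw [← hu0]
      exact this
  refine MeasureTheory.measure_mono_null hsub ?_
  have h := hlip.hausdorffMeasure_image_le (d := (Fintype.card (Fin 5) : ℝ)) (Nat.cast_nonneg _)
    {w : Fin 5 → ℝ | ∑ i, w i ^ 2 = 1}
  rw [MeasureTheory.hausdorffMeasure_pi_real, Crit_sphere_null, mul_zero] at h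
  exact le_antisymm h zero_le

theorem U_crit1 : ∃ v : Fin 6 → ℝ, v ≠ 0 ∧ MeasureTheory.Measure.hausdorffMeasure (((6 : ℕ) : ℝ) - 1)
        {u : Fin 6 → ℝ | ∑ i, u i ^ 2 = 1 ∧ (∀ X ∈ U, ∃ x ∈ X, 0 ≤ ∑ i, (x i : ℝ) * u i) ∧
          0 ≤ ∑ i, u i * v i} = 0 := by
  refine ⟨fun _ => 1, ?_, ?_⟩
  · intro h
    have := congrFun h 0
    simp at this
  · refine MeasureTheory.measure_mono_null (t := ⋃ j : Fin 6, {u : Fin 6 → ℝ | u j = 0 ∧ ∑ i, u i ^ 2 = 1})
      ?_ ?_
    · rintro u ⟨h1, h2, -⟩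
      obtain ⟨j, hj⟩ := Crit_stable u h2
      exact Set.mem_iUnion.mpr ⟨j, hj, h1⟩
    · rw [MeasureTheory.measure_iUnion_null_iff]
      exact Crit_slice_null

theorem U_crit2 : ∀ v : Fin 6 → ℝ, v ≠ 0 → ∃ u : Fin 6 → ℝ, ∑ i, u i ^ 2 = 1 ∧
        (∀ X ∈ U, ∃ x ∈ X, 0 ≤ ∑ i, (x i : ℝ) * u i) ∧ 0 < ∑ i, u i * v i := by
  intro v hv
  obtain ⟨i, hi⟩ : ∃ i, v i ≠ 0 := by
    by_contra h
    push Not at h
    exact hv (funext h)
  obtain ⟨s, hs1, hs2⟩ : ∃ s : ℝ, s ^ 2 = 1 ∧ 0 < s * v i := by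
    rcases lt_or_gt_of_ne hi with h | h
    · exact ⟨-1, by norm_num, by linarith⟩
    · exact ⟨1, by norm_num, by linarith⟩
  have hsum : ∀ g : Fin 6 → ℝ, ∑ k, g k * (Pi.single i s : Fin 6 → ℝ) k = g i * s := by
    intro g
    rw [Finset.sum_eq_single i]
    · simp
    · intro k _ hk
      simp [Pi.single_apply, hk]
    · intro h
      exact absurd (mem_univ i) h
  refine ⟨Pi.single i s, ?_, ?_, ?_⟩
  · rw [Finset.sum_eq_single i]
    · simpa using hs1
    · intro k _ hk
      simp [Pi.single_apply, hk]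
    · intro h
      exact absurd (mem_univ i) h
  · intro X hX
    obtain ⟨x, hx, hxi⟩ := Crit_coord i hX
    refine ⟨x, hx, ?_⟩
    rw [hsum, hxi]
    simp
  · have h2 : ∑ k, (Pi.single i s : Fin 6 → ℝ) k * v k = v i * s := by
      rw [← hsum v]
      exact Finset.sum_congr rfl (fun k _ => mul_comm _ _)
    rw [h2]
    linarith

end Pool.Agent.R952.BP
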