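import Mathlib

/-!
# A critical update family in dimension 6 whose critical exponent is irrational: definitions
(helper952, for MP_c8529a_pr / S19636)

Coordinates `0, 1` : plane of the patterns; `2` : direction of the codes; `3` : direction of the
trigger site; `4` : spare; `5` : easy growth direction.
-/

set_option autoImplicit false

namespace Pool.Agent.R952.BP

open Finset

abbrev Site : Type := Fin 6 → ℤ

/-- The symbols: seed, horizontal edge, vertical edge, zero, one. -/
inductive Sym | s | a | b | z | o
  deriving DecidableEq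

instance : Fintype Sym := ⟨{.s, .a, .b, .z, .o}, by intro x; cases x <;> decide⟩

/-- The codes of the symbols (all elements together form a Sidon set). -/
def code : Sym → Finset ℤ
  | .s => {1, 2, 4}
  | .a => {8, 16, 32, 64}
  | .b => {128, 256, 512, 1024}
  | .z => {2048, 4096, 8192, 16384}
  | .o => {32768, 65536, 131072, 262144}

def val : Sym → Bool
  | .z => false
  | _ => true

/-- exclusive or -/
def xo (l d : Sym) : Sym := if val l = val d then .z else .o

/-- The pattern: Pascal's triangle modulo 2. -/
def sym : ℕ → ℕ → Sym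
  | 0, 0 => .s
  | _ + 1, 0 => .a
  | 0, _ + 1 => .b
  | i + 1, j + 1 => if (i + j + 2).choose (i + 1) % 2 = 1 then .o else .z

/-- sign -/
def sg (t : Bool) : ℤ := if t then 1 else -1

/-- The supporting box of a site: two layers behind it in direction `i`. -/
def supp (i : Fin 6) (t : Bool) (e : Fin 6 → Bool) : Finset Site :=
  Fintype.piFinset (fun j => if j = i then {-(sg t), -(2 * sg t)} else {0, sg (e j), 2 * sg (e j)})

/-- A `2 × ... × 2` box in the layer of the site, perpendicular to `i`, at the side `l`. -/
def quad (i l : Fin 6) (t : Bool) (v : Fin 6 → Bool) : Finset Site :=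
  Fintype.piFinset (fun j => if j = i then {0} else if j = l then (if t then {1, 2} else {-2, -1})
    else (if v j then {0, 1} else {-1, 0}))

/-- The code of the symbol `c` in the column `(u0, u1)`, seen from the element `k`. -/
def col (u0 u1 k : ℤ) (c : Sym) : Finset Site :=
  (code c).image (fun r => (![u0, u1, r - k, 0, 0, 0] : Site))

/-- The supporting box for the pattern rules. -/
def supp0 : Finset Site := supp 5 true (fun _ => true)

/-- The rules which fill a layer. -/
def QRules : Finset (Finset Site) :=
  ((univ : Finset (Fin 6 × Bool × (Fin 6 → Bool) × Fin 6 × Bool × (Fin 6 → Bool))).filter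
    (fun q => q.2.2.2.1 ≠ q.1)).image
    (fun q => supp q.1 q.2.1 q.2.2.1 ∪ quad q.1 q.2.2.2.1 q.2.2.2.2.1 q.2.2.2.2.2)

/-- The rules for the horizontal edge. -/
def ARules : Finset (Finset Site) :=
  (({.s, .a} : Finset Sym) ×ˢ code .a).image (fun q => supp0 ∪ col (-1) 0 q.2 q.1)

/-- The rules for the vertical edge. -/
def BRules : Finset (Finset Site) :=
  (({.s, .b} : Finset Sym) ×ˢ code .b).image (fun q => supp0 ∪ col 0 (-1) q.2 q.1)

/-- The rules for the inner cells. -/
def IRules : Finset (Finset Site) :=
  ((({.b, .z, .o} : Finset Sym) ×ˢ ({.a, .z, .o} : Finset Sym)).biUnion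
    (fun q => (code (xo q.1 q.2)).image
      (fun k => supp0 ∪ (col (-1) 0 k q.1 ∪ col 0 (-1) k q.2))))

/-- The targets of the trigger. -/
def vbox : Finset Site :=
  Fintype.piFinset (fun j => if j = 5 then {0} else if j = 4 then {1, 2} else {0, 1})

/-- The trigger rules: a cell with symbol one and the site next to it in direction `3`. -/
def TRules : Finset (Finset Site) :=
  vbox.image (fun v => supp0 ∪ ((code .o).image (fun r => (![0, 0, r, 0, 0, 0] : Site) - v) ∪
    {(![0, 0, 0, 1, 0, 0] : Site) - v}))

/-- The update family. -/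
def U : Finset (Finset Site) := QRules ∪ (ARules ∪ (BRules ∪ (IRules ∪ TRules)))

/-- Closed sets of sites of `ℤ^6`. -/
def Closed (G : Set Site) : Prop := ∀ x : Site, ∀ X ∈ U, (∀ y ∈ X, x + y ∈ G) → x ∈ G

/-- A point of the pattern with base point `z`. -/
def cell (z : Site) (i j r : ℤ) : Site := z + ![i, j, r, 0, 0, 0]

/-- The whole pattern with base point `z`. -/
def pat (z : Site) : Set Site :=
  {x | ∃ i j : ℕ, ∃ r ∈ code (sym i j), x = cell z i j r}

/-- Largest coordinate of the rules. -/
def RR : ℤ := 262150

/-- The reduction of a site modulo `N`. -/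
def red (N : ℕ) (x : Site) : Fin 6 → ZMod N := fun i => (x i : ZMod N)

/-- Closed subsets of the torus. -/
def ClosedT (N : ℕ) (G : Set (Fin 6 → ZMod N)) : Prop :=
  ∀ x : Fin 6 → ZMod N, ∀ X ∈ U, (∀ y ∈ X, x + red N y ∈ G) → x ∈ G

/-- `A` percolates on the torus. -/
def Perc (N : ℕ) (A : Set (Fin 6 → ZMod N)) : Prop :=
  ∀ G : Set (Fin 6 → ZMod N), A ⊆ G → ClosedT N G → G = Set.univ

end Pool.Agent.R952.BP
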