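import Mathlib
import Pool.Agent.R952.BP.Defs

/-!
Pascal's triangle modulo 2: counting the odd entries, and the recursion of the pattern.
-/

set_option autoImplicit false

namespace Pool.Agent.R952.BP

open Finset

namespace PascalAux

/-- the parity of the entry -/
def g (i j : ℕ) : ℕ := (i + j).choose i % 2

lemma g_lt (i j : ℕ) : g i j < 2 := Nat.mod_lt _ (by norm_num)

lemma lucas (n k : ℕ) : n.choose k % 2 = (n % 2).choose (k % 2) * (n / 2).choose (k / 2) % 2 := by
  haveI : Fact (Nat.Prime 2) := ⟨Nat.prime_two⟩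
  exact Choose.choose_modEq_choose_mod_mul_choose_div_nat

lemma g00 (a b : ℕ) : g (2 * a) (2 * b) = g a b := by
  unfold g
  rw [lucas]
  have h1 : (2 * a + 2 * b) % 2 = 0 := by omega
  have h2 : (2 * a) % 2 = 0 := by omega
  have h3 : (2 * a + 2 * b) / 2 = a + b := by omega
  have h4 : (2 * a) / 2 = a := by omega
  rw [h1, h2, h3, h4]; simp

lemma g10 (a b : ℕ) : g (2 * a + 1) (2 * b) = g a b := by
  unfold g
  rw [lucas]
  have h1 : (2 * a + 1 + 2 * b) % 2 = 1 := by omega
  have h2 : (2 * a + 1) % 2 = 1 := by omega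
  have h3 : (2 * a + 1 + 2 * b) / 2 = a + b := by omega
  have h4 : (2 * a + 1) / 2 = a := by omega
  rw [h1, h2, h3, h4]; simp

lemma g01 (a b : ℕ) : g (2 * a) (2 * b + 1) = g a b := by
  unfold g
  rw [lucas]
  have h1 : (2 * a + (2 * b + 1)) % 2 = 1 := by omega
  have h2 : (2 * a) % 2 = 0 := by omega
  have h3 : (2 * a + (2 * b + 1)) / 2 = a + b := by omega
  have h4 : (2 * a) / 2 = a := by omega
  rw [h1, h2, h3, h4]; simp

lemma g11 (a b : ℕ) : g (2 * a + 1) (2 * b + 1) = 0 := by
  unfold g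
  rw [lucas]
  have h1 : (2 * a + 1 + (2 * b + 1)) % 2 = 0 := by omega
  have h2 : (2 * a + 1) % 2 = 1 := by omega
  rw [h1, h2]; simp

lemma sum_two_mul (f : ℕ → ℕ) (n : ℕ) :
    ∑ i ∈ range (2 * n), f i = ∑ i ∈ range n, (f (2 * i) + f (2 * i + 1)) := by
  induction n with
  | zero => simp
  | succ n ih =>
    rw [show 2 * (n + 1) = 2 * n + 1 + 1 by ring, sum_range_succ, sum_range_succ, ih,
      sum_range_succ]
    ring

lemma sum_g (k : ℕ) : ∑ i ∈ range (2 ^ k), ∑ j ∈ range (2 ^ k), g i j = 3 ^ k := by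
  induction k with
  | zero => simp [g]
  | succ k ih =>
    rw [pow_succ, mul_comm (2 ^ k) 2, sum_two_mul]
    have h : ∀ i ∈ range (2 ^ k), (∑ j ∈ range (2 * 2 ^ k), g (2 * i) j +
        ∑ j ∈ range (2 * 2 ^ k), g (2 * i + 1) j) = 3 * ∑ j ∈ range (2 ^ k), g i j := by
      intro i _
      rw [sum_two_mul, sum_two_mul, ← sum_add_distrib, mul_sum]
      refine sum_congr rfl fun j _ => ?_
      rw [g00, g01, g10, g11]; ring
    rw [sum_congr rfl h, ← mul_sum, ih]
    ring

lemma g_eq_ite (i j : ℕ) : g i j = if (i + j).choose i % 2 = 1 then 1 else 0 := by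
  have := g_lt i j
  unfold g at *
  split_ifs with h
  · exact h
  · omega

lemma sym_eq_o (i j : ℕ) (h : sym i j = .o) : (i + j).choose i % 2 = 1 := by
  match i, j with
  | 0, 0 => simp [sym] at h
  | i + 1, 0 => simp [sym] at h
  | 0, j + 1 => simp [sym] at h
  | i + 1, j + 1 =>
    rw [sym] at h
    have h2 : i + 1 + (j + 1) = i + j + 2 := by ring
    rw [h2]
    by_contra h3
    rw [if_neg h3] at h
    cases h

lemma val_right (i j : ℕ) : val (sym i (j + 1)) = decide ((i + j + 1).choose i % 2 = 1) := by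
  match i with
  | 0 => simp [sym, val]
  | i + 1 =>
    rw [sym]
    have h2 : i + 1 + j + 1 = i + j + 2 := by ring
    rw [h2]
    by_cases h : (i + j + 2).choose (i + 1) % 2 = 1
    · rw [if_pos h]; simp [val, h]
    · rw [if_neg h]; simp [val, h]

lemma val_left (i j : ℕ) :
    val (sym (i + 1) j) = decide ((i + j + 1).choose (i + 1) % 2 = 1) := by
  match j with
  | 0 => simp [sym, val]
  | j + 1 =>
    rw [sym]
    have h2 : i + (j + 1) + 1 = i + j + 2 := by ring
    rw [h2]
    by_cases h : (i + j + 2).choose (i + 1) % 2 = 1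
    · rw [if_pos h]; simp [val, h]
    · rw [if_neg h]; simp [val, h]

end PascalAux

open PascalAux

theorem ones_card (k : ℕ) : ((range (2 ^ k) ×ˢ range (2 ^ k)).filter
    (fun q => (q.1 + q.2).choose q.1 % 2 = 1)).card = 3 ^ k := by
  rw [card_filter, sum_product, ← sum_g k]
  refine sum_congr rfl fun i _ => sum_congr rfl fun j _ => ?_
  rw [g_eq_ite]

theorem sym_one_le (k : ℕ) : ((range (2 ^ k) ×ˢ range (2 ^ k)).filter
    (fun q => sym q.1 q.2 = .o)).card ≤ 3 ^ k := by
  rw [← ones_card k]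
  refine card_le_card fun q hq => ?_
  rw [mem_filter] at hq ⊢
  exact ⟨hq.1, sym_eq_o _ _ hq.2⟩

theorem sym_one_ge (k : ℕ) (hk : 3 ≤ k) : 3 ^ k ≤ 3 * ((range (2 ^ k) ×ˢ range (2 ^ k)).filter
    (fun q => sym q.1 q.2 = .o)).card := by
  have h1 : 3 ^ k ≤ ((range (2 ^ k) ×ˢ range (2 ^ k)).filter
      (fun q => sym q.1 q.2 = .o)).card + 2 ^ k + 2 ^ k := by
    have h2 : (range (2 ^ k) ×ˢ range (2 ^ k)).filter
        (fun q => (q.1 + q.2).choose q.1 % 2 = 1) ⊆
        ((range (2 ^ k) ×ˢ range (2 ^ k)).filter (fun q => sym q.1 q.2 = .o) ∪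
          (range (2 ^ k)).image (fun i => (i, 0))) ∪
          (range (2 ^ k)).image (fun j => (0, j)) := by
      intro q hq
      obtain ⟨i, j⟩ := q
      rw [mem_filter, mem_product] at hq
      simp only at hq
      rw [mem_union, mem_union, mem_filter, mem_product, mem_image, mem_image]
      match i, j, hq with
      | i, 0, hq => exact Or.inl (Or.inr ⟨i, hq.1.1, rfl⟩)
      | 0, j, hq => exact Or.inr ⟨j, hq.1.2, rfl⟩
      | i + 1, j + 1, hq =>
        refine Or.inl (Or.inl ⟨hq.1, ?_⟩)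
        show sym (i + 1) (j + 1) = .o
        rw [sym]
        have h2 : i + 1 + (j + 1) = i + j + 2 := by ring
        have h3 := hq.2
        rw [h2] at h3
        rw [if_pos h3]
    have h3 := card_le_card h2
    rw [ones_card] at h3
    have h4 := card_union_le ((range (2 ^ k) ×ˢ range (2 ^ k)).filter (fun q => sym q.1 q.2 = .o) ∪
          (range (2 ^ k)).image (fun i => (i, 0))) ((range (2 ^ k)).image (fun j => (0, j)))
    have h5 := card_union_le ((range (2 ^ k) ×ˢ range (2 ^ k)).filter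
      (fun q => sym q.1 q.2 = .o)) ((range (2 ^ k)).image (fun i => (i, 0)))
    have h6 : ((range (2 ^ k)).image (fun i => (i, 0))).card ≤ 2 ^ k :=
      card_image_le.trans (by simp)
    have h7 : ((range (2 ^ k)).image (fun j => (0, j))).card ≤ 2 ^ k :=
      card_image_le.trans (by simp)
    omega
  have h2 : 6 * 2 ^ k ≤ 2 * 3 ^ k := by
    induction k, hk using Nat.le_induction with
    | base => norm_num
    | succ n hn ih =>
      rw [pow_succ, pow_succ]
      have h3 : 6 * 2 ^ n ≤ 2 * 3 ^ n := by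
        clear ih h1
        induction n, hn using Nat.le_induction with
        | base => norm_num
        | succ m hm ih2 => rw [pow_succ, pow_succ]; omega
      omega
  omega

theorem sym_rec (i j : ℕ) : sym (i + 1) (j + 1) = xo (sym i (j + 1)) (sym (i + 1) j) := by
  unfold xo
  rw [val_right, val_left, sym]
  have h1 : (i + j + 2).choose (i + 1) = (i + j + 1).choose i + (i + j + 1).choose (i + 1) :=
    Nat.choose_succ_succ (i + j + 1) i
  rw [h1]
  have h2 := Nat.mod_two_eq_zero_or_one ((i + j + 1).choose i)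
  have h3 := Nat.mod_two_eq_zero_or_one ((i + j + 1).choose (i + 1))
  rcases h2 with h2 | h2 <;> rcases h3 with h3 | h3 <;> simp [Nat.add_mod, h2, h3]

end Pool.Agent.R952.BP
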