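import Pool.Agent.R952.BP.Facts
import Pool.Agent.R952.BP.Pascal

/-!
# The closed set of a slab without bad configurations (helper952, for MP_c8529a_pr / S19636)
-/

set_option autoImplicit false
set_option linter.constructorNameAsVariable false

namespace Pool.Agent.R952.BP

open Finset

attribute [local irreducible] U

section cell
variable (z : Site) (i j r : ℤ)
@[simp] theorem cell_0 : cell z i j r 0 = z 0 + i := rfl
@[simp] theorem cell_1 : cell z i j r 1 = z 1 + j := rfl
@[simp] theorem cell_2 : cell z i j r 2 = z 2 + r := rfl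
@[simp] theorem cell_3 : cell z i j r 3 = z 3 := by show z 3 + 0 = z 3; simp
@[simp] theorem cell_4 : cell z i j r 4 = z 4 := by show z 4 + 0 = z 4; simp
@[simp] theorem cell_5 : cell z i j r 5 = z 5 := by show z 5 + 0 = z 5; simp
end cell

theorem site_ext {x y : Site} (h0 : x 0 = y 0) (h1 : x 1 = y 1) (h2 : x 2 = y 2) (h3 : x 3 = y 3)
    (h4 : x 4 = y 4) (h5 : x 5 = y 5) : x = y := by
  funext j
  fin_cases j
  · exact h0
  · exact h1
  · exact h2
  · exact h3
  · exact h4
  · exact h5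

/-- the pattern, in coordinates -/
theorem mem_pat {z x : Site} (hx : x ∈ pat z) : ∃ i j : ℕ, ∃ r ∈ code (sym i j),
    x 0 = z 0 + i ∧ x 1 = z 1 + j ∧ x 2 = z 2 + r ∧ x 3 = z 3 ∧ x 4 = z 4 ∧ x 5 = z 5 := by
  obtain ⟨i, j, r, hr, rfl⟩ := hx
  exact ⟨i, j, r, hr, by simp, by simp, by simp, by simp, by simp, by simp⟩

theorem mem_pat' {z x : Site} {i j : ℕ} {r : ℤ} (hr : r ∈ code (sym i j)) (h0 : x 0 = z 0 + i)
    (h1 : x 1 = z 1 + j) (h2 : x 2 = z 2 + r) (h3 : x 3 = z 3) (h4 : x 4 = z 4)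
    (h5 : x 5 = z 5) : x ∈ pat z :=
  ⟨i, j, r, hr, site_ext (by simpa using h0) (by simpa using h1) (by simpa using h2)
    (by simpa using h3) (by simpa using h4) (by simpa using h5)⟩

/-- the pattern of `z` comes near `x` -/
def nearpat (W : Finset Site) (x z : Site) : Prop :=
  z 5 = 0 ∧ nuc (W : Set Site) z ∧ ∃ q ∈ pat z, nearD 262144 x q

theorem nearpat_unique {W : Finset Site} (h4 : ¬ F4 W) {x z z' : Site} (h : nearpat W x z)
    (h' : nearpat W x z') : z = z' := by
  by_contra hne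
  apply h4
  obtain ⟨h5, hn, q, hq, hqx⟩ := h
  obtain ⟨h5', hn', q', hq', hqx'⟩ := h'
  obtain ⟨i, j, r, hr, e0, e1, e2, e3, e4, e5⟩ := mem_pat hq
  obtain ⟨i', j', r', hr', e0', e1', e2', e3', e4', e5'⟩ := mem_pat hq'
  have hb := code_bound _ r hr
  have hb' := code_bound _ r' hr'
  have a2 := abs_le.1 (hqx 2)
  have a3 := abs_le.1 (hqx 3)
  have a4 := abs_le.1 (hqx 4)
  have b2 := abs_le.1 (hqx' 2)
  have b3 := abs_le.1 (hqx' 3)
  have b4 := abs_le.1 (hqx' 4)
  refine ⟨z, z', h5, h5', hne, hn, hn', ?_, ?_, ?_⟩ <;> unfold RD RR <;> rw [abs_le] <;>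
    constructor <;> omega

/-- a site of the closed set in the slab -/
theorem slab_mem {W : Finset Site} {y : Site} (hy : y ∈ Fset 5 W) (h0 : 0 ≤ y 5) (h1 : y 5 < HH) :
    y ∈ W ∨ ∃ z : Site, z 5 = 0 ∧ nuc (W : Set Site) z ∧ y ∈ pat z := by
  rcases hy with h | h | h | h
  · omega
  · omega
  · exact Or.inl h
  · exact Or.inr h.2

/-- four sites of a rule in the set give `F1` -/
theorem four_F1 {W X V : Finset Site} {x : Site} (hX : X ∈ U) (hV : V ⊆ X) (h4 : V.card = 4)
    (h : ∀ y ∈ V, x + y ∈ W) : F1 W := by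
  classical
  refine ⟨V.image (fun y => x + y), ?_, ?_, ?_⟩
  · intro y hy
    obtain ⟨v, hv, rfl⟩ := Finset.mem_image.1 hy
    exact h v hv
  · rw [Finset.card_image_of_injective _ (add_right_injective x)]
    exact h4
  · intro a ha b hb j
    obtain ⟨v, hv, rfl⟩ := Finset.mem_image.1 ha
    obtain ⟨v', hv', rfl⟩ := Finset.mem_image.1 hb
    have h1 := abs_le.1 (rule_bound hX (hV hv) j)
    have h2 := abs_le.1 (rule_bound hX (hV hv') j)
    show |(x j + v j) - (x j + v' j)| ≤ RD
    unfold RD RR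
    rw [abs_le]
    constructor <;> omega

theorem near_of_rule {X : Finset Site} (hX : X ∈ U) {x y : Site} (hy : y ∈ X) :
    nearD 262144 x (x + y) := by
  intro j
  have h1 := abs_le.1 (rule_bound hX hy j)
  show |x j - (x j + y j)| ≤ 262144
  rw [abs_le]
  constructor <;> omega

/-- a rule cannot have four sites in a layer of the slab off every plane -/
theorem no_four {W X : Finset Site} {x : Site} (hX : X ∈ U) (h1 : ¬ F1 W) (h4 : ¬ F4 W) (w : ℤ)
    (hw0 : 0 ≤ x 5 + w) (hw1 : x 5 + w < HH) (hx : ∀ y ∈ X, x + y ∈ Fset 5 W)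
    (hV : ∀ c : ℤ, ∃ V : Finset Site, V ⊆ X ∧ V.card = 4 ∧ ∀ y ∈ V, y 5 = w ∧ y 4 ≠ c) :
    False := by
  have key : ∀ y ∈ X, y 5 = w → x + y ∈ W ∨ ∃ z, nearpat W x z ∧ x + y ∈ pat z := by
    intro y hy hyw
    have h5 : (x + y) 5 = x 5 + w := by show x 5 + y 5 = _; rw [hyw]
    rcases slab_mem (hx y hy) (by rw [h5]; exact hw0) (by rw [h5]; exact hw1) with h | ⟨z, hz5, hn, hz⟩
    · exact Or.inl h
    · exact Or.inr ⟨z, ⟨hz5, hn, x + y, hz, near_of_rule hX hy⟩, hz⟩
  by_cases hz : ∃ z, nearpat W x z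
  · obtain ⟨z, hz⟩ := hz
    obtain ⟨V, hVX, hV4, hV⟩ := hV (z 4 - x 4)
    apply h1
    apply four_F1 (x := x) hX hVX hV4
    intro y hy
    rcases key y (hVX hy) (hV y hy).1 with h | ⟨z', hz', hz'p⟩
    · exact h
    · exfalso
      have := nearpat_unique h4 hz hz'
      subst this
      obtain ⟨i, j, r, hr, e0, e1, e2, e3, e4, e5⟩ := mem_pat hz'p
      have : x 4 + y 4 = z 4 := e4
      exact (hV y hy).2 (by omega)
  · obtain ⟨V, hVX, hV4, hV⟩ := hV 0
    apply h1
    apply four_F1 (x := x) hX hVX hV4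
    intro y hy
    rcases key y (hVX hy) (hV y hy).1 with h | ⟨z', hz', _⟩
    · exact h
    · exact absurd ⟨z', hz'⟩ hz

/-- decoding of a column -/
theorem decode {W X : Finset Site} {x : Site} (hX : X ∈ U) (h1 : ¬ F1 W) (h2 : ¬ F2 W)
    (h4 : ¬ F4 W) (hx : ∀ y ∈ X, x + y ∈ Fset 5 W) (c : Sym) (w : Site) (hw5 : w 5 = 0)
    (hw : ∀ r ∈ code c, ∃ y ∈ X, x + y = cell w 0 0 r) :
    ∃ z, nearpat W x z ∧ ∃ i j : ℕ, sym i j = c ∧ w = cell z i j 0 := by
  classical
  have hHH : (0 : ℤ) < HH := by unfold HH RR; norm_num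
  have key : ∀ r ∈ code c, cell w 0 0 r ∈ W ∨ ∃ z, nearpat W x z ∧ cell w 0 0 r ∈ pat z := by
    intro r hr
    obtain ⟨y, hy, hyw⟩ := hw r hr
    have hm := hx y hy
    rw [hyw] at hm
    rcases slab_mem hm (by rw [cell_5, hw5]) (by rw [cell_5, hw5]; exact hHH) with h | ⟨z, hz5, hn, hz⟩
    · exact Or.inl h
    · refine Or.inr ⟨z, ⟨hz5, hn, cell w 0 0 r, hz, ?_⟩, hz⟩
      rw [← hyw]
      exact near_of_rule hX hy
  have hnear : ∀ r ∈ code c, nearD 262144 x (cell w 0 0 r) := by
    intro r hr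
    obtain ⟨y, hy, hyw⟩ := hw r hr
    rw [← hyw]
    exact near_of_rule hX hy
  have hinj : ∀ r r' : ℤ, cell w 0 0 r = cell w 0 0 r' → r = r' := by
    intro r r' h
    have := congrFun h 2
    simp only [cell_2] at this
    omega
  -- a pattern is near
  have hz : ∃ z, nearpat W x z := by
    by_contra hno
    have hall : ∀ r ∈ code c, cell w 0 0 r ∈ W := by
      intro r hr
      rcases key r hr with h | ⟨z, hz, _⟩
      · exact h
      · exact absurd ⟨z, hz⟩ hno
    by_cases hc : c = .s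
    · subst hc
      apply hno
      refine ⟨w, hw5, hall, cell w 0 0 1, ?_, hnear 1 (by decide)⟩
      exact ⟨0, 0, 1, by decide, by simp⟩
    · apply h1
      refine ⟨(code c).image (fun r => cell w 0 0 r), ?_, ?_, ?_⟩
      · intro y hy
        obtain ⟨r, hr, rfl⟩ := Finset.mem_image.1 hy
        exact hall r hr
      · rw [Finset.card_image_of_injective _ (fun r r' h => hinj r r' h)]
        exact code_four c hc
      · intro a ha b hb j
        obtain ⟨r, hr, rfl⟩ := Finset.mem_image.1 ha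
        obtain ⟨r', hr', rfl⟩ := Finset.mem_image.1 hb
        have a1 := abs_le.1 (hnear r hr j)
        have a2 := abs_le.1 (hnear r' hr' j)
        unfold RD RR
        rw [abs_le]
        constructor <;> omega
  obtain ⟨z, hz⟩ := hz
  refine ⟨z, hz, ?_⟩
  have key2 : ∀ r ∈ code c, cell w 0 0 r ∈ pat z ∨ (cell w 0 0 r ∈ W ∧ cell w 0 0 r ∉ pat z) := by
    intro r hr
    by_cases hp : cell w 0 0 r ∈ pat z
    · exact Or.inl hp
    · rcases key r hr with h | ⟨z', hz', hp'⟩
      · exact Or.inr ⟨h, hp⟩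
      · exact absurd (by rw [nearpat_unique h4 hz hz']; exact hp') hp
  -- at most one stray
  have hstray : ∀ r ∈ code c, ∀ r' ∈ code c, cell w 0 0 r ∉ pat z → cell w 0 0 r' ∉ pat z →
      r = r' := by
    intro r hr r' hr' hp hp'
    by_contra hne
    apply h2
    obtain ⟨hz5, hn, q, hq, hqx⟩ := hz
    have b1 : cell w 0 0 r ∈ W := by
      rcases key2 r hr with h | h
      · exact absurd h hp
      · exact h.1
    have b2 : cell w 0 0 r' ∈ W := by
      rcases key2 r' hr' with h | h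
      · exact absurd h hp'
      · exact h.1
    refine ⟨z, hz5, hn, q, hq, _, b1, _, b2, fun h => hne (hinj _ _ h), hp, hp', ?_, ?_⟩
    · intro j
      have a1 := abs_le.1 (hnear r hr j)
      have a2 := abs_le.1 (hqx j)
      unfold RD RR
      rw [abs_le]
      constructor <;> omega
    · intro j
      have a1 := abs_le.1 (hnear r' hr' j)
      have a2 := abs_le.1 (hqx j)
      unfold RD RR
      rw [abs_le]
      constructor <;> omega
  -- two sites of the column in the pattern
  obtain ⟨r, hr, r', hr', hne, hp, hp'⟩ : ∃ r ∈ code c, ∃ r' ∈ code c, r ≠ r' ∧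
      cell w 0 0 r ∈ pat z ∧ cell w 0 0 r' ∈ pat z := by
    have hcard : 2 ≤ ((code c).filter (fun r => cell w 0 0 r ∈ pat z)).card := by
      have h3 := code_three c
      have hle : ((code c).filter (fun r => ¬ cell w 0 0 r ∈ pat z)).card ≤ 1 := by
        rw [Finset.card_le_one]
        intro a ha b hb
        rw [Finset.mem_filter] at ha hb
        exact hstray a ha.1 b hb.1 ha.2 hb.2
      have := Finset.card_filter_add_card_filter_not (s := code c)
        (fun r => cell w 0 0 r ∈ pat z)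
      omega
    obtain ⟨r, hr, r', hr', hne⟩ := Finset.one_lt_card.1 (lt_of_lt_of_le one_lt_two hcard)
    rw [Finset.mem_filter] at hr hr'
    exact ⟨r, hr.1, r', hr'.1, hne, hr.2, hr'.2⟩
  obtain ⟨i, j, q, hq, e0, e1, e2, e3, e4, e5⟩ := mem_pat hp
  obtain ⟨i', j', q', hq', e0', e1', e2', e3', e4', e5'⟩ := mem_pat hp'
  simp only [cell_0, cell_1, cell_2, cell_3, cell_4, cell_5, add_zero] at e0 e1 e2 e3 e4 e5 e0' e1' e2'
  have hii : i' = i := by omega
  have hjj : j' = j := by omega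
  subst hii hjj
  obtain ⟨hcs, hrq⟩ := sidon c (sym i' j') r hr r' hr' q hq q' hq' hne (by omega)
  refine ⟨i', j', hcs.symm, site_ext ?_ ?_ ?_ ?_ ?_ ?_⟩ <;>
    simp only [cell_0, cell_1, cell_2, cell_3, cell_4, cell_5, add_zero] <;> omega

theorem mem_col {u0 u1 k : ℤ} {c : Sym} {r : ℤ} (hr : r ∈ code c) :
    (![u0, u1, r - k, 0, 0, 0] : Site) ∈ col u0 u1 k c :=
  Finset.mem_image.2 ⟨r, hr, rfl⟩

theorem add_col (x : Site) (u0 u1 k r : ℤ) :
    x + (![u0, u1, r - k, 0, 0, 0] : Site) = cell (x + ![u0, u1, -k, 0, 0, 0]) 0 0 r := by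
  apply site_ext
  · show x 0 + u0 = x 0 + u0 + 0
    ring
  · show x 1 + u1 = x 1 + u1 + 0
    ring
  · show x 2 + (r - k) = x 2 + -k + r
    ring
  · show x 3 + 0 = x 3 + 0 + 0
    ring
  · show x 4 + 0 = x 4 + 0 + 0
    ring
  · show x 5 + 0 = x 5 + 0 + 0
    ring

/-- the left (or lower) column of a pattern rule -/
theorem decode_col {W X : Finset Site} {x : Site} (hX : X ∈ U) (h1 : ¬ F1 W) (h2 : ¬ F2 W)
    (h4 : ¬ F4 W) (hx : ∀ y ∈ X, x + y ∈ Fset 5 W) (hx5 : x 5 = 0) (c : Sym) (u0 u1 k : ℤ)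
    (hcol : col u0 u1 k c ⊆ X) :
    ∃ z, nearpat W x z ∧ ∃ i j : ℕ, sym i j = c ∧ x 0 + u0 = z 0 + i ∧ x 1 + u1 = z 1 + j ∧
      x 2 = z 2 + k ∧ x 3 = z 3 ∧ x 4 = z 4 ∧ x 5 = z 5 := by
  obtain ⟨z, hz, i, j, hs, hw⟩ := decode hX h1 h2 h4 hx c (x + ![u0, u1, -k, 0, 0, 0])
    (by show x 5 + 0 = 0; rw [hx5]; rfl) (fun r hr => ⟨_, hcol (mem_col hr), add_col x u0 u1 k r⟩)
  have e0 : x 0 + u0 = z 0 + i := by have := congrFun hw 0; rw [cell_0] at this; exact this
  have e1 : x 1 + u1 = z 1 + j := by have := congrFun hw 1; rw [cell_1] at this; exact this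
  have e2 : x 2 + -k = z 2 + 0 := by have := congrFun hw 2; rw [cell_2] at this; exact this
  have e3 : x 3 + 0 = z 3 := by have := congrFun hw 3; rw [cell_3] at this; exact this
  have e4 : x 4 + 0 = z 4 := by have := congrFun hw 4; rw [cell_4] at this; exact this
  have e5 : x 5 + 0 = z 5 := by have := congrFun hw 5; rw [cell_5] at this; exact this
  exact ⟨z, hz, i, j, hs, e0, e1, by omega, by omega, by omega, by omega⟩

theorem sym_sa {i j : ℕ} (h : sym i j = .s ∨ sym i j = .a) : j = 0 := by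
  cases j with
  | zero => rfl
  | succ j =>
    exfalso
    cases i with
    | zero => simp [sym] at h
    | succ i =>
      simp only [sym] at h
      split_ifs at h <;> simp at h

theorem sym_sb {i j : ℕ} (h : sym i j = .s ∨ sym i j = .b) : i = 0 := by
  cases i with
  | zero => rfl
  | succ i =>
    exfalso
    cases j with
    | zero => simp [sym] at h
    | succ j =>
      simp only [sym] at h
      split_ifs at h <;> simp at h

theorem closed_slab (i : Fin 6) (W : Finset Site) (hB : ¬ Bad i W) : Closed (Fset i W) := by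
  classical
  intro x X hX hx
  have h1 : ¬ F1 W := fun h => hB (Or.inl h)
  by_cases hl : x i < 0
  · exact Or.inl hl
  by_cases hr : HH ≤ x i
  · exact Or.inr (Or.inl hr)
  by_cases hi : i = 5
  swap
  · exfalso
    obtain ⟨V, hVX, hV4, hV⟩ := zero_sites hX i hi
    apply h1
    apply four_F1 (x := x) hX hVX hV4
    intro y hy
    have hxy : (x + y) i = x i := by show x i + y i = x i; rw [hV y hy]; ring
    rcases hx y (hVX hy) with h | h | h | h
    · rw [hxy] at h; exact absurd h hl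
    · rw [hxy] at h; exact absurd h hr
    · exact h
    · exact absurd h.1 hi
  subst hi
  have h2 : ¬ F2 W := fun h => hB (Or.inr ⟨rfl, Or.inl h⟩)
  have h3 : ¬ F3 W := fun h => hB (Or.inr ⟨rfl, Or.inr (Or.inl h)⟩)
  have h4 : ¬ F4 W := fun h => hB (Or.inr ⟨rfl, Or.inr (Or.inr h)⟩)
  have hx5 : ∀ V' : Finset Site, X = supp0 ∪ V' → x 5 = 0 := by
    intro V' hXV
    by_contra hne
    apply no_four hX h1 h4 (-1) (by omega) (by omega) hx
    intro c
    obtain ⟨V, hV, h4', h⟩ := supp0_sites c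
    refine ⟨V, ?_, h4', h⟩
    rw [hXV]
    exact hV.trans Finset.subset_union_left
  have hpat : ∀ z : Site, nearpat W x z → x ∈ pat z → x ∈ Fset 5 W := by
    intro z hz hxz
    exact Or.inr (Or.inr (Or.inr ⟨rfl, z, hz.1, hz.2.1, hxz⟩))
  rcases mem_U hX with hXU | hXU | hXU | hXU | hXU
  · exfalso
    obtain ⟨i, l, t, t', e, v, hli, hXe⟩ := hXU
    apply no_four hX h1 h4 0 (by omega) (by omega) hx
    intro c
    rw [hXe]
    exact zero_sites5 i l t t' e v hli c
  · obtain ⟨c, hc, k, hk, hXe⟩ := hXU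
    have h5 := hx5 _ hXe
    obtain ⟨z, hz, i, j, hs, e0, e1, e2, e3, e4, e5⟩ := decode_col hX h1 h2 h4 hx h5 c (-1) 0 k
      (by rw [hXe]; exact Finset.subset_union_right)
    have hj : j = 0 := by
      apply sym_sa (i := i)
      rw [hs]
      simpa using hc
    subst hj
    apply hpat z hz
    apply mem_pat' (i := i + 1) (j := 0) (r := k) (by simpa [sym] using hk) <;> push_cast <;> omega
  · obtain ⟨c, hc, k, hk, hXe⟩ := hXU
    have h5 := hx5 _ hXe
    obtain ⟨z, hz, i, j, hs, e0, e1, e2, e3, e4, e5⟩ := decode_col hX h1 h2 h4 hx h5 c 0 (-1) k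
      (by rw [hXe]; exact Finset.subset_union_right)
    have hi : i = 0 := by
      apply sym_sb (j := j)
      rw [hs]
      simpa using hc
    subst hi
    apply hpat z hz
    apply mem_pat' (i := 0) (j := j + 1) (r := k) (by simpa [sym] using hk) <;> push_cast <;> omega
  · obtain ⟨c, hc, c', hc', k, hk, hXe⟩ := hXU
    have h5 := hx5 _ hXe
    obtain ⟨z, hz, i, j, hs, e0, e1, e2, e3, e4, e5⟩ := decode_col hX h1 h2 h4 hx h5 c (-1) 0 k
      (by rw [hXe]; exact Finset.subset_union_left.trans Finset.subset_union_right)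
    obtain ⟨z', hz', i', j', hs', f0, f1, f2, f3, f4, f5⟩ := decode_col hX h1 h2 h4 hx h5 c' 0 (-1) k
      (by rw [hXe]; exact Finset.subset_union_right.trans Finset.subset_union_right)
    have hzz := nearpat_unique h4 hz hz'
    subst hzz
    have hi : i' = i + 1 := by omega
    have hj : j = j' + 1 := by omega
    subst hi hj
    apply hpat z hz
    apply mem_pat' (i := i + 1) (j := j' + 1) (r := k) (by rw [sym_rec, hs, hs']; exact hk) <;>
      push_cast <;> omega
  · exfalso
    obtain ⟨v, hv, hXe⟩ := hXU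
    have h5 := hx5 _ hXe
    have hv5 := (vbox_bound hv).1
    obtain ⟨z, hz, i, j, hs, hw⟩ := decode hX h1 h2 h4 hx .o (x - v)
      (by show x 5 - v 5 = 0; rw [h5, hv5]; rfl) (by
        intro r hr
        refine ⟨(![0, 0, r, 0, 0, 0] : Site) - v, ?_, ?_⟩
        · rw [hXe]
          apply Finset.mem_union_right
          apply Finset.mem_union_left
          exact Finset.mem_image.2 ⟨r, hr, rfl⟩
        · unfold cell
          abel)
    have htX : (![0, 0, 0, 1, 0, 0] : Site) - v ∈ X := by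
      rw [hXe]
      apply Finset.mem_union_right
      apply Finset.mem_union_right
      exact Finset.mem_singleton_self _
    have htr : x + ((![0, 0, 0, 1, 0, 0] : Site) - v) = trg z i j := by
      unfold trg
      rw [← hw]
      abel
    have htF := hx _ htX
    rw [htr] at htF
    have ht5 : trg z i j 5 = 0 := by
      show cell z i j 0 5 + 0 = 0
      rw [cell_5, hz.1]; rfl
    have hHH : (0 : ℤ) < HH := by unfold HH RR; norm_num
    rcases slab_mem htF (by rw [ht5]) (by rw [ht5]; exact hHH) with h | ⟨z', hz5', hn', hp'⟩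
    · exact h3 ⟨z, hz.1, hz.2.1, i, j, hs, h⟩
    · have hnp : nearpat W x z' := by
        refine ⟨hz5', hn', _, hp', ?_⟩
        rw [← htr]
        exact near_of_rule hX htX
      have hzz := nearpat_unique h4 hz hnp
      subst hzz
      obtain ⟨i', j', q, hq, e0, e1, e2, e3, e4, e5⟩ := mem_pat hp'
      have : trg z i j 3 = z 3 + 1 := by
        show cell z i j 0 3 + 1 = _
        rw [cell_3]
      omega

end Pool.Agent.R952.BP
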