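import Pool.Agent.R952.BP.AL
import Pool.Agent.R952.BP.Slab

/-!
# A percolating set has bad slabs (helper444, for MP_c8529a_pr / S19636)
-/

set_option autoImplicit false

namespace Pool.Agent.R952.BP

open Finset Pool.Agent.Helper91.BP

attribute [local irreducible] U

theorem Cross_red_add (N : ℕ) (x y : Site) : red N (x + y) = red N x + red N y := by
  funext j
  simp [red]

/-- points of a pattern lie in the layer of the base point -/
theorem Cross_pat5 {z x : Site} (h : x ∈ pat z) : x 5 = z 5 := by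
  obtain ⟨i, j, r, -, rfl⟩ := h
  simp [cell]

theorem Cross_near_trans {D E : ℤ} {x y z : Site} (h1 : nearD D x y) (h2 : nearD E y z) :
    nearD (D + E) x z := by
  intro j
  have := abs_sub_le (x j) (y j) (z j)
  have a := h1 j
  have b := h2 j
  omega

theorem Cross_near_symm {D : ℤ} {x y : Site} (h1 : nearD D x y) : nearD D y x := by
  intro j
  rw [abs_sub_comm]
  exact h1 j

theorem Cross_near_mono {D E : ℤ} (h : D ≤ E) {x y : Site} (h1 : nearD D x y) : nearD E x y :=
  fun j => (h1 j).trans h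

theorem Cross_near_refl {D : ℤ} (h : 0 ≤ D) (x : Site) : nearD D x x := by
  intro j; simpa using h

/-- a connected set crossing a slab has four points near each other inside the slab. -/
theorem Cross_four {C : Finset Site} (hC : conn C) (i : Fin 6) (hlo : ∃ x ∈ C, x i < 0)
    (hhi : ∃ x ∈ C, HH ≤ x i) :
    ∃ V : Finset Site, V ⊆ C ∧ V.card = 4 ∧ (∀ x ∈ V, 1 ≤ x i ∧ x i < HH) ∧
      ∀ x ∈ V, ∀ y ∈ V, nearD RD x y := by
  obtain ⟨p, hpC, hp⟩ := hlo
  obtain ⟨q, hqC, hq⟩ := hhi
  have hRR : (0:ℤ) < RR := by norm_num [RR]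
  have hHH : HH = 7 * RR := rfl
  have hRD : RD = 8 * RR := rfl
  obtain ⟨u, hu, v, hv, huD, hvD, huv⟩ := hC {x | x i ≤ 3 * RR} ⟨p, hpC, by
    show p i ≤ 3 * RR; omega⟩ ⟨q, hqC, by
    show ¬ q i ≤ 3 * RR; omega⟩
  have hu3 : u i ≤ 3 * RR := huD
  have hv3 : 3 * RR < v i := not_le.1 hvD
  have huvi := abs_le.1 (huv i)
  obtain ⟨a, ha, w, hw, haD, hwD, haw⟩ := hC {x | x = u ∨ x = v} ⟨u, hu, Or.inl rfl⟩ ⟨q, hqC, by
    rintro (h | h)
    · rw [h] at hq; omega
    · rw [h] at hq; omega⟩
  have hawi := abs_le.1 (haw i)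
  have hwi : RR < w i ∧ w i ≤ 5 * RR := by
    rcases haD with h | h
    · rw [h] at hawi; omega
    · rw [h] at hawi; omega
  have hwu : w ≠ u := fun h => hwD (Or.inl h)
  have hwv : w ≠ v := fun h => hwD (Or.inr h)
  have hne : u ≠ v := by
    intro h
    rw [h] at hu3
    omega
  have nuw : nearD (2 * RR) u w := by
    rcases haD with h | h
    · rw [h] at haw; exact Cross_near_mono (by omega) haw
    · rw [h] at haw
      exact Cross_near_mono (by omega) (Cross_near_trans huv haw)
  have nvw : nearD (2 * RR) v w := by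
    rcases haD with h | h
    · rw [h] at haw
      exact Cross_near_mono (by omega) (Cross_near_trans (Cross_near_symm huv) haw)
    · rw [h] at haw; exact Cross_near_mono (by omega) haw
  obtain ⟨b, hb, w', hw', hbD, hwD', hbw⟩ := hC {x | x = u ∨ x = v ∨ x = w} ⟨u, hu, Or.inl rfl⟩
    ⟨q, hqC, by
    rintro (h | h | h)
    · rw [h] at hq; omega
    · rw [h] at hq; omega
    · rw [h] at hq; omega⟩
  have hbwi := abs_le.1 (hbw i)
  have hwi' : 0 < w' i ∧ w' i ≤ 6 * RR := by
    rcases hbD with h | h | h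
    · rw [h] at hbwi; omega
    · rw [h] at hbwi; omega
    · rw [h] at hbwi; omega
  have hwu' : w' ≠ u := fun h => hwD' (Or.inl h)
  have hwv' : w' ≠ v := fun h => hwD' (Or.inr (Or.inl h))
  have hww' : w' ≠ w := fun h => hwD' (Or.inr (Or.inr h))
  have key : ∀ x, (x = u ∨ x = v ∨ x = w) → nearD (3 * RR) x w' := by
    intro x hx
    have h1 : nearD (2 * RR) x b := by
      have r0 : nearD (2 * RR) u u := Cross_near_refl (by omega) _
      have r1 : nearD (2 * RR) v v := Cross_near_refl (by omega) _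
      have r2 : nearD (2 * RR) w w := Cross_near_refl (by omega) _
      have huv2 : nearD (2 * RR) u v := Cross_near_mono (by omega) huv
      rcases hx with rfl | rfl | rfl <;> rcases hbD with rfl | rfl | rfl
      · exact r0
      · exact huv2
      · exact nuw
      · exact Cross_near_symm huv2
      · exact r1
      · exact nvw
      · exact Cross_near_symm nuw
      · exact Cross_near_symm nvw
      · exact r2
    exact Cross_near_mono (by omega) (Cross_near_trans h1 hbw)
  refine ⟨{u, v, w, w'}, ?_, ?_, ?_, ?_⟩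
  · intro x hx
    simp only [mem_insert, mem_singleton] at hx
    rcases hx with rfl | rfl | rfl | rfl <;> assumption
  · rw [card_insert_of_notMem, card_insert_of_notMem, card_insert_of_notMem, card_singleton]
    · simpa using hww'.symm
    · simp only [mem_insert, mem_singleton, not_or]
      exact ⟨hwv.symm, hwv'.symm⟩
    · simp only [mem_insert, mem_singleton, not_or]
      exact ⟨hne, hwu.symm, hwu'.symm⟩
  · intro x hx
    simp only [mem_insert, mem_singleton] at hx
    rcases hx with rfl | rfl | rfl | rfl <;> omega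
  · have k1 := key u (Or.inl rfl)
    have k2 := key v (Or.inr (Or.inl rfl))
    have k3 := key w (Or.inr (Or.inr rfl))
    intro x hx y hy
    simp only [mem_insert, mem_singleton] at hx hy
    rcases hx with rfl | rfl | rfl | rfl <;> rcases hy with rfl | rfl | rfl | rfl <;>
      first
      | exact Cross_near_refl (by omega) _
      | exact Cross_near_mono (by omega) huv
      | exact Cross_near_mono (by omega) (Cross_near_symm huv)
      | exact Cross_near_mono (by omega) nuw
      | exact Cross_near_mono (by omega) (Cross_near_symm nuw)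
      | exact Cross_near_mono (by omega) nvw
      | exact Cross_near_mono (by omega) (Cross_near_symm nvw)
      | exact Cross_near_mono (by omega) k1
      | exact Cross_near_mono (by omega) (Cross_near_symm k1)
      | exact Cross_near_mono (by omega) k2
      | exact Cross_near_mono (by omega) (Cross_near_symm k2)
      | exact Cross_near_mono (by omega) k3
      | exact Cross_near_mono (by omega) (Cross_near_symm k3)

theorem Cross_main (hcs : ∀ (i : Fin 6) (W : Finset Site), ¬ Bad i W → Closed (Fset i W))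
    {N : ℕ} [NeZero N] (A : Finset (Fin 6 → ZMod N)) (hperc : Perc N (A : Set (Fin 6 → ZMod N)))
    (s : ℤ) (hs : 4 * HH ≤ s) (K : ℕ) (hK : ((K : ℤ) + 1) * HH ≤ s) :
    ∃ (c : Fin 6 → ZMod N) (i : Fin 6), ∀ j : ℕ, j < K →
      Bad i (loc N A s i (c + red N (Pi.single i (((j : ℤ) + 1) * HH)))) := by
  classical
  have hRR : (0:ℤ) < RR := by norm_num [RR]
  have hHH : HH = 7 * RR := rfl
  obtain ⟨C, hCne, hconn, hIS, hin, hout⟩ := AL (A : Set (Fin 6 → ZMod N)) hperc s (by omega)
  -- the corner
  have hmin : ∀ j : Fin 6, ∃ m : ℤ, (∃ x ∈ C, x j = m) ∧ ∀ x ∈ C, m ≤ x j := by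
    intro j
    obtain ⟨x, hx, hxm⟩ := C.exists_min_image (fun x => x j) hCne
    exact ⟨x j, ⟨x, hx, rfl⟩, hxm⟩
  choose c0 hc0a hc0b using hmin
  have hub : ∀ x ∈ C, ∀ j, x j < c0 j + 3 * s := by
    obtain ⟨c, hc⟩ := hin
    intro x hx j
    obtain ⟨y, hy, hyj⟩ := hc0a j
    have h1 := (hc y hy j).1
    have h2 := (hc x hx j).2
    omega
  obtain ⟨i, x1, hx1, hx1i⟩ : ∃ i : Fin 6, ∃ x ∈ C, c0 i + s ≤ x i := by
    by_contra hcon
    push Not at hcon
    exact hout ⟨c0, fun x hx j => ⟨hc0b j x hx, hcon j x hx⟩⟩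
  refine ⟨red N c0, i, fun j hj => ?_⟩
  set e : Site := Pi.single i (((j : ℤ) + 1) * HH) with he
  have hei : e i = ((j : ℤ) + 1) * HH := by rw [he]; simp
  have hel : ∀ l, l ≠ i → e l = 0 := by intro l hl; rw [he]; simp [hl]
  set c' : Site := c0 + e with hc'
  rw [← Cross_red_add, ← hc']
  set W := loc N A s i (red N c') with hW
  have hjK : ((j : ℤ) + 1) * HH ≤ K * HH := by
    refine mul_le_mul_of_nonneg_right ?_ (by omega)
    exact_mod_cast hj
  have hj0 : HH ≤ ((j : ℤ) + 1) * HH := by
    have : (0:ℤ) ≤ (j : ℤ) * HH := mul_nonneg (by positivity) (by omega)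
    linarith
  have hKe : ((K : ℤ) + 1) * HH = K * HH + HH := by ring
  by_contra hbad
  have hcl := hcs i W hbad
  -- the translated set
  have hmemW : ∀ x : Site, x + c' ∈ C → red N (x + c') ∈ A → 0 ≤ x i → x i < HH → x ∈ W := by
    intro x hx hxA h0 h1
    rw [hW, loc, mem_filter]
    refine ⟨?_, ?_⟩
    · rw [BB, Fintype.mem_piFinset]
      intro l
      by_cases hl : l = i
      · rw [if_pos hl, mem_Ico, hl]
        exact ⟨h0, h1⟩
      · rw [if_neg hl, mem_Ico]
        have h2 := hc0b l _ hx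
        have h3 := hub _ hx l
        simp only [hc', Pi.add_apply, hel l hl] at h2 h3
        omega
    · rw [← Cross_red_add, add_comm]
      exact hxA
  have hD : ∀ x ∈ C, x - c' ∈ Fset i W := by
    refine hIS {x | x - c' ∈ Fset i W} ?_ ?_
    · intro x hx hxA
      show x - c' ∈ Fset i W
      by_cases h0 : (x - c') i < 0
      · exact Or.inl h0
      by_cases h1 : HH ≤ (x - c') i
      · exact Or.inr (Or.inl h1)
      refine Or.inr (Or.inr (Or.inl ?_))
      refine hmemW _ (by rwa [sub_add_cancel]) (by rw [sub_add_cancel]; exact hxA) (by omega)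
        (by omega)
    · intro x hx X hX hy
      show x - c' ∈ Fset i W
      refine hcl _ X hX fun y hyX => ?_
      have := (hy y hyX).2
      have h2 : x - c' + y = x + y - c' := by abel
      rw [h2]
      exact this
  have hin2 : ∀ x ∈ C, 1 ≤ (x - c') i → (x - c') i < HH → x - c' ∈ W := by
    intro x hx h1 h2
    rcases hD x hx with h | h | h | ⟨hi, z, hz, -, hp⟩
    · omega
    · omega
    · exact h
    · have := Cross_pat5 hp
      rw [hi] at h1
      omega
  -- the translated set is connected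
  have hconn' : conn (C.image (fun x => x - c')) := by
    intro D h1 h2
    obtain ⟨x, hx, hxD⟩ := h1
    obtain ⟨y, hy, hyD⟩ := h2
    rw [mem_image] at hx hy
    obtain ⟨x', hx', rfl⟩ := hx
    obtain ⟨y', hy', rfl⟩ := hy
    obtain ⟨u, hu, v, hv, huD, hvD, huv⟩ := hconn {x | x - c' ∈ D} ⟨x', hx', hxD⟩ ⟨y', hy', hyD⟩
    refine ⟨u - c', mem_image_of_mem _ hu, v - c', mem_image_of_mem _ hv, huD, hvD, ?_⟩
    intro l
    have := huv l
    simp only [Pi.sub_apply]
    rwa [sub_sub_sub_cancel_right]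
  obtain ⟨V, hVC, hV4, hVi, hVn⟩ := Cross_four hconn' i (by
    obtain ⟨x, hx, hxi⟩ := hc0a i
    refine ⟨x - c', mem_image_of_mem _ hx, ?_⟩
    simp only [hc', Pi.sub_apply, Pi.add_apply, hei]
    omega) (by
    refine ⟨x1 - c', mem_image_of_mem _ hx1, ?_⟩
    simp only [hc', Pi.sub_apply, Pi.add_apply, hei]
    omega)
  apply hbad
  refine Or.inl ⟨V, ?_, hV4, hVn⟩
  intro x hx
  have h1 := hVC hx
  rw [mem_image] at h1
  obtain ⟨x', hx', rfl⟩ := h1
  have h2 := hVi _ hx
  exact hin2 x' hx' h2.1 h2.2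

theorem det_low {N : ℕ} [NeZero N] (A : Finset (Fin 6 → ZMod N)) (hperc : Perc N (A : Set _))
    (s : ℤ) (hs : 4 * HH ≤ s) (K : ℕ) (hK : ((K : ℤ) + 1) * HH ≤ s) :
    ∃ (c : Fin 6 → ZMod N) (i : Fin 6), ∀ j : ℕ, j < K →
      Bad i (loc N A s i (c + red N (Pi.single i (((j : ℤ) + 1) * HH)))) :=
  Cross_main closed_slab A hperc s hs K hK

end Pool.Agent.R952.BP
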