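import Pool.Agent.R952.BP.Defs
import Pool.Agent.Helper91.BP.Pr

/-!
# Definitions for the two bounds (helper952, for MP_c8529a_pr / S19636)
-/

set_option autoImplicit false

namespace Pool.Agent.R952.BP

open Finset

/-- nearness of two sites -/
def nearD (D : ℤ) (x y : Site) : Prop := ∀ j, |x j - y j| ≤ D

/-- connectedness (with steps of length at most `RR`), in terms of cuts -/
def conn (C : Finset Site) : Prop :=
  ∀ D : Set Site, (∃ x ∈ C, x ∈ D) → (∃ x ∈ C, x ∉ D) →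
    ∃ u ∈ C, ∃ v ∈ C, u ∈ D ∧ v ∉ D ∧ nearD RR u v

/-- `C` is internally spanned by `A` -/
def IS (A : Set Site) (C : Finset Site) : Prop :=
  ∀ D : Set Site, (∀ x ∈ C, x ∈ A → x ∈ D) →
    (∀ x ∈ C, ∀ X ∈ U, (∀ y ∈ X, x + y ∈ C ∧ x + y ∈ D) → x ∈ D) → ∀ x ∈ C, x ∈ D

/-- `C` is contained in a cube of side `s` -/
def inbox (C : Finset Site) (s : ℤ) : Prop :=
  ∃ c : Site, ∀ x ∈ C, ∀ j, c j ≤ x j ∧ x j < c j + s

/-- thickness of the slabs -/
def HH : ℤ := 7 * RR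

/-- radius of the exceptional configurations -/
def RD : ℤ := 8 * RR

/-- `z` is the base point of a nucleus of `W` -/
def nuc (W : Set Site) (z : Site) : Prop := ∀ r ∈ code .s, cell z 0 0 r ∈ W

/-- the trigger site of the cell `(i,j)` -/
def trg (z : Site) (i j : ℤ) : Site := cell z i j 0 + ![0, 0, 0, 1, 0, 0]

/-- four sites near each other -/
def F1 (W : Finset Site) : Prop := ∃ V ⊆ W, V.card = 4 ∧ ∀ x ∈ V, ∀ y ∈ V, nearD RD x y

/-- two additional sites near a pattern -/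
def F2 (W : Finset Site) : Prop :=
  ∃ z : Site, z 5 = 0 ∧ nuc W z ∧ ∃ q ∈ pat z, ∃ a ∈ W, ∃ b ∈ W, a ≠ b ∧ a ∉ pat z ∧ b ∉ pat z ∧
    nearD RD a q ∧ nearD RD b q

/-- a nucleus with a trigger -/
def F3 (W : Finset Site) : Prop :=
  ∃ z : Site, z 5 = 0 ∧ nuc W z ∧ ∃ i j : ℕ, sym i j = .o ∧ trg z i j ∈ W

/-- two nuclei in nearby planes -/
def F4 (W : Finset Site) : Prop :=
  ∃ z z' : Site, z 5 = 0 ∧ z' 5 = 0 ∧ z ≠ z' ∧ nuc W z ∧ nuc W z' ∧
    |z 2 - z' 2| ≤ RD ∧ |z 3 - z' 3| ≤ RD ∧ |z 4 - z' 4| ≤ RD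

/-- the bad event for a slab -/
def Bad (i : Fin 6) (W : Finset Site) : Prop := F1 W ∨ (i = 5 ∧ (F2 W ∨ F3 W ∨ F4 W))

/-- the closed set -/
def Fset (i : Fin 6) (W : Finset Site) : Set Site :=
  {x | x i < 0 ∨ HH ≤ x i ∨ x ∈ W ∨ (i = 5 ∧ ∃ z : Site, z 5 = 0 ∧ nuc W z ∧ x ∈ pat z)}

/-- the part of a slab in a cube of side `3 s` -/
noncomputable def BB (s : ℤ) (i : Fin 6) : Finset Site :=
  Fintype.piFinset (fun j => if j = i then Finset.Ico 0 HH else Finset.Ico 0 (3 * s))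

/-- the sites of `A` in the slab with corner `c` -/
noncomputable def loc (N : ℕ) (A : Finset (Fin 6 → ZMod N)) (s : ℤ) (i : Fin 6)
    (c : Fin 6 → ZMod N) : Finset Site := by
  classical exact (BB s i).filter (fun x => c + red N x ∈ A)

/-- `G` contains the box with corners `a`, `b` -/
def BoxIn (G : Set Site) (a b : Site) : Prop := ∀ x : Site, (∀ j, a j ≤ x j ∧ x j ≤ b j) → x ∈ G

/-- every line of length `2 M` contains a `2 × ... × 2` box in every direction -/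
def lineOK (N M : ℕ) (A : Set (Fin 6 → ZMod N)) : Prop :=
  ∀ c : Fin 6 → ZMod N, ∀ i j : Fin 6, i ≠ j → ∃ t : ℕ, t < M ∧ ∀ v : Site, v i = 0 →
    (∀ l, 0 ≤ v l ∧ v l ≤ 1) → c + red N (v + Pi.single j (2 * (t : ℤ))) ∈ A

/-- the layer with corner `c` contains a nucleus and a trigger -/
def layerOK (N k : ℕ) (A : Set (Fin 6 → ZMod N)) (c : Fin 6 → ZMod N) : Prop :=
  ∃ z : Site, z 5 = 0 ∧ (∀ l, 0 ≤ z l) ∧ z 0 < 2 ^ k ∧ z 1 < 2 ^ k ∧ z 2 + 2 ^ 18 < 2 ^ (k + 1) ∧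
    z 3 < 2 ^ k ∧ z 4 < 2 ^ k ∧ (∀ r ∈ code .s, c + red N (cell z 0 0 r) ∈ A) ∧
    ∃ i j : ℕ, i < 2 ^ k ∧ j < 2 ^ k ∧ sym i j = .o ∧ c + red N (trg z i j) ∈ A

/-- the region on which `layerOK` depends -/
noncomputable def LR (N k : ℕ) (c : Fin 6 → ZMod N) : Finset (Fin 6 → ZMod N) := by
  classical exact (Fintype.piFinset (fun j : Fin 6 => if j = 5 then ({0} : Finset ℤ) else
    Finset.Icc 0 (2 ^ (k + 1)))).image (fun x => c + red N x)

/-- the region on which `Bad` depends -/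
noncomputable def BR (N : ℕ) (s : ℤ) (i : Fin 6) (c : Fin 6 → ZMod N) :
    Finset (Fin 6 → ZMod N) := by
  classical exact (BB s i).image (fun x => c + red N x)

end Pool.Agent.R952.BP
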