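import Pool.Agent.R952.BP.Defs2

/-!
# Definition of a good region (helper952, for MP_c8529a_pr / S19636)
-/

set_option autoImplicit false

namespace Pool.Agent.R952.BP

open Finset

/-- a seed along the diagonal at `c` and a nucleus with a trigger in each of the `2 M` layers
above the seed -/
def regionOK (N k M : ℕ) (A : Set (Fin 6 → ZMod N)) (c : Fin 6 → ZMod N) : Prop :=
  (∀ l : ℕ, l ≤ 2 ^ (k + 1) → ∀ v : Site, (∀ j, 0 ≤ v j ∧ v j ≤ 3) →
    c + red N (fun j => (l : ℤ) + v j) ∈ A) ∧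
  ∀ t : ℕ, t < 2 * M → layerOK N k A (c + red N (Pi.single 5 (2 ^ (k + 1) + 4 + (t : ℤ))))

end Pool.Agent.R952.BP
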