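import Pool.Agent.R952.BP.Defs2

/-!
# Growth of a cuboid layer by layer (subtask ST7 of helper952, for MP_c8529a_pr / S19636)
-/

set_option autoImplicit false

namespace Pool.Agent.R952.BP

open Finset Pool.Agent.Helper91.BP

set_option maxRecDepth 100000 in
theorem Grow_rule {G : Set Site} (hG : Closed G) {i l : Fin 6} (hl : l ≠ i) (t t' : Bool)
    (e v : Fin 6 → Bool) {x : Site} (h1 : ∀ y ∈ supp i t e, x + y ∈ G)
    (h2 : ∀ y ∈ quad i l t' v, x + y ∈ G) : x ∈ G := by
  refine hG x (supp i t e ∪ quad i l t' v) ?_ ?_
  · have h : supp i t e ∪ quad i l t' v ∈ QRules := by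
      unfold QRules
      exact mem_image.2 ⟨(i, t, e, l, t', v), mem_filter.2 ⟨mem_univ _, hl⟩, rfl⟩
    unfold U
    exact mem_union.2 (Or.inl h)
  · intro y hy
    rcases mem_union.1 hy with hy | hy
    · exact h1 y hy
    · exact h2 y hy

theorem Grow_supp {G : Set Site} {a b : Site} (hab : ∀ j, a j + 3 ≤ b j)
    (hB : BoxIn G a b) (i : Fin 6) {x : Site} (hxi : x i = b i + 1)
    (hx : ∀ j, j ≠ i → a j ≤ x j ∧ x j ≤ b j) :
    ∃ e : Fin 6 → Bool, ∀ y ∈ supp i true e, x + y ∈ G := by
  refine ⟨fun j => decide (x j + 2 ≤ b j), fun y hy => hB _ fun j => ?_⟩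
  rw [supp, Fintype.mem_piFinset] at hy
  have hj := hy j
  have hs : sg true = 1 := rfl
  have hs' : sg false = -1 := rfl
  have hb := hab j
  show a j ≤ x j + y j ∧ x j + y j ≤ b j
  by_cases hji : j = i
  · subst hji
    rw [if_pos rfl, mem_insert, mem_singleton, hs] at hj
    rcases hj with hj | hj <;> rw [hj] <;> constructor <;> omega
  · rw [if_neg hji, mem_insert, mem_insert, mem_singleton] at hj
    obtain ⟨h1, h2⟩ := hx j hji
    by_cases hd : x j + 2 ≤ b j
    · rw [decide_eq_true hd, hs] at hj
      rcases hj with hj | hj | hj <;> rw [hj] <;> constructor <;> omega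
    · rw [decide_eq_false hd, hs'] at hj
      rcases hj with hj | hj | hj <;> rw [hj] <;> constructor <;> omega

/-- the distance of a coordinate from the interval `[q, q + 1]` -/
def Grow_d (q x : ℤ) : ℕ := (x - (q + 1)).toNat + (q - x).toNat

theorem Grow_layer_aux {G : Set Site} (hG : Closed G) {a b : Site} (hab : ∀ j, a j + 3 ≤ b j)
    (hB : BoxIn G a b) (i : Fin 6) (q : Site) (hqi : q i = b i + 1)
    (hq : ∀ j, j ≠ i → a j ≤ q j ∧ q j + 1 ≤ b j)
    (hquad : ∀ x : Site, x i = q i → (∀ j, j ≠ i → q j ≤ x j ∧ x j ≤ q j + 1) → x ∈ G) :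
    ∀ (n : ℕ) (x : Site), x i = q i → (∀ j, j ≠ i → a j ≤ x j ∧ x j ≤ b j) →
      ∑ j ∈ univ.erase i, Grow_d (q j) (x j) = n → x ∈ G := by
  intro n
  induction n using Nat.strong_induction_on with
  | _ n ih =>
  intro x hxi hx hn
  by_cases hall : ∀ j, j ≠ i → q j ≤ x j ∧ x j ≤ q j + 1
  · exact hquad x hxi hall
  push Not at hall
  obtain ⟨l, hli, hl⟩ := hall
  obtain ⟨e, he⟩ := Grow_supp hab hB i (hxi.trans hqi) hx
  refine Grow_rule hG hli true (decide (x l < q l)) e (fun j => decide (x j ≤ q j)) he ?_
  intro y hy
  rw [quad, Fintype.mem_piFinset] at hy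
  -- the coordinates move towards the interval
  have hcoord : ∀ j, j ≠ i → (a j ≤ x j + y j ∧ x j + y j ≤ b j) ∧
      Grow_d (q j) (x j + y j) ≤ Grow_d (q j) (x j) ∧
      (j = l → Grow_d (q j) (x j + y j) < Grow_d (q j) (x j)) := by
    intro j hji
    have hj := hy j
    obtain ⟨h1, h2⟩ := hx j hji
    obtain ⟨h3, h4⟩ := hq j hji
    rw [if_neg hji] at hj
    by_cases hjl : j = l
    · subst hjl
      rw [if_pos rfl] at hj
      by_cases hlt : x j < q j
      · rw [decide_eq_true hlt, if_pos rfl, mem_insert, mem_singleton] at hj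
        unfold Grow_d
        rcases hj with hj | hj <;> rw [hj] <;> refine ⟨⟨?_, ?_⟩, ?_, fun _ => ?_⟩ <;> omega
      · have hgt := hl (not_lt.1 hlt)
        rw [decide_eq_false hlt, if_neg (by decide), mem_insert, mem_singleton] at hj
        unfold Grow_d
        rcases hj with hj | hj <;> rw [hj] <;> refine ⟨⟨?_, ?_⟩, ?_, fun _ => ?_⟩ <;> omega
    · rw [if_neg hjl] at hj
      refine ⟨?_, ?_, fun h => absurd h hjl⟩
      all_goals
        by_cases hle : x j ≤ q j
        · rw [decide_eq_true hle, if_pos rfl, mem_insert, mem_singleton] at hj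
          try unfold Grow_d
          rcases hj with hj | hj <;> rw [hj] <;> omega
        · rw [decide_eq_false hle, if_neg (by decide), mem_insert, mem_singleton] at hj
          try unfold Grow_d
          rcases hj with hj | hj <;> rw [hj] <;> omega
  have hyi : y i = 0 := by
    have h := hy i
    rw [if_pos rfl, mem_singleton] at h
    exact h
  refine ih _ ?_ (x + y) ?_ (fun j hji => (hcoord j hji).1) rfl
  · rw [← hn]
    refine sum_lt_sum (fun j hj => (hcoord j (ne_of_mem_erase hj)).2.1)
      ⟨l, mem_erase.2 ⟨hli, mem_univ l⟩, (hcoord l hli).2.2 rfl⟩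
  · show x i + y i = q i
    rw [hyi, add_zero, hxi]

theorem grow_layer {G : Set Site} (hG : Closed G) {a b : Site} (hab : ∀ j, a j + 3 ≤ b j)
    (hB : BoxIn G a b) (i : Fin 6) (q : Site) (hqi : q i = b i + 1)
    (hq : ∀ j, j ≠ i → a j ≤ q j ∧ q j + 1 ≤ b j)
    (hquad : ∀ x : Site, x i = q i → (∀ j, j ≠ i → q j ≤ x j ∧ x j ≤ q j + 1) → x ∈ G) :
    BoxIn G a (Function.update b i (b i + 1)) := by
  intro x hx
  by_cases hxi : x i ≤ b i
  · refine hB x fun j => ⟨(hx j).1, ?_⟩
    by_cases hji : j = i
    · rw [hji]; exact hxi
    · have h := (hx j).2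
      rwa [Function.update_of_ne hji] at h
  · refine Grow_layer_aux hG hab hB i q hqi hq hquad _ x ?_ ?_ rfl
    · have h := (hx i).2
      rw [Function.update_self] at h
      rw [hqi]
      omega
    · intro j hji
      have h := (hx j).2
      rw [Function.update_of_ne hji] at h
      exact ⟨(hx j).1, h⟩

theorem seed_grow {G : Set Site} (hG : Closed G) (c : Site) (m : ℕ)
    (hdiag : ∀ l : ℕ, l ≤ m → BoxIn G (fun j => c j + l) (fun j => c j + l + 3)) :
    BoxIn G c (fun j => c j + m + 3) := by
  induction m with
  | zero =>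
    intro x hx
    refine hdiag 0 le_rfl x fun j => ?_
    have h := hx j
    push_cast at h ⊢
    constructor <;> omega
  | succ m ih =>
    have hbox := ih fun l hl => hdiag l (hl.trans (Nat.le_succ m))
    have hd := hdiag (m + 1) le_rfl
    have key : ∀ S : Finset (Fin 6),
        BoxIn G c (fun j => if j ∈ S then c j + m + 4 else c j + m + 3) := by
      intro S
      induction S using Finset.induction_on with
      | empty =>
        intro x hx
        refine hbox x fun j => ?_
        have h : c j ≤ x j ∧ x j ≤ if j ∈ (∅ : Finset (Fin 6)) then c j + (m : ℤ) + 4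
          else c j + m + 3 := hx j
        rw [if_neg (notMem_empty j)] at h
        exact h
      | insert i S hi ihS =>
        have heq : (fun j => if j ∈ insert i S then c j + (m : ℤ) + 4 else c j + m + 3) =
            Function.update (fun j => if j ∈ S then c j + (m : ℤ) + 4 else c j + m + 3) i
              ((fun j => if j ∈ S then c j + (m : ℤ) + 4 else c j + m + 3) i + 1) := by
          funext j
          by_cases hji : j = i
          · subst hji
            rw [Function.update_self, if_pos (mem_insert_self _ _)]
            show _ = (if j ∈ S then c j + (m : ℤ) + 4 else c j + m + 3) + 1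
            rw [if_neg hi]
            ring
          · rw [Function.update_of_ne hji]
            by_cases hjS : j ∈ S
            · rw [if_pos hjS, if_pos (mem_insert_of_mem hjS)]
            · rw [if_neg hjS, if_neg (fun h => by
                rcases mem_insert.1 h with h | h
                · exact hji h
                · exact hjS h)]
        rw [heq]
        refine grow_layer hG ?_ ihS i (fun j => if j = i then c i + m + 4 else c j + m + 1) ?_ ?_ ?_
        · intro j
          show c j + 3 ≤ if j ∈ S then c j + (m : ℤ) + 4 else c j + m + 3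
          split_ifs <;> omega
        · show (if i = i then c i + (m : ℤ) + 4 else c i + m + 1) =
            (if i ∈ S then c i + (m : ℤ) + 4 else c i + m + 3) + 1
          rw [if_pos rfl, if_neg hi]
          ring
        · intro j hji
          show c j ≤ (if j = i then c i + (m : ℤ) + 4 else c j + m + 1) ∧
            (if j = i then c i + (m : ℤ) + 4 else c j + m + 1) + 1 ≤
              if j ∈ S then c j + (m : ℤ) + 4 else c j + m + 3
          rw [if_neg hji]
          split_ifs <;> constructor <;> omega
        · intro x hxi hx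
          refine hd x fun j => ?_
          have hxi' : x i = c i + (m : ℤ) + 4 := by
            have h : x i = if i = i then c i + (m : ℤ) + 4 else c i + m + 1 := hxi
            rwa [if_pos rfl] at h
          by_cases hji : j = i
          · subst hji
            rw [hxi']
            push_cast
            constructor <;> omega
          · have h : (if j = i then c i + (m : ℤ) + 4 else c j + m + 1) ≤ x j ∧
              x j ≤ (if j = i then c i + (m : ℤ) + 4 else c j + m + 1) + 1 := hx j hji
            rw [if_neg hji] at h
            push_cast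
            constructor <;> omega
    intro x hx
    refine key univ x fun j => ?_
    have h := hx j
    show c j ≤ x j ∧ x j ≤ if j ∈ univ then c j + (m : ℤ) + 4 else c j + m + 3
    rw [if_pos (mem_univ j)]
    push_cast at h
    constructor <;> omega

end Pool.Agent.R952.BP
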