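import Pool.Agent.R952.BP.Defs2
import Pool.Agent.R952.BP.Grow

/-!
# A long box fills the torus (piece ST9 of S19636, helper196)
-/

set_option autoImplicit false

namespace Pool.Agent.R952.BP

open Finset Pool.Agent.Helper91.BP

attribute [local irreducible] U

theorem Fill_red_add (N : ℕ) (x y : Site) : red N (x + y) = red N x + red N y := by
  funext l
  simp [red]

theorem Fill_closed {N : ℕ} {G : Set (Fin 6 → ZMod N)} (hG : ClosedT N G) :
    Closed {x : Site | red N x ∈ G} := by
  unfold Closed
  unfold ClosedT at hG
  intro x X hX h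
  have h2 : ∀ y ∈ X, red N x + red N y ∈ G := by
    intro y hy
    rw [← Fill_red_add]
    exact h y hy
  exact hG (red N x) X hX h2

theorem Fill_step {N : ℕ} {G : Set (Fin 6 → ZMod N)} (hG : ClosedT N G)
    {A : Set (Fin 6 → ZMod N)} (hA : A ⊆ G) (M : ℕ) (hl : lineOK N M A) (a b : Site)
    (hab : ∀ j, a j + 3 ≤ b j) (hB : BoxIn {x : Site | red N x ∈ G} a b) (i j : Fin 6)
    (hij : i ≠ j) (hj : a j + 2 * M ≤ b j) :
    BoxIn {x : Site | red N x ∈ G} a (Function.update b i (b i + 1)) := by
  obtain ⟨t, ht, hbox⟩ := hl (red N (Function.update a i (b i + 1))) i j hij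
  refine grow_layer (Fill_closed hG) hab hB i
    (Function.update a i (b i + 1) + Pi.single j (2 * (t : ℤ))) ?_ ?_ ?_
  · rw [Pi.add_apply, Function.update_self, Pi.single_eq_of_ne hij, add_zero]
  · intro l hl
    rw [Pi.add_apply, Function.update_of_ne hl]
    by_cases hlj : l = j
    · subst hlj
      rw [Pi.single_eq_same]
      omega
    · rw [Pi.single_eq_of_ne hlj]
      have := hab l
      omega
  · intro x hxi hx
    have h := hbox (x - (Function.update a i (b i + 1) + Pi.single j (2 * (t : ℤ)))) (by
      rw [Pi.sub_apply, hxi, sub_self]) (by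
      intro l
      rw [Pi.sub_apply]
      by_cases hli : l = i
      · rw [hli, hxi]; omega
      · have := hx l hli
        omega)
    rw [← Fill_red_add] at h
    have e : Function.update a i (b i + 1) +
        (x - (Function.update a i (b i + 1) + Pi.single j (2 * (t : ℤ))) +
          Pi.single j (2 * (t : ℤ))) = x := by
      abel
    rw [e] at h
    exact hA h

theorem Fill_raise {N : ℕ} {G : Set (Fin 6 → ZMod N)} (hG : ClosedT N G)
    {A : Set (Fin 6 → ZMod N)} (hA : A ⊆ G) (M : ℕ) (hl : lineOK N M A) (a b : Site)
    (hab : ∀ j, a j + 3 ≤ b j) (hB : BoxIn {x : Site | red N x ∈ G} a b) (i j : Fin 6)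
    (hij : i ≠ j) (hj : a j + 2 * M ≤ b j) (n : ℕ) :
    BoxIn {x : Site | red N x ∈ G} a (Function.update b i (b i + n)) := by
  induction n with
  | zero => simpa using hB
  | succ n ih =>
    have h := Fill_step hG hA M hl a (Function.update b i (b i + n)) (by
      intro l
      by_cases hli : l = i
      · subst hli
        rw [Function.update_self]
        have := hab l
        omega
      · rw [Function.update_of_ne hli]
        exact hab l) ih i j hij (by
      rw [Function.update_of_ne (Ne.symm hij)]
      exact hj)
    rw [Function.update_self, Function.update_idem] at h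
    have e : b i + ((n + 1 : ℕ) : ℤ) = b i + n + 1 := by push_cast; ring
    rw [e]
    exact h

theorem fill {N : ℕ} [NeZero N] {G : Set (Fin 6 → ZMod N)} (hG : ClosedT N G)
    {A : Set (Fin 6 → ZMod N)} (hA : A ⊆ G) (M : ℕ) (hl : lineOK N M A) (a b : Site)
    (hab : ∀ j, a j + 3 ≤ b j) (h5 : a 5 + 2 * M ≤ b 5)
    (hB : ∀ x : Site, (∀ j, a j ≤ x j ∧ x j ≤ b j) → red N x ∈ G) : G = Set.univ := by
  have key : ∀ m : ℕ, m ≤ 6 → BoxIn {x : Site | red N x ∈ G} a
      (fun l => if (l : ℕ) < m then b l + ((N + 2 * M : ℕ) : ℤ) else b l) := by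
    intro m
    induction m with
    | zero =>
      intro _
      have e : (fun l : Fin 6 => if (l : ℕ) < 0 then b l + ((N + 2 * M : ℕ) : ℤ) else b l) = b := by
        funext l
        simp
      rw [e]
      exact hB
    | succ m ih =>
      intro hm
      have ih' := ih (by omega)
      have hj : ∃ j : Fin 6, (⟨m, by omega⟩ : Fin 6) ≠ j ∧ a j + 2 * M ≤
          (if (j : ℕ) < m then b j + ((N + 2 * M : ℕ) : ℤ) else b j) := by
        by_cases h : m < 5
        · refine ⟨5, ?_, ?_⟩
          · intro h'
            have := congrArg Fin.val h'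
            simp at this
            omega
          · rw [if_neg]
            · exact h5
            · show ¬ (5 < m)
              omega
        · refine ⟨0, ?_, ?_⟩
          · intro h'
            have := congrArg Fin.val h'
            simp at this
            omega
          · rw [if_pos]
            · have := hab 0
              push_cast
              omega
            · show 0 < m
              omega
      obtain ⟨j, hij, hjb⟩ := hj
      have h := Fill_raise hG hA M hl a _ (by
        intro l
        have := hab l
        show a l + 3 ≤ (if (l : ℕ) < m then b l + ((N + 2 * M : ℕ) : ℤ) else b l)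
        split_ifs
        · push_cast; omega
        · exact this) ih' ⟨m, by omega⟩ j hij hjb (N + 2 * M)
      convert h using 1
      funext l
      by_cases hl : l = ⟨m, by omega⟩
      · subst hl
        simp
      · rw [Function.update_of_ne hl]
        have : (l : ℕ) ≠ m := fun h => hl (Fin.ext h)
        by_cases h2 : (l : ℕ) < m
        · rw [if_pos h2, if_pos (by omega)]
        · rw [if_neg h2, if_neg (by omega)]
  have h6 := key 6 le_rfl
  rw [Set.eq_univ_iff_forall]
  intro y
  have hx := h6 (fun l => a l + ((y l - (a l : ZMod N)).val : ℤ)) (by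
    intro l
    have h1 := ZMod.val_lt (y l - (a l : ZMod N))
    have h2 := hab l
    have h3 : ((l : Fin 6) : ℕ) < 6 := l.2
    show a l ≤ a l + ((y l - (a l : ZMod N)).val : ℤ) ∧ a l + ((y l - (a l : ZMod N)).val : ℤ) ≤
      (if (l : ℕ) < 6 then b l + ((N + 2 * M : ℕ) : ℤ) else b l)
    rw [if_pos h3]
    push_cast
    omega)
  have hx' : red N (fun l => a l + ((y l - (a l : ZMod N)).val : ℤ)) ∈ G := hx
  convert hx' using 1
  funext l
  simp [red]

end Pool.Agent.R952.BP
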