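import Pool.Agent.R952.BP.Defs2
import Pool.Agent.R952.BP.Grow
import Pool.Agent.R952.BP.Pascal

/-!
# A pattern with a trigger fills a layer (piece ST8 of S19636, helper196)
-/

set_option autoImplicit false

namespace Pool.Agent.R952.BP

open Finset Pool.Agent.Helper91.BP

set_option maxRecDepth 100000 in
theorem Trig_A {c : Sym} (hc : c = .s ∨ c = .a) {k : ℤ} (hk : k ∈ code .a) :
    supp0 ∪ col (-1) 0 k c ∈ U := by
  have h : supp0 ∪ col (-1) 0 k c ∈ ARules := by
    unfold ARules
    refine mem_image.2 ⟨(c, k), mem_product.2 ⟨?_, hk⟩, rfl⟩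
    rcases hc with rfl | rfl <;> simp
  unfold U
  exact mem_union.2 (Or.inr (mem_union.2 (Or.inl h)))

set_option maxRecDepth 100000 in
theorem Trig_B {c : Sym} (hc : c = .s ∨ c = .b) {k : ℤ} (hk : k ∈ code .b) :
    supp0 ∪ col 0 (-1) k c ∈ U := by
  have h : supp0 ∪ col 0 (-1) k c ∈ BRules := by
    unfold BRules
    refine mem_image.2 ⟨(c, k), mem_product.2 ⟨?_, hk⟩, rfl⟩
    rcases hc with rfl | rfl <;> simp
  unfold U
  exact mem_union.2 (Or.inr (mem_union.2 (Or.inr (mem_union.2 (Or.inl h)))))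

set_option maxRecDepth 100000 in
theorem Trig_I {c d : Sym} (hc : c = .b ∨ c = .z ∨ c = .o) (hd : d = .a ∨ d = .z ∨ d = .o)
    {k : ℤ} (hk : k ∈ code (xo c d)) :
    supp0 ∪ (col (-1) 0 k c ∪ col 0 (-1) k d) ∈ U := by
  have h : supp0 ∪ (col (-1) 0 k c ∪ col 0 (-1) k d) ∈ IRules := by
    unfold IRules
    refine mem_biUnion.2 ⟨(c, d), mem_product.2 ⟨?_, ?_⟩, mem_image.2 ⟨k, hk, rfl⟩⟩
    · rcases hc with rfl | rfl | rfl <;> simp
    · rcases hd with rfl | rfl | rfl <;> simp
  unfold U
  exact mem_union.2 (Or.inr (mem_union.2 (Or.inr (mem_union.2 (Or.inr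
    (mem_union.2 (Or.inl h)))))))

set_option maxRecDepth 100000 in
theorem Trig_T {v : Site} (hv : v ∈ vbox) :
    supp0 ∪ ((code .o).image (fun r => (![0, 0, r, 0, 0, 0] : Site) - v) ∪
    {(![0, 0, 0, 1, 0, 0] : Site) - v}) ∈ U := by
  have h : supp0 ∪ ((code .o).image (fun r => (![0, 0, r, 0, 0, 0] : Site) - v) ∪
    {(![0, 0, 0, 1, 0, 0] : Site) - v}) ∈ TRules := by
    unfold TRules
    exact mem_image.2 ⟨v, hv, rfl⟩
  unfold U
  exact mem_union.2 (Or.inr (mem_union.2 (Or.inr (mem_union.2 (Or.inr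
    (mem_union.2 (Or.inr h)))))))

attribute [local irreducible] U

theorem Trig_supp {G : Set Site} {a b : Site} (hB : BoxIn G a b) {x : Site} (hx5 : x 5 = b 5 + 1)
    (hx : ∀ l, l ≠ 5 → a l ≤ x l ∧ x l + 2 ≤ b l) (h5 : a 5 + 1 ≤ b 5) :
    ∀ y ∈ supp0, x + y ∈ G := by
  intro y hy
  unfold supp0 supp at hy
  rw [Fintype.mem_piFinset] at hy
  refine hB _ (fun l => ?_)
  have h := hy l
  rw [Pi.add_apply]
  by_cases hl : l = 5
  · subst hl
    rw [if_pos rfl] at h
    simp only [sg, if_true, mem_insert, mem_singleton] at h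
    omega
  · rw [if_neg hl] at h
    simp only [sg, if_true, mem_insert, mem_singleton] at h
    have := hx l hl
    omega

theorem Trig_code {c : Sym} {r : ℤ} (h : r ∈ code c) : 1 ≤ r ∧ r ≤ 2 ^ 18 := by
  cases c <;> simp only [code, mem_insert, mem_singleton] at h <;> omega

theorem Trig_cell (z : Site) (i j k u0 u1 r : ℤ) :
    cell z i j k + ![u0, u1, r - k, 0, 0, 0] = cell z (i + u0) (j + u1) r := by
  unfold cell
  funext l
  fin_cases l
  · show z 0 + i + u0 = z 0 + (i + u0); ring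
  · show z 1 + j + u1 = z 1 + (j + u1); ring
  · show z 2 + k + (r - k) = z 2 + r; ring
  · show z 3 + 0 + 0 = z 3 + 0; ring
  · show z 4 + 0 + 0 = z 4 + 0; ring
  · show z 5 + 0 + 0 = z 5 + 0; ring

theorem Trig_left (i j : ℕ) : sym i (j + 1) = .b ∨ sym i (j + 1) = .z ∨ sym i (j + 1) = .o := by
  cases i with
  | zero => left; simp [sym]
  | succ i => right; simp only [sym]; split_ifs <;> simp

theorem Trig_low (i j : ℕ) : sym (i + 1) j = .a ∨ sym (i + 1) j = .z ∨ sym (i + 1) j = .o := by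
  cases j with
  | zero => left; simp [sym]
  | succ i => right; simp only [sym]; split_ifs <;> simp

theorem Trig_cells {G : Set Site} (hG : Closed G) {a b : Site} (hab : ∀ j, a j + 3 ≤ b j)
    (hB : BoxIn G a b) (z : Site) (hz5 : z 5 = b 5 + 1) (hnuc : nuc G z) (i j : ℕ)
    (hlow : ∀ l, l ≠ 5 → a l ≤ z l)
    (h0 : z 0 + i + 3 ≤ b 0) (h1 : z 1 + j + 3 ≤ b 1) (h2 : z 2 + 2 ^ 18 + 2 ≤ b 2)
    (h3 : z 3 + 3 ≤ b 3) (h4 : z 4 + 4 ≤ b 4) :
    ∀ i' : ℕ, i' ≤ i → ∀ j' : ℕ, j' ≤ j → ∀ r ∈ code (sym i' j'), cell z i' j' r ∈ G := by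
  have hs : ∀ i' : ℕ, i' ≤ i → ∀ j' : ℕ, j' ≤ j → ∀ r : ℤ, 1 ≤ r ∧ r ≤ 2 ^ 18 →
      ∀ y ∈ supp0, cell z i' j' r + y ∈ G := by
    intro i' hi' j' hj' r hr
    refine Trig_supp hB ?_ ?_ (by have := hab 5; omega)
    · simp [cell, hz5]
    · intro l hl
      have hlow' := hlow l hl
      fin_cases l <;> simp [cell] at * <;> omega
  intro i'
  induction i' with
  | zero =>
    intro hi' j'
    induction j' with
    | zero =>
      intro _ r hr
      exact hnuc r hr
    | succ j' ih =>
      intro hj' k hk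
      have hk' : k ∈ code .b := by simpa [sym] using hk
      have hc : sym 0 j' = .s ∨ sym 0 j' = .b := by
        cases j' with
        | zero => left; simp [sym]
        | succ j' => right; simp [sym]
      refine hG _ _ (Trig_B hc hk') (fun y hy => ?_)
      rcases mem_union.1 hy with hy | hy
      · exact hs 0 hi' (j' + 1) hj' k (Trig_code hk) y hy
      · unfold col at hy
        obtain ⟨r, hr, rfl⟩ := mem_image.1 hy
        rw [Trig_cell]
        have := ih (by omega) r hr
        convert this using 2 <;> push_cast <;> ring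
  | succ i' ihi =>
    intro hi' j'
    induction j' with
    | zero =>
      intro hj' k hk
      have hk' : k ∈ code .a := by simpa [sym] using hk
      have hc : sym i' 0 = .s ∨ sym i' 0 = .a := by
        cases i' with
        | zero => left; simp [sym]
        | succ j' => right; simp [sym]
      refine hG _ _ (Trig_A hc hk') (fun y hy => ?_)
      rcases mem_union.1 hy with hy | hy
      · exact hs (i' + 1) hi' 0 hj' k (Trig_code hk) y hy
      · unfold col at hy
        obtain ⟨r, hr, rfl⟩ := mem_image.1 hy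
        rw [Trig_cell]
        have := ihi (by omega) 0 hj' r hr
        convert this using 2 <;> push_cast <;> ring
    | succ j' ihj =>
      intro hj' k hk
      have hk' : k ∈ code (xo (sym i' (j' + 1)) (sym (i' + 1) j')) := by
        rw [← sym_rec]; exact hk
      refine hG _ _ (Trig_I (Trig_left i' j') (Trig_low i' j') hk') (fun y hy => ?_)
      rcases mem_union.1 hy with hy | hy
      · exact hs (i' + 1) hi' (j' + 1) hj' k (Trig_code hk) y hy
      rcases mem_union.1 hy with hy | hy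
      · unfold col at hy
        obtain ⟨r, hr, rfl⟩ := mem_image.1 hy
        rw [Trig_cell]
        have := ihi (by omega) (j' + 1) hj' r hr
        convert this using 2 <;> push_cast <;> ring
      · unfold col at hy
        obtain ⟨r, hr, rfl⟩ := mem_image.1 hy
        rw [Trig_cell]
        have := ihj (by omega) r hr
        convert this using 2 <;> push_cast <;> ring

theorem layer_trig {G : Set Site} (hG : Closed G) {a b : Site} (hab : ∀ j, a j + 3 ≤ b j)
    (hB : BoxIn G a b) (z : Site) (hz5 : z 5 = b 5 + 1) (hnuc : nuc G z) (i j : ℕ)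
    (hij : sym i j = .o) (htr : trg z i j ∈ G) (hlow : ∀ l, l ≠ 5 → a l ≤ z l)
    (h0 : z 0 + i + 3 ≤ b 0) (h1 : z 1 + j + 3 ≤ b 1) (h2 : z 2 + 2 ^ 18 + 2 ≤ b 2)
    (h3 : z 3 + 3 ≤ b 3) (h4 : z 4 + 4 ≤ b 4) :
    BoxIn G a (Function.update b 5 (b 5 + 1)) := by
  have hcells := Trig_cells hG hab hB z hz5 hnuc i j hlow h0 h1 h2 h3 h4 i le_rfl j le_rfl
  rw [hij] at hcells
  have w0 : cell z i j 0 0 = z 0 + i := by simp [cell]
  have w1 : cell z i j 0 1 = z 1 + j := by simp [cell]
  have w2 : cell z i j 0 2 = z 2 := by simp [cell]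
  have w3 : cell z i j 0 3 = z 3 := by simp [cell]
  have w4 : cell z i j 0 4 = z 4 := by simp [cell]
  have w5 : cell z i j 0 5 = z 5 := by simp [cell]
  have l0 := hlow 0 (by decide)
  have l1 := hlow 1 (by decide)
  have l2 := hlow 2 (by decide)
  have l3 := hlow 3 (by decide)
  have l4 := hlow 4 (by decide)
  have h5' := hab 5
  -- the targets
  have htar : ∀ v ∈ vbox, cell z i j 0 + v ∈ G := by
    intro v hv
    refine hG _ _ (Trig_T hv) (fun y hy => ?_)
    have hv' := hv
    unfold vbox at hv'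
    rw [Fintype.mem_piFinset] at hv'
    have v0 := hv' 0
    have v1 := hv' 1
    have v2 := hv' 2
    have v3 := hv' 3
    have v4 := hv' 4
    have v5 := hv' 5
    rw [if_neg (by decide), if_neg (by decide), mem_insert, mem_singleton] at v0 v1 v2 v3
    rw [if_neg (by decide), if_pos rfl, mem_insert, mem_singleton] at v4
    rw [if_pos rfl, mem_singleton] at v5
    rcases mem_union.1 hy with hy | hy
    · refine Trig_supp hB ?_ ?_ (by omega) y hy
      · rw [Pi.add_apply, w5, v5, hz5, add_zero]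
      · intro l hl
        rw [Pi.add_apply]
        fin_cases l
        · show a 0 ≤ cell z i j 0 0 + v 0 ∧ cell z i j 0 0 + v 0 + 2 ≤ b 0
          omega
        · show a 1 ≤ cell z i j 0 1 + v 1 ∧ cell z i j 0 1 + v 1 + 2 ≤ b 1
          omega
        · show a 2 ≤ cell z i j 0 2 + v 2 ∧ cell z i j 0 2 + v 2 + 2 ≤ b 2
          omega
        · show a 3 ≤ cell z i j 0 3 + v 3 ∧ cell z i j 0 3 + v 3 + 2 ≤ b 3
          omega
        · show a 4 ≤ cell z i j 0 4 + v 4 ∧ cell z i j 0 4 + v 4 + 2 ≤ b 4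
          omega
        · exact absurd rfl hl
    rcases mem_union.1 hy with hy | hy
    · obtain ⟨r, hr, rfl⟩ := mem_image.1 hy
      have := hcells r hr
      convert this using 1
      unfold cell
      funext l
      fin_cases l
      · show z 0 + i + v 0 + (0 - v 0) = z 0 + i; ring
      · show z 1 + j + v 1 + (0 - v 1) = z 1 + j; ring
      · show z 2 + 0 + v 2 + (r - v 2) = z 2 + r; ring
      · show z 3 + 0 + v 3 + (0 - v 3) = z 3 + 0; ring
      · show z 4 + 0 + v 4 + (0 - v 4) = z 4 + 0; ring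
      · show z 5 + 0 + v 5 + (0 - v 5) = z 5 + 0; ring
    · rw [mem_singleton] at hy
      subst hy
      convert htr using 1
      unfold trg cell
      funext l
      fin_cases l
      · show z 0 + i + v 0 + (0 - v 0) = z 0 + i + 0; ring
      · show z 1 + j + v 1 + (0 - v 1) = z 1 + j + 0; ring
      · show z 2 + 0 + v 2 + (0 - v 2) = z 2 + 0 + 0; ring
      · show z 3 + 0 + v 3 + (1 - v 3) = z 3 + 0 + 1; ring
      · show z 4 + 0 + v 4 + (0 - v 4) = z 4 + 0 + 0; ring
      · show z 5 + 0 + v 5 + (0 - v 5) = z 5 + 0 + 0; ring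
  refine grow_layer hG hab hB 5 (cell z i j 0 + Pi.single 4 1) ?_ ?_ ?_
  · rw [Pi.add_apply, w5, hz5]; simp
  · intro l hl
    rw [Pi.add_apply]
    fin_cases l
    · show a 0 ≤ cell z i j 0 0 + (Pi.single 4 1 : Site) 0 ∧
        cell z i j 0 0 + (Pi.single 4 1 : Site) 0 + 1 ≤ b 0
      rw [Pi.single_eq_of_ne (by decide)]
      omega
    · show a 1 ≤ cell z i j 0 1 + (Pi.single 4 1 : Site) 1 ∧
        cell z i j 0 1 + (Pi.single 4 1 : Site) 1 + 1 ≤ b 1
      rw [Pi.single_eq_of_ne (by decide)]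
      omega
    · show a 2 ≤ cell z i j 0 2 + (Pi.single 4 1 : Site) 2 ∧
        cell z i j 0 2 + (Pi.single 4 1 : Site) 2 + 1 ≤ b 2
      rw [Pi.single_eq_of_ne (by decide)]
      omega
    · show a 3 ≤ cell z i j 0 3 + (Pi.single 4 1 : Site) 3 ∧
        cell z i j 0 3 + (Pi.single 4 1 : Site) 3 + 1 ≤ b 3
      rw [Pi.single_eq_of_ne (by decide)]
      omega
    · show a 4 ≤ cell z i j 0 4 + (Pi.single 4 1 : Site) 4 ∧
        cell z i j 0 4 + (Pi.single 4 1 : Site) 4 + 1 ≤ b 4
      rw [Pi.single_eq_same]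
      omega
    · exact absurd rfl hl
  · intro x hx5 hx
    have e : x = cell z i j 0 + (x - cell z i j 0) := by abel
    rw [e]
    refine htar _ ?_
    unfold vbox
    rw [Fintype.mem_piFinset]
    intro l
    rw [Pi.sub_apply]
    rw [Pi.add_apply, Pi.single_eq_of_ne (by decide), add_zero] at hx5
    by_cases hl : l = 5
    · subst hl
      rw [if_pos rfl, mem_singleton, hx5, sub_self]
    rw [if_neg hl]
    have h := hx l hl
    rw [Pi.add_apply] at h
    by_cases hl4 : l = 4
    · subst hl4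
      rw [Pi.single_eq_same] at h
      rw [if_pos rfl, mem_insert, mem_singleton]
      omega
    · rw [Pi.single_eq_of_ne hl4] at h
      rw [if_neg hl4, mem_insert, mem_singleton]
      omega

end Pool.Agent.R952.BP
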