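import Pool.Agent.R952.BP.Defs3
import Pool.Agent.R952.BP.Fill
import Pool.Agent.R952.BP.Grow
import Pool.Agent.R952.BP.Trig

/-!
# A good region and good lines fill the torus (helper850, for MP_c8529a_pr / S19636)
-/

set_option autoImplicit false

namespace Pool.Agent.R952.BP

open Finset Pool.Agent.Helper91.BP

attribute [local irreducible] U


theorem detUp_red_add (N : ℕ) (x y : Site) : red N (x + y) = red N x + red N y := by
  funext i
  simp [red]

theorem detUp_closed {N : ℕ} {G : Set (Fin 6 → ZMod N)} (hG : ClosedT N G) :
    Closed {x : Site | red N x ∈ G} := by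
  intro x X hX h
  refine hG (red N x) X hX fun y hy => ?_
  rw [← detUp_red_add]
  exact h y hy

theorem detUp_lift (N : ℕ) [NeZero N] (c : Fin 6 → ZMod N) :
    red N (fun j => ((c j).val : ℤ)) = c := by
  funext j
  simp [red]

theorem det_up {N : ℕ} [NeZero N] (A : Set (Fin 6 → ZMod N)) (k M : ℕ) (c : Fin 6 → ZMod N)
    (hr : regionOK N k M A c) (hl : lineOK N M A) : Perc N A := by
  intro G hAG hG
  set c' : Site := fun j => ((c j).val : ℤ) with hc'
  have hlift : red N c' = c := detUp_lift N c
  set G' : Set Site := {x : Site | red N x ∈ G} with hG'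
  have hcl : Closed G' := detUp_closed hG
  have hmem : ∀ x : Site, c + red N x ∈ A → c' + x ∈ G' := by
    intro x hx
    change red N (c' + x) ∈ G
    rw [detUp_red_add, hlift]
    exact hAG hx
  obtain ⟨hr1, hr2⟩ := hr
  have hseed := seed_grow hcl c' (2 ^ (k + 1)) (fun l hl x hx => by
    have h1 := hmem (fun j => (l : ℤ) + (x j - c' j - l)) (hr1 l hl (fun j => x j - c' j - l)
      (fun j => by have := hx j; constructor <;> linarith [this.1, this.2]))
    have h2 : c' + (fun j => (l : ℤ) + (x j - c' j - l)) = x := by
      funext j
      simp only [Pi.add_apply]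
      ring
    rwa [h2] at h1)
  set P : ℤ := 2 ^ k with hP
  have hPP : (2 : ℤ) ^ (k + 1) = 2 * P := by rw [pow_succ]; ring
  have hP1 : 1 ≤ P := one_le_pow₀ (by norm_num)
  have key : ∀ t : ℕ, t ≤ 2 * M →
      BoxIn G' c' (Function.update (fun j => c' j + 2 * P + 3) 5 (c' 5 + 2 * P + 3 + t)) := by
    intro t
    induction t with
    | zero =>
      intro _ x hx
      refine hseed x fun j => ?_
      have h := hx j
      by_cases hj : j = 5
      · subst hj
        rw [Function.update_self] at h
        push_cast at h ⊢
        rw [hPP]
        constructor <;> linarith [h.1, h.2]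
      · rw [Function.update_of_ne hj] at h
        push_cast
        rw [hPP]
        exact h
    | succ t ih =>
      intro ht
      have ih' := ih (by omega)
      obtain ⟨z, hz5, hz, hz0, hz1, hz2, hz3, hz4, hn, i, j, hi, hj, hij, htr⟩ := hr2 t (by omega)
      set s : Site := Pi.single 5 (2 ^ (k + 1) + 4 + (t : ℤ)) with hs
      have hs5 : s 5 = 2 * P + 4 + t := by rw [hs, Pi.single_eq_same, hPP]
      have hsl : ∀ l, l ≠ 5 → s l = 0 := fun l hl => by rw [hs, Pi.single_eq_of_ne hl]
      have hi' : (i : ℤ) < P := by rw [hP]; exact_mod_cast hi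
      have hj' : (j : ℤ) < P := by rw [hP]; exact_mod_cast hj
      set b : Site := Function.update (fun j => c' j + 2 * P + 3) 5 (c' 5 + 2 * P + 3 + t) with hb
      have hb5 : b 5 = c' 5 + 2 * P + 3 + t := by rw [hb, Function.update_self]
      have hbl : ∀ l, l ≠ 5 → b l = c' l + 2 * P + 3 := fun l hl => by
        rw [hb, Function.update_of_ne hl]
      have e1 : ∀ l, (c' + s + z) l = c' l + s l + z l := fun l => rfl
      have hstep := layer_trig (a := c') (b := b) hcl (fun l => by
          by_cases hl : l = 5
          · subst hl; rw [hb5]; have : (0 : ℤ) ≤ t := by positivity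
            linarith
          · rw [hbl l hl]; linarith) ih' (c' + s + z)
        (by rw [e1, hb5, hs5, hz5]; ring)
        (by
          intro r hr
          have h1 := hmem (s + cell z 0 0 r) (by rw [detUp_red_add, ← add_assoc]; exact hn r hr)
          have h2 : cell (c' + s + z) 0 0 r = c' + (s + cell z 0 0 r) := by
            simp only [cell]
            abel
          rw [h2]; exact h1)
        i j hij
        (by
          have h1 := hmem (s + trg z i j) (by rw [detUp_red_add, ← add_assoc]; exact htr)
          have h2 : trg (c' + s + z) i j = c' + (s + trg z i j) := by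
            simp only [trg, cell]
            abel
          rw [h2]; exact h1)
        (fun l hl => by rw [e1, hsl l hl]; linarith [hz l])
        (by rw [e1, hbl 0 (by decide), hsl 0 (by decide)]; linarith)
        (by rw [e1, hbl 1 (by decide), hsl 1 (by decide)]; linarith)
        (by rw [e1, hbl 2 (by decide), hsl 2 (by decide)]; rw [hPP] at hz2; linarith)
        (by rw [e1, hbl 3 (by decide), hsl 3 (by decide)]; linarith)
        (by rw [e1, hbl 4 (by decide), hsl 4 (by decide)]; linarith)
      have h3 : Function.update b 5 (b 5 + 1) =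
          Function.update (fun j => c' j + 2 * P + 3) 5 (c' 5 + 2 * P + 3 + ((t + 1 : ℕ) : ℤ)) := by
        rw [hb5, hb, Function.update_idem]
        have h5 : c' 5 + 2 * P + 3 + (t : ℤ) + 1 = c' 5 + 2 * P + 3 + ((t + 1 : ℕ) : ℤ) := by
          push_cast
          ring
        rw [h5]
      rw [← h3]
      exact hstep
  have hfin := key (2 * M) le_rfl
  refine fill hG hAG M hl c' _ (fun j => ?_) ?_ hfin
  · by_cases hj : j = 5
    · subst hj
      rw [Function.update_self]
      have : (0 : ℤ) ≤ ((2 * M : ℕ) : ℤ) := by positivity
      linarith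
    · rw [Function.update_of_ne hj]
      linarith
  · rw [Function.update_self]
    push_cast
    linarith

end Pool.Agent.R952.BP
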