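import Pool.Agent.R952.BP.Defs2

/-!
# Facts about the rules (helper952, for MP_c8529a_pr / S19636)
-/

set_option autoImplicit false
set_option linter.constructorNameAsVariable false

namespace Pool.Agent.R952.BP

open Finset

theorem sg_sq (t : Bool) : sg t = 1 ∨ sg t = -1 := by cases t <;> simp [sg]

/-- four sites of a product in a layer and off a plane -/
theorem four_sites (g : Fin 6 → Finset ℤ) (k m : Fin 6) (hkm : m ≠ k) (w : ℤ) (hw : w ∈ g k)
    (h : ∀ j, j ≠ k → 2 ≤ (g j).card) (c : ℤ) :
    ∃ V : Finset Site, V ⊆ Fintype.piFinset g ∧ V.card = 4 ∧ ∀ y ∈ V, y k = w ∧ y m ≠ c := by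
  classical
  -- restricted product
  let g' : Fin 6 → Finset ℤ := fun j => if j = k then {w} else if j = m then (g j).erase c else g j
  have hne : ∀ j, 1 ≤ (g' j).card := by
    intro j
    simp only [g']
    split_ifs with h1 h2
    · simp
    · have := h j h1
      have h3 := Finset.pred_card_le_card_erase (s := g j) (a := c)
      omega
    · have := h j h1
      omega
  obtain ⟨a, b, hab, hak, ham, hbk, hbm⟩ : ∃ a b : Fin 6, a ≠ b ∧ a ≠ k ∧ a ≠ m ∧ b ≠ k ∧ b ≠ m := by
    clear hw h hne g'
    revert k m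
    decide
  have hcard : 4 ≤ (Fintype.piFinset g').card := by
    rw [Fintype.card_piFinset]
    have h1 : ∏ j ∈ ({a, b} : Finset (Fin 6)), (g' j).card ≤ ∏ j, (g' j).card := by
      apply Finset.prod_le_prod_of_subset_of_one_le' (Finset.subset_univ _)
      intro j _ _
      exact hne j
    rw [Finset.prod_pair hab] at h1
    have ha : 2 ≤ (g' a).card := by
      simp only [g', if_neg hak, if_neg ham]
      exact h a hak
    have hb : 2 ≤ (g' b).card := by
      simp only [g', if_neg hbk, if_neg hbm]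
      exact h b hbk
    nlinarith
  obtain ⟨V, hV, hV4⟩ := Finset.exists_subset_card_eq hcard
  refine ⟨V, ?_, hV4, ?_⟩
  · intro y hy
    have := Fintype.mem_piFinset.1 (hV hy)
    rw [Fintype.mem_piFinset]
    intro j
    have hj := this j
    simp only [g'] at hj
    split_ifs at hj with h1 h2
    · rw [Finset.mem_singleton] at hj
      rw [hj, h1]; exact hw
    · exact Finset.mem_of_mem_erase hj
    · exact hj
  · intro y hy
    have := Fintype.mem_piFinset.1 (hV hy)
    constructor
    · have hj := this k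
      simpa [g'] using hj
    · have hj := this m
      simp only [g', if_neg hkm, if_true] at hj
      exact Finset.ne_of_mem_erase hj

/-- the product set of the support -/
theorem supp_card (i : Fin 6) (t : Bool) (e : Fin 6 → Bool) (j : Fin 6) :
    2 ≤ (if j = i then ({-(sg t), -(2 * sg t)} : Finset ℤ)
      else {0, sg (e j), 2 * sg (e j)}).card := by
  split_ifs
  · cases t <;> simp [sg]
  · cases e j <;> simp [sg]

theorem quad_card (i l : Fin 6) (t : Bool) (v : Fin 6 → Bool) (j : Fin 6) (hj : j ≠ i) :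
    2 ≤ (if j = i then ({0} : Finset ℤ) else if j = l then (if t then {1, 2} else {-2, -1})
    else (if v j then {0, 1} else {-1, 0})).card := by
  rw [if_neg hj]
  split_ifs <;> decide

/-- classification of the rules: Q rules or rules containing `supp0` -/
theorem mem_U {X : Finset Site} (hX : X ∈ U) :
    (∃ (i l : Fin 6) (t t' : Bool) (e v : Fin 6 → Bool), l ≠ i ∧ X = supp i t e ∪ quad i l t' v) ∨
    (∃ c ∈ ({.s, .a} : Finset Sym), ∃ k ∈ code .a, X = supp0 ∪ col (-1) 0 k c) ∨
    (∃ c ∈ ({.s, .b} : Finset Sym), ∃ k ∈ code .b, X = supp0 ∪ col 0 (-1) k c) ∨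
    (∃ c ∈ ({.b, .z, .o} : Finset Sym), ∃ c' ∈ ({.a, .z, .o} : Finset Sym), ∃ k ∈ code (xo c c'),
      X = supp0 ∪ (col (-1) 0 k c ∪ col 0 (-1) k c')) ∨
    (∃ v ∈ vbox, X = supp0 ∪ ((code .o).image (fun r => (![0, 0, r, 0, 0, 0] : Site) - v) ∪
    {(![0, 0, 0, 1, 0, 0] : Site) - v})) := by
  unfold U at hX
  rw [Finset.mem_union, Finset.mem_union, Finset.mem_union, Finset.mem_union] at hX
  rcases hX with h | h | h | h | h
  · left
    unfold QRules at h
    rw [Finset.mem_image] at h
    obtain ⟨q, hq, rfl⟩ := h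
    rw [Finset.mem_filter] at hq
    exact ⟨q.1, q.2.2.2.1, q.2.1, q.2.2.2.2.1, q.2.2.1, q.2.2.2.2.2, hq.2, rfl⟩
  · right; left
    unfold ARules at h
    rw [Finset.mem_image] at h
    obtain ⟨q, hq, rfl⟩ := h
    rw [Finset.mem_product] at hq
    exact ⟨q.1, hq.1, q.2, hq.2, rfl⟩
  · right; right; left
    unfold BRules at h
    rw [Finset.mem_image] at h
    obtain ⟨q, hq, rfl⟩ := h
    rw [Finset.mem_product] at hq
    exact ⟨q.1, hq.1, q.2, hq.2, rfl⟩
  · right; right; right; left
    unfold IRules at h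
    rw [Finset.mem_biUnion] at h
    obtain ⟨q, hq, h⟩ := h
    rw [Finset.mem_image] at h
    obtain ⟨k, hk, rfl⟩ := h
    rw [Finset.mem_product] at hq
    exact ⟨q.1, hq.1, q.2, hq.2, k, hk, rfl⟩
  · right; right; right; right
    unfold TRules at h
    rw [Finset.mem_image] at h
    obtain ⟨v, hv, rfl⟩ := h
    exact ⟨v, hv, rfl⟩

attribute [local irreducible] U

theorem code_bound (c : Sym) : ∀ r ∈ code c, 1 ≤ r ∧ r ≤ 262144 := by
  cases c <;> decide

theorem supp_bound {i : Fin 6} {t : Bool} {e : Fin 6 → Bool} {y : Site} (hy : y ∈ supp i t e)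
    (j : Fin 6) : |y j| ≤ 2 := by
  unfold supp at hy
  have h := Fintype.mem_piFinset.1 hy j
  split_ifs at h with h1
  · simp only [Finset.mem_insert, Finset.mem_singleton] at h
    rcases sg_sq t with h2 | h2 <;> rw [h2] at h <;> rcases h with h | h <;> rw [h] <;> norm_num
  · simp only [Finset.mem_insert, Finset.mem_singleton] at h
    rcases sg_sq (e j) with h2 | h2 <;> rw [h2] at h <;> rcases h with h | h | h <;> rw [h] <;>
      norm_num

theorem quad_bound {i l : Fin 6} {t : Bool} {v : Fin 6 → Bool} {y : Site} (hy : y ∈ quad i l t v)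
    (j : Fin 6) : |y j| ≤ 2 := by
  unfold quad at hy
  have h := Fintype.mem_piFinset.1 hy j
  split_ifs at h <;> simp only [Finset.mem_insert, Finset.mem_singleton] at h
  · rw [h]; norm_num
  · rcases h with h | h <;> rw [h] <;> norm_num
  · rcases h with h | h <;> rw [h] <;> norm_num
  · rcases h with h | h <;> rw [h] <;> norm_num
  · rcases h with h | h <;> rw [h] <;> norm_num

theorem vbox_bound {v : Site} (hv : v ∈ vbox) : v 5 = 0 ∧ ∀ j, 0 ≤ v j ∧ v j ≤ 2 := by
  unfold vbox at hv
  constructor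
  · have h := Fintype.mem_piFinset.1 hv 5
    simpa using h
  · intro j
    have h := Fintype.mem_piFinset.1 hv j
    split_ifs at h <;> simp only [Finset.mem_insert, Finset.mem_singleton] at h
    · rw [h]; norm_num
    · rcases h with h | h <;> rw [h] <;> norm_num
    · rcases h with h | h <;> rw [h] <;> norm_num

theorem col_bound {u0 u1 k : ℤ} {c : Sym} (h0 : |u0| ≤ 1) (h1 : |u1| ≤ 1) (hk : 1 ≤ k)
    (hk' : k ≤ 262144) {y : Site} (hy : y ∈ col u0 u1 k c) (j : Fin 6) : |y j| ≤ 262144 := by
  unfold col at hy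
  rw [Finset.mem_image] at hy
  obtain ⟨r, hr, rfl⟩ := hy
  have hb := code_bound c r hr
  fin_cases j
  · show |u0| ≤ _
    linarith
  · show |u1| ≤ _
    linarith
  · show |r - k| ≤ _
    rw [abs_le]; constructor <;> linarith
  all_goals (show |(0 : ℤ)| ≤ _; norm_num)

theorem rule_bound {X : Finset Site} (hX : X ∈ U) {y : Site} (hy : y ∈ X) (j : Fin 6) :
    |y j| ≤ 262144 := by
  have hs0 : ∀ {z : Site}, z ∈ supp0 → |z j| ≤ 262144 := by
    intro z hz
    have := supp_bound (i := 5) (t := true) (e := fun _ => true) hz j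
    linarith
  have hXU := mem_U hX
  clear hX
  rcases hXU with hXU | hXU | hXU | hXU | hXU
  · obtain ⟨i, l, t, t', e, v, hl, hXe⟩ := hXU
    rw [hXe] at hy
    rcases Finset.mem_union.1 hy with h | h
    · have := supp_bound h j
      linarith
    · have := quad_bound h j
      linarith
  · obtain ⟨c, hc, k, hk, hXe⟩ := hXU
    rw [hXe] at hy
    rcases Finset.mem_union.1 hy with h | h
    · exact hs0 h
    · have := code_bound _ k hk
      exact col_bound (by norm_num) (by norm_num) this.1 this.2 h j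
  · obtain ⟨c, hc, k, hk, hXe⟩ := hXU
    rw [hXe] at hy
    rcases Finset.mem_union.1 hy with h | h
    · exact hs0 h
    · have := code_bound _ k hk
      exact col_bound (by norm_num) (by norm_num) this.1 this.2 h j
  · obtain ⟨c, hc, c', hc', k, hk, hXe⟩ := hXU
    have := code_bound _ k hk
    rw [hXe] at hy
    rcases Finset.mem_union.1 hy with h | h
    · exact hs0 h
    · rcases Finset.mem_union.1 h with h | h
      · exact col_bound (by norm_num) (by norm_num) this.1 this.2 h j
      · exact col_bound (by norm_num) (by norm_num) this.1 this.2 h j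
  · obtain ⟨v, hv, hXe⟩ := hXU
    have hvb := vbox_bound hv
    have hvj := hvb.2 j
    rw [hXe] at hy
    rcases Finset.mem_union.1 hy with h | h
    · exact hs0 h
    · rcases Finset.mem_union.1 h with h | h
      · rw [Finset.mem_image] at h
        obtain ⟨r, hr, rfl⟩ := h
        have hb := code_bound _ r hr
        have : ((![0, 0, r, 0, 0, 0] : Site) - v) j = (![0, 0, r, 0, 0, 0] : Site) j - v j := rfl
        rw [this]
        have hor : (![0, 0, r, 0, 0, 0] : Site) j = 0 ∨ (j = 2 ∧ (![0, 0, r, 0, 0, 0] : Site) j = r) := by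
          fin_cases j <;> simp
        rw [abs_le]
        rcases hor with h0 | ⟨h2, h0⟩ <;> rw [h0]
        · constructor <;> linarith [hvj.1, hvj.2]
        · constructor <;> linarith [hvj.1, hvj.2]
      · rw [Finset.mem_singleton] at h
        rw [h]
        have : ((![0, 0, 0, 1, 0, 0] : Site) - v) j = (![0, 0, 0, 1, 0, 0] : Site) j - v j := rfl
        rw [this]
        have hor : (![0, 0, 0, 1, 0, 0] : Site) j = 0 ∨ (![0, 0, 0, 1, 0, 0] : Site) j = 1 := by
          fin_cases j <;> simp
        rw [abs_le]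
        rcases hor with h0 | h0 <;> rw [h0] <;> constructor <;> linarith [hvj.1, hvj.2]

/-- four sites of a rule in the layer of the site, for a direction other than `5` -/
theorem zero_sites {X : Finset Site} (hX : X ∈ U) (k : Fin 6) (hk : k ≠ 5) :
    ∃ V : Finset Site, V ⊆ X ∧ V.card = 4 ∧ ∀ y ∈ V, y k = 0 := by
  obtain ⟨m, hm⟩ : ∃ m : Fin 6, m ≠ k := by
    clear hk
    revert k; decide
  have hs : ∀ (i : Fin 6) (t : Bool) (e : Fin 6 → Bool), k ≠ i →
      ∃ V : Finset Site, V ⊆ supp i t e ∧ V.card = 4 ∧ ∀ y ∈ V, y k = 0 := by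
    intro i t e hki
    obtain ⟨V, hV, h4, h⟩ := four_sites (fun j => if j = i then ({-(sg t), -(2 * sg t)} : Finset ℤ)
      else {0, sg (e j), 2 * sg (e j)}) k m hm 0 (by simp [hki]) (fun j _ => supp_card i t e j) 5
    exact ⟨V, hV, h4, fun y hy => (h y hy).1⟩
  have hXU := mem_U hX
  clear hX
  rcases hXU with ⟨i, l, t, t', e, v, hl, hXe⟩ | ⟨c, hc, k', hk', hXe⟩ |
    ⟨c, hc, k', hk', hXe⟩ | ⟨c, hc, c', hc', k', hk', hXe⟩ | ⟨v, hv, hXe⟩
  · rw [hXe]
    by_cases hki : k = i
    · obtain ⟨V, hV, h4, h⟩ := four_sites (fun j => if j = i then ({0} : Finset ℤ) else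
        if j = l then (if t' then {1, 2} else {-2, -1}) else (if v j then {0, 1} else {-1, 0}))
        k m hm 0 (by simp [hki]) (fun j hj => quad_card i l t' v j (by rw [← hki]; exact hj)) 5
      exact ⟨V, hV.trans Finset.subset_union_right, h4, fun y hy => (h y hy).1⟩
    · obtain ⟨V, hV, h4, h⟩ := hs i t e hki
      exact ⟨V, hV.trans Finset.subset_union_left, h4, h⟩
  all_goals
    rw [hXe]
    obtain ⟨V, hV, h4, h⟩ := hs 5 true (fun _ => true) hk
    exact ⟨V, hV.trans Finset.subset_union_left, h4, h⟩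

/-- four sites of a Q rule in the layer of the site, for direction `5`, off a plane -/
theorem zero_sites5 (i l : Fin 6) (t t' : Bool) (e v : Fin 6 → Bool) (_hl : l ≠ i) (c : ℤ) :
    ∃ V : Finset Site, V ⊆ supp i t e ∪ quad i l t' v ∧ V.card = 4 ∧
      ∀ y ∈ V, y 5 = 0 ∧ y 4 ≠ c := by
  by_cases hi : i = 5
  · obtain ⟨V, hV, h4, h⟩ := four_sites (fun j => if j = i then ({0} : Finset ℤ) else
        if j = l then (if t' then {1, 2} else {-2, -1}) else (if v j then {0, 1} else {-1, 0}))
        5 4 (by decide) 0 (by simp [hi]) (fun j hj => quad_card i l t' v j (by rw [hi]; exact hj)) c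
    exact ⟨V, hV.trans Finset.subset_union_right, h4, h⟩
  · obtain ⟨V, hV, h4, h⟩ := four_sites (fun j => if j = i then ({-(sg t), -(2 * sg t)} : Finset ℤ)
      else {0, sg (e j), 2 * sg (e j)}) 5 4 (by decide) 0 (by
        rw [if_neg (fun h => hi h.symm)]; simp) (fun j _ => supp_card i t e j) c
    exact ⟨V, hV.trans Finset.subset_union_left, h4, h⟩

/-- four sites of `supp0` in the previous layer off a plane -/
theorem supp0_sites (c : ℤ) :
    ∃ V : Finset Site, V ⊆ supp0 ∧ V.card = 4 ∧ ∀ y ∈ V, y 5 = -1 ∧ y 4 ≠ c := by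
  obtain ⟨V, hV, h4, h⟩ := four_sites (fun j => if j = 5 then ({-(sg true), -(2 * sg true)} : Finset ℤ)
      else {0, sg ((fun _ : Fin 6 => true) j), 2 * sg ((fun _ : Fin 6 => true) j)}) 5 4 (by decide)
      (-1) (by simp [sg]) (fun j _ => supp_card 5 true (fun _ => true) j) c
  exact ⟨V, hV, h4, h⟩

/-- the codes form a Sidon set -/
theorem sidon : ∀ c c' : Sym, ∀ r ∈ code c, ∀ r' ∈ code c, ∀ q ∈ code c', ∀ q' ∈ code c',
    r ≠ r' → r - r' = q - q' → c = c' ∧ r = q := by
  decide +kernel

theorem code_three : ∀ c : Sym, 3 ≤ (code c).card := by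
  decide

theorem code_four : ∀ c : Sym, c ≠ .s → (code c).card = 4 := by
  decide

end Pool.Agent.R952.BP
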