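import Mathlib

/-! S19636 piece ST4a: choice of the parameters for the lower bound. -/

namespace Pool.Agent.R952.BP

open Filter

theorem NumLow_theta : (3 / 2 : ℝ) < Real.logb 2 3 ∧ Real.logb 2 3 < 8 / 5 := by
  constructor
  · rw [Real.lt_logb_iff_rpow_lt (by norm_num) (by norm_num)]
    have h : ((2 : ℝ) ^ (3 / 2 : ℝ)) ^ 2 < (3 : ℝ) ^ 2 := by
      rw [← Real.rpow_natCast, ← Real.rpow_mul (by norm_num)]
      norm_num
    exact lt_of_pow_lt_pow_left₀ 2 (by norm_num) h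
  · rw [Real.logb_lt_iff_lt_rpow (by norm_num) (by norm_num)]
    have h : (3 : ℝ) ^ 5 < ((2 : ℝ) ^ (8 / 5 : ℝ)) ^ 5 := by
      rw [← Real.rpow_natCast ((2 : ℝ) ^ (8 / 5 : ℝ)), ← Real.rpow_mul (by norm_num)]
      norm_num
    exact lt_of_pow_lt_pow_left₀ 5 (by positivity) h

theorem NumLow_three_pow (k : ℕ) : (3 : ℝ) ^ k = ((2 : ℝ) ^ k) ^ (Real.logb 2 3) := by
  have h3 : (3 : ℝ) = (2 : ℝ) ^ (Real.logb 2 3) :=
    (Real.rpow_logb (by norm_num) (by norm_num) (by norm_num)).symm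
  conv_lhs => rw [h3]
  rw [← Real.rpow_natCast, ← Real.rpow_mul (by norm_num), ← Real.rpow_natCast,
    ← Real.rpow_mul (by norm_num), mul_comm]

theorem NumLow_pow96 (k : ℕ) : (96 : ℝ) ^ k = ((2 : ℝ) ^ k) ^ (5 + Real.logb 2 3) := by
  rw [Real.rpow_add (by positivity), ← NumLow_three_pow]
  have : (((2 : ℝ) ^ k) ^ (5 : ℝ)) = (32 : ℝ) ^ k := by
    rw [show (5 : ℝ) = ((5 : ℕ) : ℝ) by norm_num, Real.rpow_natCast, ← pow_mul, mul_comm, pow_mul]
    norm_num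
  rw [this, ← mul_pow]
  norm_num

theorem num_low (C δ : ℝ) (hC : 0 < C) (hδ : 0 < δ) (hδ' : δ ≤ 1 / 100) :
    ∀ᶠ n : ℕ in Filter.atTop, ∃ k : ℕ, ∃ p : ℝ,
      p = (Real.log ((n : ℝ) + 1)) ^ (-((5 + Real.logb 2 3) / 4 + δ)) ∧ 0 < p ∧ p < 1 ∧
      C * 96 ^ k * p ^ 4 ≤ 1 ∧ C * 128 ^ k * p ^ 5 ≤ 1 ∧ C * 2 ^ k ≤ n ∧ C ≤ 2 ^ k ∧
      C * ((n : ℝ) + 1) ^ 6 * Real.exp (-(2 ^ k / C)) ≤ 1 := by
  obtain ⟨ht1, ht2⟩ := NumLow_theta
  set θ := Real.logb 2 3 with hθ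
  have hL : Tendsto (fun n : ℕ => Real.log ((n : ℝ) + 1)) atTop atTop :=
    Real.tendsto_log_atTop.comp
      (tendsto_atTop_add_const_right _ _ tendsto_natCast_atTop_atTop)
  -- the real variable statement
  have key : ∀ᶠ L : ℝ in atTop, 2 ≤ L ∧ C ≤ L ∧ Real.log C ≤ L ∧ 7 * C ≤ L ^ (δ / 4) ∧
      C * 96 * L ^ (-(δ * (4 - (5 + θ) / 4))) ≤ 1 ∧
      C * 128 * L ^ (-(5 * ((5 + θ) / 4 + δ) - 7 * (1 + δ / 4))) ≤ 1 ∧
      2 * C + 1 ≤ Real.exp L / L ^ (1 + δ / 4) := by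
    have e1 := eventually_ge_atTop (2 : ℝ)
    have e2 := eventually_ge_atTop C
    have e3 := eventually_ge_atTop (Real.log C)
    have e4 : ∀ᶠ L : ℝ in atTop, 7 * C ≤ L ^ (δ / 4) :=
      (tendsto_rpow_atTop (by positivity)).eventually_ge_atTop _
    have e5 : ∀ᶠ L : ℝ in atTop, C * 96 * L ^ (-(δ * (4 - (5 + θ) / 4))) ≤ 1 := by
      have h := (tendsto_rpow_neg_atTop (y := δ * (4 - (5 + θ) / 4))
        (mul_pos hδ (by linarith))).const_mul (C * 96)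
      rw [mul_zero] at h
      exact h.eventually_le_const one_pos
    have e6 : ∀ᶠ L : ℝ in atTop,
        C * 128 * L ^ (-(5 * ((5 + θ) / 4 + δ) - 7 * (1 + δ / 4))) ≤ 1 := by
      have h := (tendsto_rpow_neg_atTop (y := 5 * ((5 + θ) / 4 + δ) - 7 * (1 + δ / 4))
        (by linarith)).const_mul (C * 128)
      rw [mul_zero] at h
      exact h.eventually_le_const one_pos
    have e7 := (tendsto_exp_div_rpow_atTop (1 + δ / 4)).eventually_ge_atTop (2 * C + 1)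
    filter_upwards [e1, e2, e3, e4, e5, e6, e7] with L h1 h2 h3 h4 h5 h6 h7
    exact ⟨h1, h2, h3, h4, h5, h6, h7⟩
  filter_upwards [hL.eventually key] with n hn
  have hexp : Real.exp (Real.log ((n : ℝ) + 1)) = (n : ℝ) + 1 :=
    Real.exp_log (by positivity)
  set L := Real.log ((n : ℝ) + 1) with hLdef
  obtain ⟨h1, h2, h3, h4, h5, h6, h7⟩ := hn
  have hL0 : 0 < L := by linarith
  have hX1 : 1 ≤ L ^ (1 + δ / 4) := Real.one_le_rpow (by linarith) (by linarith)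
  obtain ⟨k', hk1, hk2⟩ := exists_nat_pow_near hX1 (one_lt_two)
  refine ⟨k' + 1, L ^ (-((5 + θ) / 4 + δ)), rfl, Real.rpow_pos_of_pos hL0 _,
    Real.rpow_lt_one_of_one_lt_of_neg (by linarith) (by linarith), ?_, ?_, ?_, ?_, ?_⟩
  · have hk3 : (2 : ℝ) ^ (k' + 1) ≤ 2 * L ^ (1 + δ / 4) := by
      rw [pow_succ]; linarith
    have h96 : (96 : ℝ) ^ (k' + 1) ≤ 96 * L ^ ((1 + δ / 4) * (5 + θ)) := by
      rw [NumLow_pow96, Real.rpow_mul hL0.le]
      calc ((2 : ℝ) ^ (k' + 1)) ^ (5 + θ) ≤ (2 * L ^ (1 + δ / 4)) ^ (5 + θ) :=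
            Real.rpow_le_rpow (by positivity) hk3 (by linarith)
        _ = 2 ^ (5 + θ) * (L ^ (1 + δ / 4)) ^ (5 + θ) :=
            Real.mul_rpow (by norm_num) (by positivity)
        _ = 96 * (L ^ (1 + δ / 4)) ^ (5 + θ) := by
            have := NumLow_pow96 1
            norm_num at this
            rw [← hθ] at this
            rw [← this]
    calc C * 96 ^ (k' + 1) * (L ^ (-((5 + θ) / 4 + δ))) ^ 4
        ≤ C * (96 * L ^ ((1 + δ / 4) * (5 + θ))) * (L ^ (-((5 + θ) / 4 + δ))) ^ 4 := by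
          gcongr
      _ = C * 96 * L ^ (-(δ * (4 - (5 + θ) / 4))) := by
          rw [← Real.rpow_natCast (L ^ (-((5 + θ) / 4 + δ))), ← Real.rpow_mul hL0.le, ← mul_assoc,
            mul_assoc (C * 96), ← Real.rpow_add hL0]
          congr 2
          push_cast
          ring
      _ ≤ 1 := h5
  · have hk3 : (2 : ℝ) ^ (k' + 1) ≤ 2 * L ^ (1 + δ / 4) := by
      rw [pow_succ]; linarith
    have h128 : (128 : ℝ) ^ (k' + 1) ≤ 128 * L ^ (7 * (1 + δ / 4)) := by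
      have : (128 : ℝ) ^ (k' + 1) = ((2 : ℝ) ^ (k' + 1)) ^ 7 := by
        rw [← pow_mul, mul_comm, pow_mul]; norm_num
      rw [this]
      calc ((2 : ℝ) ^ (k' + 1)) ^ 7 ≤ (2 * L ^ (1 + δ / 4)) ^ 7 := by gcongr
        _ = 128 * L ^ (7 * (1 + δ / 4)) := by
            rw [mul_pow, ← Real.rpow_natCast (L ^ (1 + δ / 4)), ← Real.rpow_mul hL0.le]
            norm_num
            congr 1
            ring
    calc C * 128 ^ (k' + 1) * (L ^ (-((5 + θ) / 4 + δ))) ^ 5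
        ≤ C * (128 * L ^ (7 * (1 + δ / 4))) * (L ^ (-((5 + θ) / 4 + δ))) ^ 5 := by
          gcongr
      _ = C * 128 * L ^ (-(5 * ((5 + θ) / 4 + δ) - 7 * (1 + δ / 4))) := by
          rw [← Real.rpow_natCast (L ^ (-((5 + θ) / 4 + δ))), ← Real.rpow_mul hL0.le, ← mul_assoc,
            mul_assoc (C * 128), ← Real.rpow_add hL0]
          congr 2
          push_cast
          ring
      _ ≤ 1 := h6
  · have hk3 : (2 : ℝ) ^ (k' + 1) ≤ 2 * L ^ (1 + δ / 4) := by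
      rw [pow_succ]; linarith
    rw [le_div_iff₀ (by positivity), hexp] at h7
    have : C * 2 ^ (k' + 1) ≤ C * (2 * L ^ (1 + δ / 4)) := by gcongr
    nlinarith
  · have : L ≤ L ^ (1 + δ / 4) := by
      calc L = L ^ (1 : ℝ) := (Real.rpow_one L).symm
        _ ≤ L ^ (1 + δ / 4) := Real.rpow_le_rpow_of_exponent_le (by linarith) (by linarith)
    linarith
  · have h8 : 7 * L ≤ 2 ^ (k' + 1) / C := by
      rw [le_div_iff₀ hC]
      have : L ^ (1 + δ / 4) = L * L ^ (δ / 4) := by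
        rw [Real.rpow_add hL0, Real.rpow_one]
      nlinarith
    have h9 : C = Real.exp (Real.log C) := (Real.exp_log hC).symm
    have h10 : ((n : ℝ) + 1) ^ 6 = Real.exp (6 * L) := by
      rw [← hexp, ← Real.exp_nat_mul]
      norm_num
    rw [h10]
    nth_rw 1 [h9]
    rw [← Real.exp_add, ← Real.exp_add]
    apply Real.exp_le_one_iff.mpr
    linarith

end Pool.Agent.R952.BP
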