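import Mathlib

/-! S19636 piece ST4b: choice of the parameters for the upper bound. -/

namespace Pool.Agent.R952.BP

open Filter

theorem NumUp_theta : (3 / 2 : ℝ) < Real.logb 2 3 ∧ Real.logb 2 3 < 8 / 5 := by
  constructor
  · rw [Real.lt_logb_iff_rpow_lt (by norm_num) (by norm_num)]
    have h : ((2 : ℝ) ^ (3 / 2 : ℝ)) ^ 2 < (3 : ℝ) ^ 2 := by
      rw [← Real.rpow_natCast, ← Real.rpow_mul (by norm_num)]
      norm_num
    exact lt_of_pow_lt_pow_left₀ 2 (by norm_num) h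
  · rw [Real.logb_lt_iff_lt_rpow (by norm_num) (by norm_num)]
    have h : (3 : ℝ) ^ 5 < ((2 : ℝ) ^ (8 / 5 : ℝ)) ^ 5 := by
      rw [← Real.rpow_natCast ((2 : ℝ) ^ (8 / 5 : ℝ)), ← Real.rpow_mul (by norm_num)]
      norm_num
    exact lt_of_pow_lt_pow_left₀ 5 (by positivity) h

theorem NumUp_three_pow (k : ℕ) : (3 : ℝ) ^ k = ((2 : ℝ) ^ k) ^ (Real.logb 2 3) := by
  have h3 : (3 : ℝ) = (2 : ℝ) ^ (Real.logb 2 3) :=
    (Real.rpow_logb (by norm_num) (by norm_num) (by norm_num)).symm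
  conv_lhs => rw [h3]
  rw [← Real.rpow_natCast, ← Real.rpow_mul (by norm_num), ← Real.rpow_natCast,
    ← Real.rpow_mul (by norm_num), mul_comm]

theorem NumUp_pow96 (k : ℕ) : (96 : ℝ) ^ k = ((2 : ℝ) ^ k) ^ (5 + Real.logb 2 3) := by
  rw [Real.rpow_add (by positivity), ← NumUp_three_pow]
  have : (((2 : ℝ) ^ k) ^ (5 : ℝ)) = (32 : ℝ) ^ k := by
    rw [show (5 : ℝ) = ((5 : ℕ) : ℝ) by norm_num, Real.rpow_natCast, ← pow_mul, mul_comm, pow_mul]
    norm_num
  rw [this, ← mul_pow]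
  norm_num

theorem num_up (C δ : ℝ) (hC : 0 < C) (hδ : 0 < δ) (hδ' : δ ≤ 1 / 100) :
    ∀ᶠ n : ℕ in Filter.atTop, ∃ k M : ℕ, ∃ p : ℝ,
      p = (Real.log ((n : ℝ) + 1)) ^ (-((5 + Real.logb 2 3) / 4 - δ)) ∧ 0 < p ∧ p < 1 ∧
      4 ^ k * p ^ 3 ≤ 1 ∧ 3 ^ k * p ≤ 1 ∧ C ≤ 2 ^ k ∧ C ≤ M ∧
      C * M * Real.exp (-(96 ^ k * p ^ 4 / C)) ≤ 1 ∧
      (∀ e : ℕ, (e : ℝ) ≤ C * 2 ^ k → C * 2 ^ k ≤ n * p ^ e) ∧
      C * ((n : ℝ) + 1) ^ 6 * Real.exp (-(M * p ^ 32 / C)) ≤ 1 ∧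
      C * (2 ^ k + M) ≤ n := by
  obtain ⟨ht1, ht2⟩ := NumUp_theta
  set θ := Real.logb 2 3 with hθ
  have hL : Tendsto (fun n : ℕ => Real.log ((n : ℝ) + 1)) atTop atTop :=
    Real.tendsto_log_atTop.comp
      (tendsto_atTop_add_const_right _ _ tendsto_natCast_atTop_atTop)
  set a : ℝ := (5 + θ) / 4 - δ with ha
  have ha1 : 3 / 2 < a := by rw [ha]; linarith
  have ha2 : a < 2 := by rw [ha]; linarith
  set c : ℝ := δ * (4 - (5 + θ) / 2) with hc
  have hc0 : 0 < c := mul_pos hδ (by linarith)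
  have key : ∀ᶠ L : ℝ in atTop, 2 ≤ L ∧ C ≤ L ∧ 
      2 * C ≤ L ^ (1 - δ / 2) ∧
      2 * C * L ^ (100 : ℝ) * Real.exp (-(L ^ c / (96 * C))) ≤ 1 ∧
      a * C * (Real.log L * L ^ (1 - δ / 2)) ≤ L / 2 ∧
      2 * C * L ≤ Real.exp (L / 2) ∧
      Real.log C + 6 * L ≤ L ^ (2 : ℕ) / C ∧
      3 * C + 1 ≤ Real.exp L / L ^ (100 : ℝ) := by
    have e1 := eventually_ge_atTop (2 : ℝ)
    have e2 := eventually_ge_atTop C
    have e3 : ∀ᶠ L : ℝ in atTop, 2 * C ≤ L ^ (1 - δ / 2) :=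
      (tendsto_rpow_atTop (by linarith)).eventually_ge_atTop _
    have e4 : ∀ᶠ L : ℝ in atTop,
        2 * C * L ^ (100 : ℝ) * Real.exp (-(L ^ c / (96 * C))) ≤ 1 := by
      have h1 := (tendsto_rpow_mul_exp_neg_mul_atTop_nhds_zero (100 / c) (1 / (96 * C))
        (by positivity)).comp (tendsto_rpow_atTop hc0)
      have h2 := h1.const_mul (2 * C)
      rw [mul_zero] at h2
      filter_upwards [h2.eventually_le_const one_pos, e1] with L h3 h4
      have h5 : (L ^ c) ^ (100 / c) = L ^ (100 : ℝ) := by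
        rw [← Real.rpow_mul (by linarith)]
        congr 1
        field_simp
      simp only [Function.comp] at h3
      rw [h5] at h3
      calc _ = _ := ?_
        _ ≤ 1 := h3
      rw [mul_assoc]
      congr 3
      ring
    have e5 : ∀ᶠ L : ℝ in atTop, a * C * (Real.log L * L ^ (1 - δ / 2)) ≤ L / 2 := by
      have h1 := (isLittleO_log_rpow_atTop (r := δ / 2) (by positivity)).bound
        (c := 1 / (2 * a * C)) (by positivity)
      filter_upwards [h1, e1] with L h2 h3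
      have hL0 : 0 < L := by linarith
      rw [Real.norm_of_nonneg (Real.log_nonneg (by linarith)),
        Real.norm_of_nonneg (by positivity)] at h2
      have h4 : L ^ (δ / 2) * L ^ (1 - δ / 2) = L := by
        rw [← Real.rpow_add hL0]
        norm_num
      calc a * C * (Real.log L * L ^ (1 - δ / 2))
          ≤ a * C * (1 / (2 * a * C) * L ^ (δ / 2) * L ^ (1 - δ / 2)) := by gcongr
        _ = a * C * (1 / (2 * a * C)) * (L ^ (δ / 2) * L ^ (1 - δ / 2)) := by ring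
        _ = L / 2 := by
            rw [h4]
            field_simp
    have e6 : ∀ᶠ L : ℝ in atTop, 2 * C * L ≤ Real.exp (L / 2) := by
      have h1 := (tendsto_exp_div_rpow_atTop 1).comp
        (tendsto_id.atTop_div_const (show (0 : ℝ) < 2 by norm_num))
      filter_upwards [h1.eventually_ge_atTop (4 * C), e1] with L h2 h3
      simp only [Function.comp, id, Real.rpow_one] at h2
      rw [le_div_iff₀ (by linarith)] at h2
      linarith
    have e7 : ∀ᶠ L : ℝ in atTop, Real.log C + 6 * L ≤ L ^ (2 : ℕ) / C := by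
      filter_upwards [eventually_ge_atTop (Real.log C), eventually_ge_atTop (7 * C), e1]
        with L h1 h2 h3
      rw [le_div_iff₀ hC]
      nlinarith
    have e8 := (tendsto_exp_div_rpow_atTop 100).eventually_ge_atTop (3 * C + 1)
    filter_upwards [e1, e2, e3, e4, e5, e6, e7, e8] with L h1 h2 h3 h4 h5 h6 h7 h8
    exact ⟨h1, h2, h3, h4, h5, h6, h7, h8⟩
  filter_upwards [hL.eventually key] with n hn
  have hexp : Real.exp (Real.log ((n : ℝ) + 1)) = (n : ℝ) + 1 :=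
    Real.exp_log (by positivity)
  set L := Real.log ((n : ℝ) + 1) with hLdef
  obtain ⟨h1, h2, h3, h4, h5, h6, h7, h8⟩ := hn
  have hL0 : 0 < L := by linarith
  have hX1 : 1 ≤ L ^ (1 - δ / 2) := Real.one_le_rpow (by linarith) (by linarith)
  have hXL : L ^ (1 - δ / 2) ≤ L := by
    calc L ^ (1 - δ / 2) ≤ L ^ (1 : ℝ) :=
          Real.rpow_le_rpow_of_exponent_le (by linarith) (by linarith)
      _ = L := Real.rpow_one L
  obtain ⟨k, hk1, hk2⟩ := exists_nat_pow_near hX1 (one_lt_two)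
  rw [pow_succ] at hk2
  have hp0 : 0 < L ^ (-a) := Real.rpow_pos_of_pos hL0 _
  have hp1 : L ^ (-a) < 1 := Real.rpow_lt_one_of_one_lt_of_neg (by linarith) (by linarith)
  have hM1 : L ^ (100 : ℝ) ≤ (⌈L ^ (100 : ℝ)⌉₊ : ℝ) := Nat.le_ceil _
  have hL100 : 1 ≤ L ^ (100 : ℝ) := Real.one_le_rpow (by linarith) (by norm_num)
  have hM2 : (⌈L ^ (100 : ℝ)⌉₊ : ℝ) ≤ 2 * L ^ (100 : ℝ) := by
    have := (Nat.ceil_lt_add_one (a := L ^ (100 : ℝ)) (by positivity)).le
    linarith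
  have hLle : L ≤ L ^ (100 : ℝ) := by
    calc L = L ^ (1 : ℝ) := (Real.rpow_one L).symm
      _ ≤ L ^ (100 : ℝ) := Real.rpow_le_rpow_of_exponent_le (by linarith) (by norm_num)
  rw [le_div_iff₀ (by positivity), hexp] at h8
  refine ⟨k, ⌈L ^ (100 : ℝ)⌉₊, L ^ (-a), rfl, hp0, hp1, ?_, ?_, ?_, ?_, ?_, ?_, ?_, ?_⟩
  · -- 4 ^ k * p ^ 3 ≤ 1
    have e : (4 : ℝ) ^ k = ((2 : ℝ) ^ k) ^ 2 := by
      rw [← pow_mul, mul_comm, pow_mul]; norm_num
    rw [e]
    calc ((2 : ℝ) ^ k) ^ 2 * (L ^ (-a)) ^ 3 ≤ (L ^ (1 - δ / 2)) ^ 2 * (L ^ (-a)) ^ 3 := by gcongr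
      _ = L ^ (2 * (1 - δ / 2) + -(3 * a)) := by
          rw [← Real.rpow_natCast (L ^ (1 - δ / 2)), ← Real.rpow_natCast (L ^ (-a)),
            ← Real.rpow_mul hL0.le, ← Real.rpow_mul hL0.le, ← Real.rpow_add hL0]
          congr 1
          push_cast
          ring
      _ ≤ 1 := Real.rpow_le_one_of_one_le_of_nonpos (by linarith) (by linarith)
  · rw [NumUp_three_pow]
    calc ((2 : ℝ) ^ k) ^ θ * L ^ (-a) ≤ (L ^ (1 - δ / 2)) ^ θ * L ^ (-a) := by
          gcongr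
      _ = L ^ ((1 - δ / 2) * θ + -a) := by
          rw [← Real.rpow_mul hL0.le, ← Real.rpow_add hL0]
      _ ≤ 1 := Real.rpow_le_one_of_one_le_of_nonpos (by linarith) (by
          rw [ha]; nlinarith)
  · linarith
  · linarith
  · -- C * M * exp
    have h96 : L ^ c / 96 ≤ 96 ^ k * (L ^ (-a)) ^ 4 := by
      have e1 : L ^ ((1 - δ / 2) * (5 + θ)) ≤ 96 * (96 : ℝ) ^ k := by
        rw [Real.rpow_mul hL0.le]
        have h96' : (96 : ℝ) * 96 ^ k = ((2 : ℝ) ^ (k + 1)) ^ (5 + θ) := by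
          rw [← NumUp_pow96, pow_succ, mul_comm]
        rw [h96']
        apply Real.rpow_le_rpow (by positivity) _ (by linarith)
        rw [pow_succ]; exact hk2.le
      have e2 : L ^ c = L ^ ((1 - δ / 2) * (5 + θ)) * (L ^ (-a)) ^ 4 := by
        rw [← Real.rpow_natCast (L ^ (-a)), ← Real.rpow_mul hL0.le, ← Real.rpow_add hL0]
        congr 1
        rw [hc, ha]
        push_cast
        ring
      rw [e2]
      have : L ^ ((1 - δ / 2) * (5 + θ)) * (L ^ (-a)) ^ 4 ≤ 96 * 96 ^ k * (L ^ (-a)) ^ 4 := by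
        gcongr
      linarith
    calc C * (⌈L ^ (100 : ℝ)⌉₊ : ℝ) * Real.exp (-(96 ^ k * (L ^ (-a)) ^ 4 / C))
        ≤ C * (2 * L ^ (100 : ℝ)) * Real.exp (-(L ^ c / 96 / C)) := by gcongr
      _ = 2 * C * L ^ (100 : ℝ) * Real.exp (-(L ^ c / (96 * C))) := by
          rw [div_div]; ring
      _ ≤ 1 := h4
  · intro e he
    have hpe : Real.exp (-(L / 2)) ≤ (L ^ (-a)) ^ e := by
      have : (L ^ (-a)) ^ e = Real.exp (-(a * (e : ℝ) * Real.log L)) := by
        rw [← Real.rpow_natCast, ← Real.rpow_mul hL0.le, Real.rpow_def_of_pos hL0]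
        congr 1
        ring
      rw [this]
      apply Real.exp_le_exp.mpr
      have hlog : 0 ≤ Real.log L := Real.log_nonneg (by linarith)
      have he' : (e : ℝ) ≤ C * L ^ (1 - δ / 2) := he.trans (by gcongr)
      have : a * (e : ℝ) * Real.log L ≤ a * (C * L ^ (1 - δ / 2)) * Real.log L := by
        gcongr
      nlinarith
    have hn1 : Real.exp L / 2 ≤ n := by
      have : (2 : ℝ) ≤ Real.exp L := by
        have := Real.add_one_le_exp L
        linarith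
      rw [hexp] at this ⊢
      linarith
    calc C * 2 ^ k ≤ C * L := by gcongr; linarith
      _ ≤ Real.exp (L / 2) / 2 := by linarith
      _ = Real.exp L / 2 * Real.exp (-(L / 2)) := by
          rw [div_mul_eq_mul_div, ← Real.exp_add]
          congr 2
          ring
      _ ≤ n * (L ^ (-a)) ^ e := by gcongr
  · have h10 : ((n : ℝ) + 1) ^ 6 = Real.exp (6 * L) := by
      rw [← hexp, ← Real.exp_nat_mul]
      norm_num
    have h11 : L ^ (2 : ℕ) ≤ (⌈L ^ (100 : ℝ)⌉₊ : ℝ) * (L ^ (-a)) ^ 32 := by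
      calc L ^ (2 : ℕ) = L ^ (2 : ℝ) := by
            rw [← Real.rpow_natCast]
            norm_num
        _ ≤ L ^ (100 + -(32 * a)) :=
            Real.rpow_le_rpow_of_exponent_le (by linarith) (by linarith)
        _ = L ^ (100 : ℝ) * (L ^ (-a)) ^ 32 := by
            rw [Real.rpow_add hL0, ← Real.rpow_natCast (L ^ (-a)), ← Real.rpow_mul hL0.le]
            congr 2
            push_cast
            ring
        _ ≤ _ := by gcongr
    have h9 : C = Real.exp (Real.log C) := (Real.exp_log hC).symm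
    have h12 : L ^ (2 : ℕ) / C ≤ (⌈L ^ (100 : ℝ)⌉₊ : ℝ) * (L ^ (-a)) ^ 32 / C := by gcongr
    rw [h10]
    nth_rw 1 [h9]
    rw [← Real.exp_add, ← Real.exp_add]
    apply Real.exp_le_one_iff.mpr
    linarith
  · generalize (⌈L ^ (100 : ℝ)⌉₊ : ℝ) = M at *
    generalize L ^ (100 : ℝ) = Y at *
    have h20 : (2 : ℝ) ^ k + M ≤ Y + 2 * Y := by linarith
    have h21 : C * (2 ^ k + M) ≤ C * (Y + 2 * Y) := mul_le_mul_of_nonneg_left h20 hC.le
    linarith

end Pool.Agent.R952.BP
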