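import Pool.Agent.R952.BP.Defs2

/-!
# Probability of the line event (piece ST11 of S19636, helper196)
-/

set_option autoImplicit false

namespace Pool.Agent.R952.BP

open Finset Pool.Agent.Helper91.BP

theorem PLine_Pr_subset {V : Type*} [Fintype V] [DecidableEq V] (p : ℝ) (S : Finset V) :
    Pr p (fun A : Finset V => S ⊆ A) = p ^ S.card := by
  classical
  have h := sum_prod (V := V) p (fun _ => 1) (fun v => if v ∈ S then 0 else 1)
  have h1 : ∏ v : V, (p * 1 + (1 - p) * (if v ∈ S then (0 : ℝ) else 1)) = p ^ S.card := by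
    rw [← Finset.prod_const, ← Finset.prod_subset (Finset.subset_univ S)]
    · refine Finset.prod_congr rfl (fun v hv => ?_)
      simp [hv]
    · intro v _ hv
      simp [hv]
  rw [← h1, ← h]
  unfold Pr
  refine Finset.sum_congr rfl (fun A _ => ?_)
  by_cases hS : S ⊆ A
  · rw [if_pos hS]
    have : ∏ v ∈ Aᶜ, (if v ∈ S then (0 : ℝ) else 1) = 1 := by
      refine Finset.prod_eq_one (fun v hv => ?_)
      rw [Finset.mem_compl] at hv
      rw [if_neg (fun h => hv (hS h))]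
    rw [this]
    simp
  · rw [if_neg hS]
    obtain ⟨v, hv, hvA⟩ := Finset.not_subset.1 hS
    have : ∏ v ∈ Aᶜ, (if v ∈ S then (0 : ℝ) else 1) = 0 := by
      refine Finset.prod_eq_zero (Finset.mem_compl.2 hvA) ?_
      simp [hv]
    rw [this]
    simp

/-- the boxes on a line -/
noncomputable def PLineS (N : ℕ) (c : Fin 6 → ZMod N) (i j : Fin 6) (t : ℕ) :
    Finset (Fin 6 → ZMod N) :=
  (Fintype.piFinset (fun l : Fin 6 => if l = i then ({0} : Finset ℤ) else {0, 1})).image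
    (fun v => c + red N (v + Pi.single j (2 * (t : ℤ))))

theorem PLineS_card (N : ℕ) (c : Fin 6 → ZMod N) (i j : Fin 6) (t : ℕ) :
    (PLineS N c i j t).card ≤ 32 := by
  refine Finset.card_image_le.trans ?_
  rw [Fintype.card_piFinset]
  fin_cases i <;> decide

theorem PLineS_sub (N : ℕ) (A : Finset (Fin 6 → ZMod N)) (c : Fin 6 → ZMod N) (i j : Fin 6)
    (t : ℕ) (h : PLineS N c i j t ⊆ A) : ∀ v : Site, v i = 0 →
    (∀ l, 0 ≤ v l ∧ v l ≤ 1) → c + red N (v + Pi.single j (2 * (t : ℤ))) ∈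
      (A : Set (Fin 6 → ZMod N)) := by
  intro v hv0 hv
  rw [Finset.mem_coe]
  refine h (Finset.mem_image.2 ⟨v, ?_, rfl⟩)
  rw [Fintype.mem_piFinset]
  intro l
  split_ifs with hl
  · rw [hl, hv0]; simp
  · have := hv l
    rw [Finset.mem_insert, Finset.mem_singleton]
    omega

theorem PLineS_disj (N : ℕ) [NeZero N] (M : ℕ) (hM : 2 * M ≤ N) (c : Fin 6 → ZMod N)
    (i j : Fin 6) (t t' : ℕ) (h : t < t') (h' : t' < M) :
    Disjoint (PLineS N c i j t) (PLineS N c i j t') := by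
  rw [Finset.disjoint_left]
  intro x hx hx'
  obtain ⟨v, hv, rfl⟩ := Finset.mem_image.1 hx
  obtain ⟨w, hw, hvw⟩ := Finset.mem_image.1 hx'
  have e1 := congrFun hvw j
  simp only [Pi.add_apply, red, Pi.single_eq_same, add_right_inj] at e1
  rw [ZMod.intCast_eq_intCast_iff] at e1
  rw [Fintype.mem_piFinset] at hv hw
  have a1 : 0 ≤ v j ∧ v j ≤ 1 := by
    have := hv j
    split_ifs at this with hl
    · rw [Finset.mem_singleton] at this; omega
    · rw [Finset.mem_insert, Finset.mem_singleton] at this; omega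
  have a2 : 0 ≤ w j ∧ w j ≤ 1 := by
    have := hw j
    split_ifs at this with hl
    · rw [Finset.mem_singleton] at this; omega
    · rw [Finset.mem_insert, Finset.mem_singleton] at this; omega
  have hN : (2 * M : ℤ) ≤ N := by exact_mod_cast hM
  have b1 : (w j + 2 * (t' : ℤ)) % N = w j + 2 * (t' : ℤ) :=
    Int.emod_eq_of_lt (by omega) (by omega)
  have b2 : (v j + 2 * (t : ℤ)) % N = v j + 2 * (t : ℤ) :=
    Int.emod_eq_of_lt (by omega) (by omega)
  unfold Int.ModEq at e1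
  rw [b1, b2] at e1
  omega

theorem prob_line (N : ℕ) [NeZero N] (M : ℕ) (p : ℝ) (hp0 : 0 ≤ p) (hp1 : p ≤ 1)
    (hM : 2 * M ≤ N) (hN : 2 ≤ N) :
    Pr p (fun A : Finset (Fin 6 → ZMod N) => ¬ lineOK N M (A : Set _)) ≤
      36 * N ^ 6 * Real.exp (-(M * p ^ 32)) := by
  classical
  have hp32 : p ^ 32 ≤ 1 := pow_le_one₀ hp0 hp1
  have h1 : ∀ q ∈ (Finset.univ : Finset ((Fin 6 → ZMod N) × Fin 6 × Fin 6)),
      Pr p (fun A : Finset (Fin 6 → ZMod N) => ∀ t, t < M → ¬ PLineS N q.1 q.2.1 q.2.2 t ⊆ A)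
        ≤ Real.exp (-(M * p ^ 32)) := by
    intro q _
    have h2 := Pr_prod_le hp0 hp1 (q := 1 - p ^ 32) (by linarith)
      (fun t => PLineS N q.1 q.2.1 q.2.2 t)
      (fun t A => ¬ PLineS N q.1 q.2.1 q.2.2 t ⊆ A) M
      (fun t _ A => by
        show (¬ PLineS N q.1 q.2.1 q.2.2 t ⊆ A) ↔
          ¬ (PLineS N q.1 q.2.1 q.2.2 t ⊆ A ∩ PLineS N q.1 q.2.1 q.2.2 t)
        rw [not_iff_not, Finset.subset_inter_iff]
        exact ⟨fun h => ⟨h, Finset.Subset.refl _⟩, fun h => h.1⟩)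
      (fun t t' h h' => PLineS_disj N M hM q.1 q.2.1 q.2.2 t t' h h')
      (fun t _ => by
        rw [Pr_not, PLine_Pr_subset]
        have := pow_le_pow_of_le_one hp0 hp1 (PLineS_card N q.1 q.2.1 q.2.2 t)
        linarith)
    refine h2.trans ?_
    have h3 : 1 - p ^ 32 ≤ Real.exp (-(p ^ 32)) := by
      have := Real.add_one_le_exp (-(p ^ 32))
      linarith
    calc (1 - p ^ 32) ^ M ≤ (Real.exp (-(p ^ 32))) ^ M :=
          pow_le_pow_left₀ (by linarith) h3 M
      _ = Real.exp (-(M * p ^ 32)) := by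
          rw [← Real.exp_nat_mul]; congr 1; ring
  calc Pr p (fun A : Finset (Fin 6 → ZMod N) => ¬ lineOK N M (A : Set _))
      ≤ Pr p (fun A : Finset (Fin 6 → ZMod N) =>
          ∃ q ∈ (Finset.univ : Finset ((Fin 6 → ZMod N) × Fin 6 × Fin 6)),
            ∀ t, t < M → ¬ PLineS N q.1 q.2.1 q.2.2 t ⊆ A) := by
        apply Pr_mono hp0 hp1
        intro A hA
        unfold lineOK at hA
        push Not at hA
        obtain ⟨c, i, j, _, h⟩ := hA
        refine ⟨(c, i, j), Finset.mem_univ _, fun t ht hsub => ?_⟩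
        obtain ⟨v, hv0, hv, hn⟩ := h t ht
        exact hn (PLineS_sub N A c i j t hsub v hv0 hv)
    _ ≤ _ := Pr_bUnion_le hp0 hp1 _ _
    _ ≤ ∑ _q ∈ (Finset.univ : Finset ((Fin 6 → ZMod N) × Fin 6 × Fin 6)),
          Real.exp (-(M * p ^ 32)) := Finset.sum_le_sum h1
    _ = 36 * N ^ 6 * Real.exp (-(M * p ^ 32)) := by
        rw [Finset.sum_const, Finset.card_univ, nsmul_eq_mul]
        congr 1
        rw [Fintype.card_prod, Fintype.card_prod, Fintype.card_fun, ZMod.card, Fintype.card_fin]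
        push_cast
        ring

end Pool.Agent.R952.BP
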