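import Pool.Agent.R952.BP.Defs2
import Pool.Agent.R952.BP.Pascal

/-!
Probability that a layer contains a nucleus and a trigger (helper496).
-/

set_option autoImplicit false

namespace Pool.Agent.R952.BP

open Finset Pool.Agent.Helper91.BP

namespace PLayer

section general

variable {V : Type*} [Fintype V] [DecidableEq V]

theorem pr_subset (p : ℝ) (D : Finset V) : Pr p (fun A => D ⊆ A) = p ^ D.card := by
  classical
  have h := sum_prod (V := V) p (fun _ => 1) (fun v => if v ∈ D then 0 else 1)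
  have h1 : Pr p (fun A => D ⊆ A) = ∑ A : Finset V, wt p A *
      ((∏ v ∈ A, (1 : ℝ)) * (∏ v ∈ Aᶜ, (if v ∈ D then (0 : ℝ) else 1))) := by
    unfold Pr
    apply Finset.sum_congr rfl
    intro A _
    by_cases hD : D ⊆ A
    · have : ∏ v ∈ Aᶜ, (if v ∈ D then (0 : ℝ) else 1) = 1 :=
        Finset.prod_eq_one (fun v hv => if_neg (fun hv' => (Finset.mem_compl.1 hv) (hD hv')))
      rw [if_pos hD, this]; simp
    · rw [if_neg hD]
      obtain ⟨v, hv, hvA⟩ := Finset.not_subset.1 hD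
      have : ∏ v ∈ Aᶜ, (if v ∈ D then (0 : ℝ) else 1) = 0 :=
        Finset.prod_eq_zero (Finset.mem_compl.2 hvA) (if_pos hv)
      rw [this]; simp
  rw [h1, h]
  have h2 : ∀ v : V, (p * 1 + (1 - p) * (if v ∈ D then (0 : ℝ) else 1)) =
      if v ∈ D then p else 1 := by
    intro v; split_ifs <;> ring
  rw [Finset.prod_congr rfl (fun v _ => h2 v), Finset.prod_ite, Finset.prod_const_one, mul_one,
    Finset.prod_const]
  congr 2
  ext v; simp

theorem pr_avoid (p : ℝ) (D : Finset V) : Pr p (fun A => Disjoint D A) = (1 - p) ^ D.card := by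
  classical
  have h := sum_prod (V := V) p (fun v => if v ∈ D then 0 else 1) (fun _ => 1)
  have h1 : Pr p (fun A => Disjoint D A) = ∑ A : Finset V, wt p A *
      ((∏ v ∈ A, (if v ∈ D then (0 : ℝ) else 1)) * (∏ v ∈ Aᶜ, (1 : ℝ))) := by
    unfold Pr
    apply Finset.sum_congr rfl
    intro A _
    by_cases hD : Disjoint D A
    · have : ∏ v ∈ A, (if v ∈ D then (0 : ℝ) else 1) = 1 :=
        Finset.prod_eq_one (fun v hv => if_neg (fun hv' => (Finset.disjoint_left.1 hD) hv' hv))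
      rw [if_pos hD, this]; simp
    · rw [if_neg hD]
      obtain ⟨v, hv, hvA⟩ := Finset.not_disjoint_iff.1 hD
      have : ∏ v ∈ A, (if v ∈ D then (0 : ℝ) else 1) = 0 :=
        Finset.prod_eq_zero hvA (if_pos hv)
      rw [this]; simp
  rw [h1, h]
  have h2 : ∀ v : V, (p * (if v ∈ D then (0 : ℝ) else 1) + (1 - p) * 1) =
      if v ∈ D then (1 - p) else 1 := by
    intro v; split_ifs <;> ring
  rw [Finset.prod_congr rfl (fun v _ => h2 v), Finset.prod_ite, Finset.prod_const_one, mul_one,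
    Finset.prod_const]
  congr 2
  ext v; simp

theorem pr_or_disj (p : ℝ) (E F : Finset V → Prop) (h : ∀ A, E A → ¬ F A) :
    Pr p (fun A => E A ∨ F A) = Pr p E + Pr p F := by
  unfold Pr
  rw [← Finset.sum_add_distrib]
  apply Finset.sum_congr rfl
  intro A _
  by_cases hE : E A
  · simp [hE, h A hE]
  · by_cases hF : F A <;> simp [hE, hF]

set_option linter.unusedSectionVars false

theorem dep_subset (D T : Finset V) (h : D ⊆ T) : Dep T (fun A => D ⊆ A) := by
  intro A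
  constructor
  · intro hA x hx; exact Finset.mem_inter.2 ⟨hA hx, h hx⟩
  · intro hA x hx; exact (Finset.mem_inter.1 (hA hx)).1

theorem dep_avoid (D T : Finset V) (h : D ⊆ T) : Dep T (fun A => Disjoint D A) := by
  intro A
  simp only [Finset.disjoint_left]
  constructor
  · intro hA x hx hx'; exact hA hx (Finset.mem_inter.1 hx').1
  · intro hA x hx hx'; exact hA hx (Finset.mem_inter.2 ⟨hx', h hx⟩)

theorem dep_not {T : Finset V} {E : Finset V → Prop} (h : Dep T E) : Dep T (fun A => ¬ E A) :=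
  fun A => not_congr (h A)

theorem dep_and {T : Finset V} {E F : Finset V → Prop} (h : Dep T E) (h' : Dep T F) :
    Dep T (fun A => E A ∧ F A) := fun A => and_congr (h A) (h' A)

theorem dep_ex {ι : Type*} {T : Finset V} (s : Finset ι) {E : ι → Finset V → Prop}
    (h : ∀ i ∈ s, Dep T (E i)) : Dep T (fun A => ∃ i ∈ s, E i A) := by
  intro A
  constructor
  · rintro ⟨i, hi, hE⟩; exact ⟨i, hi, (h i hi A).1 hE⟩
  · rintro ⟨i, hi, hE⟩; exact ⟨i, hi, (h i hi A).2 hE⟩

theorem dep_all {ι : Type*} {T : Finset V} (s : Finset ι) {E : ι → Finset V → Prop}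
    (h : ∀ i ∈ s, Dep T (E i)) : Dep T (fun A => ∀ i ∈ s, E i A) := by
  intro A
  constructor
  · intro hE i hi; exact (h i hi A).1 (hE i hi)
  · intro hE i hi; exact (h i hi A).2 (hE i hi)

theorem pr_prod {ι : Type*} [DecidableEq ι] {p : ℝ} (h0 : 0 ≤ p) (h1 : p ≤ 1) {q : ℝ}
    (hq : 0 ≤ q) (s : Finset ι)
    (T : ι → Finset V) (E : ι → Finset V → Prop)
    (hdep : ∀ i ∈ s, Dep (T i) (E i))
    (hdis : ∀ i ∈ s, ∀ j ∈ s, i ≠ j → Disjoint (T i) (T j))
    (hP : ∀ i ∈ s, Pr p (E i) ≤ q) :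
    Pr p (fun A => ∀ i ∈ s, E i A) ≤ q ^ s.card := by
  induction s using Finset.induction_on with
  | empty => rw [Finset.card_empty, pow_zero]; exact Pr_le_one h0 h1 _
  | insert a s ha ih =>
    have hih := ih (fun i hi => hdep i (Finset.mem_insert_of_mem hi))
      (fun i hi j hj => hdis i (Finset.mem_insert_of_mem hi) j (Finset.mem_insert_of_mem hj))
      (fun i hi => hP i (Finset.mem_insert_of_mem hi))
    have hd1 : Dep (s.biUnion T) (fun A => ∀ i ∈ s, E i A) :=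
      dep_all s (fun i hi => (hdep i (Finset.mem_insert_of_mem hi)).mono
        (Finset.subset_biUnion_of_mem T hi))
    have hind := Pr_indep p hd1 (hdep a (Finset.mem_insert_self a s)) (by
      rw [Finset.disjoint_biUnion_left]
      intro i hi
      exact hdis i (Finset.mem_insert_of_mem hi) a (Finset.mem_insert_self a s)
        (fun h => ha (h ▸ hi)))
    have hc : Pr p (fun A => ∀ i ∈ insert a s, E i A)
        = Pr p (fun A => (∀ i ∈ s, E i A) ∧ E a A) := by
      apply Pr_congr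
      intro A
      constructor
      · intro h
        exact ⟨fun i hi => h i (Finset.mem_insert_of_mem hi), h a (Finset.mem_insert_self a s)⟩
      · rintro ⟨h2, h3⟩ i hi
        rcases Finset.mem_insert.1 hi with rfl | hi
        · exact h3
        · exact h2 i hi
    rw [hc, hind, Finset.card_insert_of_notMem ha, pow_succ]
    exact mul_le_mul hih (hP a (Finset.mem_insert_self a s)) (Pr_nonneg h0 h1 _)
      (pow_nonneg hq _)

/-- the first hit has an independent mark -/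
theorem first_hit {ι : Type*} [DecidableEq ι] {p : ℝ} (h0 : 0 ≤ p) (h1 : p ≤ 1) {τ : ℝ}
    (s : Finset ι) (S R : ι → Finset V) (E F : ι → Finset V → Prop)
    (hE : ∀ i ∈ s, Dep (S i) (E i)) (hF : ∀ i ∈ s, Dep (R i) (F i))
    (hdis : ∀ i ∈ s, ∀ j ∈ s, Disjoint (S i) (R j))
    (hP : ∀ i ∈ s, τ ≤ Pr p (F i)) :
    τ * Pr p (fun A => ∃ i ∈ s, E i A) ≤ Pr p (fun A => ∃ i ∈ s, E i A ∧ F i A) := by
  induction s using Finset.induction_on with
  | empty =>
    rw [Pr_false (V := V) p (E := fun A => ∃ i ∈ (∅ : Finset ι), E i A) (by simp), mul_zero]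
    exact Pr_nonneg h0 h1 _
  | insert a s ha ih =>
    have hih := ih (fun i hi => hE i (Finset.mem_insert_of_mem hi))
      (fun i hi => hF i (Finset.mem_insert_of_mem hi))
      (fun i hi j hj => hdis i (Finset.mem_insert_of_mem hi) j (Finset.mem_insert_of_mem hj))
      (fun i hi => hP i (Finset.mem_insert_of_mem hi))
    have hd1 : Dep ((insert a s).biUnion S) (fun A => ¬ (∃ i ∈ s, E i A) ∧ E a A) :=
      dep_and (dep_not (dep_ex s (fun i hi => (hE i (Finset.mem_insert_of_mem hi)).mono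
        (Finset.subset_biUnion_of_mem S (Finset.mem_insert_of_mem hi)))))
        ((hE a (Finset.mem_insert_self a s)).mono
          (Finset.subset_biUnion_of_mem S (Finset.mem_insert_self a s)))
    have hind := Pr_indep p hd1 (hF a (Finset.mem_insert_self a s)) (by
      rw [Finset.disjoint_biUnion_left]
      intro i hi
      exact hdis i hi a (Finset.mem_insert_self a s))
    have e1 : Pr p (fun A => ∃ i ∈ insert a s, E i A) =
        Pr p (fun A => ∃ i ∈ s, E i A) + Pr p (fun A => ¬ (∃ i ∈ s, E i A) ∧ E a A) := by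
      rw [← pr_or_disj]
      · apply Pr_congr
        intro A
        constructor
        · rintro ⟨i, hi, hEi⟩
          by_cases h : ∃ i ∈ s, E i A
          · exact Or.inl h
          · rcases Finset.mem_insert.1 hi with rfl | hi
            · exact Or.inr ⟨h, hEi⟩
            · exact absurd ⟨i, hi, hEi⟩ h
        · rintro (⟨i, hi, hEi⟩ | ⟨_, hEa⟩)
          · exact ⟨i, Finset.mem_insert_of_mem hi, hEi⟩
          · exact ⟨a, Finset.mem_insert_self a s, hEa⟩
      · intro A h2 h3; exact h3.1 h2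
    have e2 : Pr p (fun A => ∃ i ∈ s, E i A ∧ F i A) +
        Pr p (fun A => (¬ (∃ i ∈ s, E i A) ∧ E a A) ∧ F a A) ≤
        Pr p (fun A => ∃ i ∈ insert a s, E i A ∧ F i A) := by
      rw [← pr_or_disj]
      · apply Pr_mono h0 h1
        rintro A (⟨i, hi, hEi⟩ | ⟨⟨_, hEa⟩, hFa⟩)
        · exact ⟨i, Finset.mem_insert_of_mem hi, hEi⟩
        · exact ⟨a, Finset.mem_insert_self a s, hEa, hFa⟩
      · rintro A ⟨i, hi, hEi, _⟩ ⟨⟨h3, _⟩, _⟩
        exact h3 ⟨i, hi, hEi⟩
    have e3 : τ * Pr p (fun A => ¬ (∃ i ∈ s, E i A) ∧ E a A) ≤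
        Pr p (fun A => (¬ (∃ i ∈ s, E i A) ∧ E a A) ∧ F a A) := by
      rw [hind, mul_comm τ]
      exact mul_le_mul_of_nonneg_left (hP a (Finset.mem_insert_self a s)) (Pr_nonneg h0 h1 _)
    rw [e1, mul_add]
    linarith

/-- `1 - (1 - x)^n ≥ n x / 2` when `n x ≤ 1`. -/
theorem one_sub_pow {x : ℝ} (hx0 : 0 ≤ x) (hx1 : x ≤ 1) (n : ℕ) (hn : n * x ≤ 1) :
    n * x / 2 ≤ 1 - (1 - x) ^ n := by
  have h1 : (1 - x) ^ n ≤ Real.exp (-(n * x)) := by
    calc (1 - x) ^ n ≤ (Real.exp (-x)) ^ n :=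
          pow_le_pow_left₀ (by linarith) (by linarith [Real.add_one_le_exp (-x)]) n
      _ = Real.exp (-(n * x)) := by rw [← Real.exp_nat_mul]; congr 1; ring
  have h2 : Real.exp (-(n * x)) ≤ 1 - n * x / 2 := by
    have hy0 : (0 : ℝ) ≤ n * x := by positivity
    have h3 : Real.exp (-(n * x)) ≤ 1 / (1 + n * x) := by
      rw [Real.exp_neg, ← one_div]
      exact one_div_le_one_div_of_le (by linarith) (by linarith [Real.add_one_le_exp (n * x)])
    have h4 : 1 / (1 + n * x) ≤ 1 - n * x / 2 := by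
      rw [div_le_iff₀ (by linarith)]
      nlinarith
    linarith
  linarith

end general

/-- the site with the natural coordinates -/
def mk (x0 x1 x2 x3 x4 : ℕ) : Site := ![(x0 : ℤ), x1, x2, x3, x4, 0]

theorem cell_mk (u v a b d r : ℕ) :
    cell (mk u v a b d) 0 0 (r : ℤ) = mk u v (a + r) b d := by
  funext j
  fin_cases j <;> simp [cell, mk]

theorem trg_mk (u v a b d i j : ℕ) :
    trg (mk u v a b d) (i : ℤ) (j : ℤ) = mk (u + i) (v + j) a (b + 1) d := by
  funext l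
  fin_cases l <;> simp [trg, cell, mk]

/-- the point of the torus -/
def psi (N : ℕ) (c : Fin 6 → ZMod N) (x0 x1 x2 x3 x4 : ℕ) : Fin 6 → ZMod N :=
  c + red N (mk x0 x1 x2 x3 x4)

theorem nat_inj {N a b : ℕ} (ha : a < N) (hb : b < N) (h : (a : ZMod N) = b) : a = b := by
  rw [ZMod.natCast_eq_natCast_iff'] at h
  rwa [Nat.mod_eq_of_lt ha, Nat.mod_eq_of_lt hb] at h

theorem psi_inj {N : ℕ} {c : Fin 6 → ZMod N} {x0 x1 x2 x3 x4 y0 y1 y2 y3 y4 : ℕ}
    (h : psi N c x0 x1 x2 x3 x4 = psi N c y0 y1 y2 y3 y4)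
    (hx0 : x0 < N) (hx1 : x1 < N) (hx2 : x2 < N) (hx3 : x3 < N) (hx4 : x4 < N)
    (hy0 : y0 < N) (hy1 : y1 < N) (hy2 : y2 < N) (hy3 : y3 < N) (hy4 : y4 < N) :
    x0 = y0 ∧ x1 = y1 ∧ x2 = y2 ∧ x3 = y3 ∧ x4 = y4 := by
  have h1 : red N (mk x0 x1 x2 x3 x4) = red N (mk y0 y1 y2 y3 y4) := add_left_cancel h
  refine ⟨nat_inj hx0 hy0 ?_, nat_inj hx1 hy1 ?_, nat_inj hx2 hy2 ?_, nat_inj hx3 hy3 ?_,
    nat_inj hx4 hy4 ?_⟩
  · simpa [red, mk] using congrFun h1 0
  · simpa [red, mk] using congrFun h1 1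
  · simpa [red, mk] using congrFun h1 2
  · simpa [red, mk] using congrFun h1 3
  · simpa [red, mk] using congrFun h1 4

section main

variable {N : ℕ} {c : Fin 6 → ZMod N}

/-- the nucleus sites -/
def SS (N : ℕ) (c : Fin 6 → ZMod N) (u v a b d : ℕ) : Finset (Fin 6 → ZMod N) :=
  ({1, 2, 4} : Finset ℕ).image (fun r => psi N c u v (a + r) b d)

/-- the trigger sites -/
def RT (N k : ℕ) (c : Fin 6 → ZMod N) (u v a b d : ℕ) : Finset (Fin 6 → ZMod N) :=
  ((range (2 ^ k) ×ˢ range (2 ^ k)).filter (fun q => sym q.1 q.2 = .o)).image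
    (fun q => psi N c (u + q.1) (v + q.2) a (b + 1) d)

/-- the region of a plane -/
def TT (N k : ℕ) (c : Fin 6 → ZMod N) (a b d : ℕ) : Finset (Fin 6 → ZMod N) :=
  (((range (2 ^ (k + 1)) ×ˢ range (2 ^ (k + 1))) ×ˢ range 8) ×ˢ range 2).image
    (fun q => psi N c q.1.1.1 q.1.1.2 (8 * a + q.1.2) (2 * b + q.2) d)

/-- the event of a plane -/
def EP (N k : ℕ) (c : Fin 6 → ZMod N) (a b d : ℕ) (A : Finset (Fin 6 → ZMod N)) : Prop :=
  ∃ q ∈ range (2 ^ k) ×ˢ range (2 ^ k), SS N c q.1 q.2 (8 * a) (2 * b) d ⊆ A ∧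
    ¬ Disjoint (RT N k c q.1 q.2 (8 * a) (2 * b) d) A

theorem SS_sub {k u v a b d : ℕ} (hu : u < 2 ^ k) (hv : v < 2 ^ k) :
    SS N c u v (8 * a) (2 * b) d ⊆ TT N k c a b d := by
  intro x hx
  obtain ⟨r, hr, rfl⟩ := Finset.mem_image.1 hx
  refine Finset.mem_image.2 ⟨(((u, v), r), 0), ?_, rfl⟩
  have h2 : 2 ^ (k + 1) = 2 * 2 ^ k := by ring
  simp only [Finset.mem_insert, Finset.mem_singleton] at hr
  simp only [Finset.mem_product, Finset.mem_range]
  omega

theorem RT_sub {k u v a b d : ℕ} (hu : u < 2 ^ k) (hv : v < 2 ^ k) :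
    RT N k c u v (8 * a) (2 * b) d ⊆ TT N k c a b d := by
  intro x hx
  obtain ⟨q, hq, rfl⟩ := Finset.mem_image.1 hx
  refine Finset.mem_image.2 ⟨(((u + q.1, v + q.2), 0), 1), ?_, rfl⟩
  have h2 : 2 ^ (k + 1) = 2 * 2 ^ k := by ring
  simp only [Finset.mem_filter, Finset.mem_product, Finset.mem_range] at hq
  simp only [Finset.mem_product, Finset.mem_range]
  omega

theorem EP_dep [NeZero N] (k a b d : ℕ) : Dep (TT N k c a b d) (EP N k c a b d) := by
  unfold EP
  apply dep_ex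
  intro q hq
  have hq' : q.1 < 2 ^ k ∧ q.2 < 2 ^ k := by simpa using hq
  exact dep_and (dep_subset _ _ (SS_sub hq'.1 hq'.2))
    (dep_not (dep_avoid _ _ (RT_sub hq'.1 hq'.2)))

theorem TT_disj {k a b d a' b' d' : ℕ} (hN : 2 ^ (k + 1) < N) (ha : 8 * a + 8 ≤ 2 ^ (k + 1))
    (hb : 2 * b + 2 ≤ 2 ^ (k + 1)) (hd : d < 2 ^ (k + 1)) (ha' : 8 * a' + 8 ≤ 2 ^ (k + 1))
    (hb' : 2 * b' + 2 ≤ 2 ^ (k + 1)) (hd' : d' < 2 ^ (k + 1))
    (hne : ((a, b), d) ≠ ((a', b'), d')) : Disjoint (TT N k c a b d) (TT N k c a' b' d') := by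
  rw [Finset.disjoint_left]
  intro x hx hx'
  obtain ⟨q, hq, rfl⟩ := Finset.mem_image.1 hx
  obtain ⟨q', hq', he⟩ := Finset.mem_image.1 hx'
  simp only [Finset.mem_product, Finset.mem_range] at hq hq'
  obtain ⟨e0, e1, e2, e3, e4⟩ := psi_inj he (by omega) (by omega) (by omega) (by omega) (by omega)
    (by omega) (by omega) (by omega) (by omega) (by omega)
  apply hne
  have e5 : a = a' := by omega
  have e6 : b = b' := by omega
  rw [e5, e6, e4]

theorem EP_layer {k a b d : ℕ} (hk : 18 ≤ k) (ha : 8 * a < 2 ^ k) (hb : 2 * b < 2 ^ k)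
    (hd : d < 2 ^ k) {A : Finset (Fin 6 → ZMod N)} (h : EP N k c a b d A) :
    layerOK N k (A : Set _) c := by
  obtain ⟨q, hq, hS, hR⟩ := h
  have hq' : q.1 < 2 ^ k ∧ q.2 < 2 ^ k := by simpa using hq
  obtain ⟨x, hx, hxA⟩ := Finset.not_disjoint_iff.1 hR
  obtain ⟨t, ht, rfl⟩ := Finset.mem_image.1 hx
  simp only [Finset.mem_filter, Finset.mem_product, Finset.mem_range] at ht
  have hk18 : (2 : ℤ) ^ 18 ≤ 2 ^ k := pow_le_pow_right₀ (by norm_num) hk
  refine ⟨mk q.1 q.2 (8 * a) (2 * b) d, by simp [mk], ?_, ?_, ?_, ?_, ?_, ?_, ?_, t.1, t.2,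
    ht.1.1, ht.1.2, ht.2, ?_⟩
  · intro l
    fin_cases l <;> simp [mk]
  · have := hq'.1
    simp only [mk, Matrix.cons_val_zero]
    exact_mod_cast this
  · have h1 : ((q.2 : ℕ) : ℤ) < 2 ^ k := by exact_mod_cast hq'.2
    have h3 : (mk q.1 q.2 (8 * a) (2 * b) d) 1 = ((q.2 : ℕ) : ℤ) := by simp [mk]
    rw [h3]
    exact h1
  · have h1 : ((8 * a : ℕ) : ℤ) < 2 ^ k := by exact_mod_cast ha
    have h2 : (2 : ℤ) ^ (k + 1) = 2 ^ k + 2 ^ k := by ring
    have h3 : (mk q.1 q.2 (8 * a) (2 * b) d) 2 = ((8 * a : ℕ) : ℤ) := by simp [mk]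
    rw [h3, h2]
    linarith
  · have h1 : ((2 * b : ℕ) : ℤ) < 2 ^ k := by exact_mod_cast hb
    have h3 : (mk q.1 q.2 (8 * a) (2 * b) d) 3 = ((2 * b : ℕ) : ℤ) := by simp [mk]
    rw [h3]
    exact h1
  · have h1 : ((d : ℕ) : ℤ) < 2 ^ k := by exact_mod_cast hd
    have h3 : (mk q.1 q.2 (8 * a) (2 * b) d) 4 = ((d : ℕ) : ℤ) := by simp [mk]
    rw [h3]
    exact h1
  · intro r hr
    have hr' : ∃ r' ∈ ({1, 2, 4} : Finset ℕ), r = (r' : ℤ) := by
      simp only [code, Finset.mem_insert, Finset.mem_singleton] at hr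
      rcases hr with rfl | rfl | rfl
      · exact ⟨1, by simp, by norm_num⟩
      · exact ⟨2, by simp, by norm_num⟩
      · exact ⟨4, by simp, by norm_num⟩
    obtain ⟨r', hr', rfl⟩ := hr'
    rw [cell_mk]
    exact hS (Finset.mem_image.2 ⟨r', hr', rfl⟩)
  · rw [trg_mk]
    exact hxA

theorem SS_card (u v a b d : ℕ) : (SS N c u v a b d).card ≤ 3 := by
  refine le_trans Finset.card_image_le ?_
  exact Finset.card_le_three

theorem EP_prob [NeZero N] {k a b d : ℕ} {p : ℝ} (hp0 : 0 < p) (hp1 : p < 1) (hk : 3 ≤ k)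
    (hN : 2 ^ (k + 1) < N) (ha : 8 * a + 8 ≤ 2 ^ (k + 1))
    (hb : 2 * b + 2 ≤ 2 ^ (k + 1)) (hd : d < 2 ^ (k + 1)) (h4 : 4 ^ k * p ^ 3 ≤ 1)
    (h3 : 3 ^ k * p ≤ 1) : 12 ^ k * p ^ 4 / 12 ≤ Pr p (EP N k c a b d) := by
  have h2 : 2 ^ (k + 1) = 2 * 2 ^ k := by ring
  have hcard : ∀ u v : ℕ, u < 2 ^ k → v < 2 ^ k → (RT N k c u v (8 * a) (2 * b) d).card =
      ((range (2 ^ k) ×ˢ range (2 ^ k)).filter (fun q => sym q.1 q.2 = .o)).card := by
    intro u v hu hv
    apply Finset.card_image_of_injOn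
    intro q hq q' hq' he
    simp only [Finset.coe_filter, Finset.mem_product, Finset.mem_range, Set.mem_ofPred_eq]
      at hq hq'
    obtain ⟨e0, e1, -, -, -⟩ := psi_inj he (by omega) (by omega) (by omega) (by omega) (by omega)
      (by omega) (by omega) (by omega) (by omega) (by omega)
    exact Prod.ext (by omega) (by omega)
  have hT : ∀ q ∈ range (2 ^ k) ×ˢ range (2 ^ k), 3 ^ k * p / 6 ≤
      Pr p (fun A => ¬ Disjoint (RT N k c q.1 q.2 (8 * a) (2 * b) d) A) := by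
    intro q hq
    have hq' : q.1 < 2 ^ k ∧ q.2 < 2 ^ k := by simpa using hq
    rw [Pr_not, pr_avoid, hcard _ _ hq'.1 hq'.2]
    have n1 := sym_one_le k
    have n2 := sym_one_ge k hk
    set n := ((range (2 ^ k) ×ˢ range (2 ^ k)).filter (fun q => sym q.1 q.2 = .o)).card
    have n1' : (n : ℝ) ≤ 3 ^ k := by exact_mod_cast n1
    have n2' : (3 : ℝ) ^ k ≤ 3 * n := by exact_mod_cast n2
    have h5 := one_sub_pow hp0.le hp1.le n
      (le_trans (mul_le_mul_of_nonneg_right n1' hp0.le) h3)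
    have h6 : 3 ^ k * p / 6 ≤ n * p / 2 := by nlinarith
    linarith
  have hS : 4 ^ k * p ^ 3 / 2 ≤ Pr p (fun A => ∃ q ∈ range (2 ^ k) ×ˢ range (2 ^ k),
      SS N c q.1 q.2 (8 * a) (2 * b) d ⊆ A) := by
    have e1 : Pr p (fun A => ∃ q ∈ range (2 ^ k) ×ˢ range (2 ^ k),
        SS N c q.1 q.2 (8 * a) (2 * b) d ⊆ A) = 1 -
        Pr p (fun A => ∀ q ∈ range (2 ^ k) ×ˢ range (2 ^ k),
        ¬ SS N c q.1 q.2 (8 * a) (2 * b) d ⊆ A) := by
      rw [← Pr_not]
      apply Pr_congr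
      intro A
      push Not
      rfl
    have hp3 : p ^ 3 ≤ 1 := pow_le_one₀ hp0.le hp1.le
    have e2 := pr_prod hp0.le hp1.le (q := 1 - p ^ 3) (by linarith)
      (range (2 ^ k) ×ˢ range (2 ^ k)) (fun q => SS N c q.1 q.2 (8 * a) (2 * b) d)
      (fun q A => ¬ SS N c q.1 q.2 (8 * a) (2 * b) d ⊆ A)
      (fun q _ => dep_not (dep_subset _ _ (Finset.Subset.refl _)))
      (by
        intro q hq q' hq' hne
        have hq1 : q.1 < 2 ^ k ∧ q.2 < 2 ^ k := by simpa using hq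
        have hq2 : q'.1 < 2 ^ k ∧ q'.2 < 2 ^ k := by simpa using hq'
        rw [Finset.disjoint_left]
        intro x hx hx'
        obtain ⟨r, hr, rfl⟩ := Finset.mem_image.1 hx
        obtain ⟨r', hr', he⟩ := Finset.mem_image.1 hx'
        simp only [Finset.mem_insert, Finset.mem_singleton] at hr hr'
        obtain ⟨e0, e1, -, -, -⟩ := psi_inj he (by omega) (by omega) (by omega) (by omega)
          (by omega) (by omega) (by omega) (by omega) (by omega) (by omega)
        exact hne (Prod.ext (by omega) (by omega)))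
      (by
        intro q hq
        rw [Pr_not, pr_subset]
        have := pow_le_pow_of_le_one hp0.le hp1.le (SS_card (N := N) (c := c) q.1 q.2 (8 * a)
          (2 * b) d)
        linarith)
    have e3 : (range (2 ^ k) ×ˢ range (2 ^ k)).card = 4 ^ k := by
      rw [Finset.card_product, Finset.card_range, ← mul_pow]; norm_num
    rw [e3] at e2
    have h5 := one_sub_pow (pow_nonneg hp0.le 3) hp3 (4 ^ k) (by exact_mod_cast h4)
    push_cast at h5
    rw [e1]
    linarith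
  have hfh := first_hit hp0.le hp1.le (τ := 3 ^ k * p / 6) (range (2 ^ k) ×ˢ range (2 ^ k))
    (fun q => SS N c q.1 q.2 (8 * a) (2 * b) d) (fun q => RT N k c q.1 q.2 (8 * a) (2 * b) d)
    (fun q A => SS N c q.1 q.2 (8 * a) (2 * b) d ⊆ A)
    (fun q A => ¬ Disjoint (RT N k c q.1 q.2 (8 * a) (2 * b) d) A)
    (fun q _ => dep_subset _ _ (Finset.Subset.refl _))
    (fun q _ => dep_not (dep_avoid _ _ (Finset.Subset.refl _)))
    (by
      intro q hq q' hq'
      have hq1 : q.1 < 2 ^ k ∧ q.2 < 2 ^ k := by simpa using hq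
      have hq2 : q'.1 < 2 ^ k ∧ q'.2 < 2 ^ k := by simpa using hq'
      rw [Finset.disjoint_left]
      intro x hx hx'
      obtain ⟨r, hr, rfl⟩ := Finset.mem_image.1 hx
      obtain ⟨t, ht, he⟩ := Finset.mem_image.1 hx'
      simp only [Finset.mem_insert, Finset.mem_singleton] at hr
      simp only [Finset.mem_filter, Finset.mem_product, Finset.mem_range] at ht
      obtain ⟨-, -, -, e3, -⟩ := psi_inj he (by omega) (by omega) (by omega) (by omega)
        (by omega) (by omega) (by omega) (by omega) (by omega) (by omega)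
      omega) hT
  have hfin : 12 ^ k * p ^ 4 / 12 ≤ 3 ^ k * p / 6 * Pr p (fun A => ∃ q ∈ range (2 ^ k) ×ˢ
      range (2 ^ k), SS N c q.1 q.2 (8 * a) (2 * b) d ⊆ A) := by
    have h7 : (12 : ℝ) ^ k * p ^ 4 / 12 = 3 ^ k * p / 6 * (4 ^ k * p ^ 3 / 2) := by
      rw [show (12 : ℝ) = 3 * 4 by norm_num, mul_pow]; ring
    rw [h7]
    exact mul_le_mul_of_nonneg_left hS (by positivity)
  exact le_trans hfin hfh

end main

end PLayer

open PLayer in
/-- A layer contains a nucleus and a trigger with large probability. -/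
theorem prob_layer : ∃ C0 : ℝ, 0 < C0 ∧ ∀ (N : ℕ) [NeZero N] (k : ℕ) (p : ℝ)
    (c : Fin 6 → ZMod N), 0 < p → p < 1 → C0 ≤ 2 ^ k → C0 * 2 ^ k ≤ N → 4 ^ k * p ^ 3 ≤ 1 →
    3 ^ k * p ≤ 1 → Pr p (fun A : Finset (Fin 6 → ZMod N) => ¬ layerOK N k (A : Set _) c) ≤
      Real.exp (-(96 ^ k * p ^ 4 / C0)) := by
  refine ⟨2 ^ 18, by norm_num, ?_⟩
  intro N _ k p c hp0 hp1 hk hN h4 h3
  have hk' : 18 ≤ k := by
    by_contra hlt
    have h1 : (2 : ℝ) ^ k < 2 ^ 18 := pow_lt_pow_right₀ (by norm_num) (by omega)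
    linarith
  have hN' : 2 ^ (k + 1) < N := by
    have h1 : ((2 ^ (k + 1) : ℕ) : ℝ) < N := by
      refine lt_of_lt_of_le ?_ hN
      push_cast
      rw [pow_succ, mul_comm]
      have : (0 : ℝ) < 2 ^ k := by positivity
      nlinarith
    exact_mod_cast h1
  obtain ⟨m, rfl⟩ : ∃ m, k = m + 3 := ⟨k - 3, by omega⟩
  have e1 : 2 ^ (m + 3) = 8 * 2 ^ m := by ring
  have e2 : 2 ^ (m + 3 + 1) = 16 * 2 ^ m := by ring
  have e3 : 2 ^ (m + 2) = 4 * 2 ^ m := by ring
  set ρ : ℝ := 12 ^ (m + 3) * p ^ 4 / 12 with hρ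
  have hρ0 : 0 ≤ ρ := by positivity
  have hρ1 : ρ ≤ 1 := by
    have h7 : ρ = 3 ^ (m + 3) * p / 6 * (4 ^ (m + 3) * p ^ 3 / 2) := by
      rw [hρ, show (12 : ℝ) = 3 * 4 by norm_num, mul_pow]; ring
    rw [h7]
    have : 0 ≤ (3 : ℝ) ^ (m + 3) * p := by positivity
    have : 0 ≤ (4 : ℝ) ^ (m + 3) * p ^ 3 := by positivity
    nlinarith
  have key := pr_prod hp0.le hp1.le (q := 1 - ρ) (by linarith)
    ((range (2 ^ m) ×ˢ range (2 ^ (m + 2))) ×ˢ range (2 ^ (m + 3)))
    (fun q => TT N (m + 3) c q.1.1 q.1.2 q.2)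
    (fun q A => ¬ EP N (m + 3) c q.1.1 q.1.2 q.2 A)
    (fun q _ => dep_not (EP_dep _ _ _ _))
    (by
      intro q hq q' hq' hne
      simp only [Finset.mem_product, Finset.mem_range] at hq hq'
      exact TT_disj hN' (by omega) (by omega) (by omega) (by omega) (by omega) (by omega) hne)
    (by
      intro q hq
      simp only [Finset.mem_product, Finset.mem_range] at hq
      rw [Pr_not]
      have := EP_prob (N := N) (c := c) (a := q.1.1) (b := q.1.2) (d := q.2) hp0 hp1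
        (by omega) hN' (by omega) (by omega) (by omega) h4 h3
      linarith)
  have hcard : ((range (2 ^ m) ×ˢ range (2 ^ (m + 2))) ×ˢ range (2 ^ (m + 3))).card =
      2 ^ m * 2 ^ (m + 2) * 2 ^ (m + 3) := by
    rw [Finset.card_product, Finset.card_product, Finset.card_range, Finset.card_range,
      Finset.card_range]
  rw [hcard] at key
  have h8 : (1 - ρ) ^ (2 ^ m * 2 ^ (m + 2) * 2 ^ (m + 3)) ≤
      Real.exp (-(ρ * (2 ^ m * 2 ^ (m + 2) * 2 ^ (m + 3)))) := by
    calc (1 - ρ) ^ (2 ^ m * 2 ^ (m + 2) * 2 ^ (m + 3))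
        ≤ (Real.exp (-ρ)) ^ (2 ^ m * 2 ^ (m + 2) * 2 ^ (m + 3)) :=
          pow_le_pow_left₀ (by linarith) (by linarith [Real.add_one_le_exp (-ρ)]) _
      _ = Real.exp (-(ρ * (2 ^ m * 2 ^ (m + 2) * 2 ^ (m + 3)))) := by
          rw [← Real.exp_nat_mul]; congr 1; push_cast; ring
  have h9 : ρ * (2 ^ m * 2 ^ (m + 2) * 2 ^ (m + 3)) = 96 ^ (m + 3) * p ^ 4 / 192 := by
    have h10 : (2 : ℝ) ^ m * 2 ^ (m + 2) * 2 ^ (m + 3) = 8 ^ (m + 3) / 16 := by
      rw [show (8 : ℝ) = 2 ^ 3 by norm_num, ← pow_mul]; ring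
    rw [h10, hρ, show (96 : ℝ) = 12 * 8 by norm_num, mul_pow]; ring
  have h11 : (96 : ℝ) ^ (m + 3) * p ^ 4 / 2 ^ 18 ≤ 96 ^ (m + 3) * p ^ 4 / 192 :=
    div_le_div_of_nonneg_left (by positivity) (by norm_num) (by norm_num)
  calc Pr p (fun A : Finset (Fin 6 → ZMod N) => ¬ layerOK N (m + 3) (A : Set _) c)
      ≤ Pr p (fun A => ∀ q ∈ (range (2 ^ m) ×ˢ range (2 ^ (m + 2))) ×ˢ range (2 ^ (m + 3)),
          ¬ EP N (m + 3) c q.1.1 q.1.2 q.2 A) := by
        apply Pr_mono hp0.le hp1.le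
        intro A hA q hq hE
        simp only [Finset.mem_product, Finset.mem_range] at hq
        exact hA (EP_layer hk' (by omega) (by omega) (by omega) hE)
    _ ≤ _ := key
    _ ≤ _ := h8
    _ ≤ Real.exp (-(96 ^ (m + 3) * p ^ 4 / 2 ^ 18)) := by
        apply Real.exp_le_exp.2
        rw [h9]
        linarith

theorem PLayer_mem_LR {N k : ℕ} {c : Fin 6 → ZMod N} {x : Site} (h5 : x 5 = 0)
    (h : ∀ j, j ≠ 5 → 0 ≤ x j ∧ x j ≤ 2 ^ (k + 1)) : c + red N x ∈ LR N k c := by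
  unfold LR
  refine Finset.mem_image.2 ⟨x, ?_, rfl⟩
  rw [Fintype.mem_piFinset]
  intro j
  by_cases hj : j = 5
  · rw [if_pos hj, hj, h5]; simp
  · rw [if_neg hj, Finset.mem_Icc]; exact h j hj

/-- The event that a layer is good depends only on the sites of the layer. -/
theorem dep_layer (N : ℕ) [NeZero N] (k : ℕ) (c : Fin 6 → ZMod N) :
    Dep (LR N k c) (fun A : Finset (Fin 6 → ZMod N) => layerOK N k (A : Set _) c) := by
  intro A
  constructor
  · rintro ⟨z, h5, hpos, h0, h1, h2, h3, h4, hn, i, j, hi, hj, hs, ht⟩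
    have e2 : (2 : ℤ) ^ (k + 1) = 2 ^ k + 2 ^ k := by ring
    have e3 : (1 : ℤ) ≤ 2 ^ k := one_le_pow₀ (by norm_num)
    have hi' : (i : ℤ) < 2 ^ k := by exact_mod_cast hi
    have hj' : (j : ℤ) < 2 ^ k := by exact_mod_cast hj
    have p0 := hpos 0
    have p1 := hpos 1
    have p2 := hpos 2
    have p3 := hpos 3
    have p4 := hpos 4
    refine ⟨z, h5, hpos, h0, h1, h2, h3, h4, fun r hr => ?_, i, j, hi, hj, hs, ?_⟩
    · rw [Finset.coe_inter]
      refine ⟨hn r hr, ?_⟩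
      have hr' : 0 ≤ r ∧ r ≤ 4 := by
        simp only [code, Finset.mem_insert, Finset.mem_singleton] at hr
        omega
      apply PLayer_mem_LR
      · simp [cell, h5]
      · intro l hl
        fin_cases l
        · simp only [cell, Pi.add_apply]; simp; constructor <;> linarith
        · simp only [cell, Pi.add_apply]; simp; constructor <;> linarith
        · simp only [cell, Pi.add_apply]; simp; constructor <;> linarith
        · simp only [cell, Pi.add_apply]; simp; constructor <;> linarith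
        · simp only [cell, Pi.add_apply]; simp; constructor <;> linarith
        · exact absurd rfl hl
    · rw [Finset.coe_inter]
      refine ⟨ht, ?_⟩
      apply PLayer_mem_LR
      · simp only [trg, cell, Pi.add_apply, h5]; simp
      · intro l hl
        fin_cases l
        · simp only [trg, cell, Pi.add_apply]; simp; constructor <;> linarith
        · simp only [trg, cell, Pi.add_apply]; simp; constructor <;> linarith
        · simp only [trg, cell, Pi.add_apply]; simp; constructor <;> linarith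
        · simp only [trg, cell, Pi.add_apply]; simp; constructor <;> linarith
        · simp only [trg, cell, Pi.add_apply]; simp; constructor <;> linarith
        · exact absurd rfl hl
  · rintro ⟨z, h5, hpos, h0, h1, h2, h3, h4, hn, i, j, hi, hj, hs, ht⟩
    refine ⟨z, h5, hpos, h0, h1, h2, h3, h4, fun r hr => ?_, i, j, hi, hj, hs, ?_⟩
    · have := hn r hr
      rw [Finset.coe_inter] at this
      exact this.1
    · rw [Finset.coe_inter] at ht
      exact ht.1

end Pool.Agent.R952.BP
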