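import Pool.Agent.R952.BP.Defs3
import Pool.Agent.R952.BP.PLayer

/-!
Some region is good with probability at least `3/4` (helper496).
-/

set_option autoImplicit false

namespace Pool.Agent.R952.BP

open Finset Pool.Agent.Helper91.BP

namespace PRegion

open PLayer

variable {N : ℕ}

/-- the seed -/
noncomputable def Sd (N k : ℕ) (c : Fin 6 → ZMod N) : Finset (Fin 6 → ZMod N) :=
  (range (2 ^ (k + 1) + 1) ×ˢ
    Fintype.piFinset (fun _ : Fin 6 => Finset.Icc (0 : ℤ) 3)).image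
    (fun q => c + red N (fun j => (q.1 : ℤ) + q.2 j))

theorem card_Sd (k : ℕ) (c : Fin 6 → ZMod N) :
    (Sd N k c).card ≤ 4096 * (2 ^ (k + 1) + 1) := by
  unfold Sd
  refine le_trans Finset.card_image_le ?_
  rw [Finset.card_product, Finset.card_range, Fintype.card_piFinset]
  simp
  omega

theorem seed_iff (k : ℕ) (c : Fin 6 → ZMod N) (A : Finset (Fin 6 → ZMod N)) :
    (∀ l : ℕ, l ≤ 2 ^ (k + 1) → ∀ v : Site, (∀ j, 0 ≤ v j ∧ v j ≤ 3) →
    c + red N (fun j => (l : ℤ) + v j) ∈ (A : Set (Fin 6 → ZMod N))) ↔ Sd N k c ⊆ A := by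
  constructor
  · intro h x hx
    obtain ⟨q, hq, rfl⟩ := Finset.mem_image.1 hx
    rw [Finset.mem_product, Finset.mem_range, Fintype.mem_piFinset] at hq
    exact h q.1 (by omega) q.2 (fun j => Finset.mem_Icc.1 (hq.2 j))
  · intro h l hl v hv
    apply h
    refine Finset.mem_image.2 ⟨(l, v), ?_, rfl⟩
    rw [Finset.mem_product, Finset.mem_range, Fintype.mem_piFinset]
    exact ⟨by omega, fun j => Finset.mem_Icc.2 (hv j)⟩

theorem Sd_coord (k : ℕ) (c : Fin 6 → ZMod N) (i : Fin 6) {x : Fin 6 → ZMod N}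
    (hx : x ∈ Sd N k c) : ∃ u : ℕ, u ≤ 2 ^ (k + 1) + 3 ∧ x i = c i + (u : ZMod N) := by
  obtain ⟨q, hq, rfl⟩ := Finset.mem_image.1 hx
  rw [Finset.mem_product, Finset.mem_range, Fintype.mem_piFinset] at hq
  have h1 := Finset.mem_Icc.1 (hq.2 i)
  refine ⟨q.1 + (q.2 i).toNat, by omega, ?_⟩
  have h2 : ((q.2 i).toNat : ℤ) = q.2 i := Int.toNat_of_nonneg h1.1
  have h3 : (((q.1 + (q.2 i).toNat : ℕ) : ℤ) : ZMod N) = ((q.1 : ℤ) + q.2 i : ℤ) := by
    rw [Nat.cast_add, h2]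
  simp only [Pi.add_apply, red]
  rw [← h3, Int.cast_natCast]

theorem LR_coord (k : ℕ) (c : Fin 6 → ZMod N) (i : Fin 6) (hi : i ≠ 5) {x : Fin 6 → ZMod N}
    (hx : x ∈ LR N k c) : ∃ u : ℕ, u ≤ 2 ^ (k + 1) ∧ x i = c i + (u : ZMod N) := by
  obtain ⟨y, hy, rfl⟩ := Finset.mem_image.1 hx
  rw [Fintype.mem_piFinset] at hy
  have h1 := hy i
  rw [if_neg hi, Finset.mem_Icc] at h1
  have h2 : ((y i).toNat : ℤ) = y i := Int.toNat_of_nonneg h1.1
  refine ⟨(y i).toNat, ?_, ?_⟩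
  · have h3 : ((y i).toNat : ℤ) ≤ ((2 ^ (k + 1) : ℕ) : ℤ) := by
      rw [h2]; push_cast; exact h1.2
    exact_mod_cast h3
  · simp only [Pi.add_apply, red]
    rw [← Int.cast_natCast, h2]

theorem LR_five (k : ℕ) (c : Fin 6 → ZMod N) {x : Fin 6 → ZMod N}
    (hx : x ∈ LR N k c) : x 5 = c 5 := by
  obtain ⟨y, hy, rfl⟩ := Finset.mem_image.1 hx
  rw [Fintype.mem_piFinset] at hy
  have h1 := hy 5
  rw [if_pos rfl, Finset.mem_singleton] at h1
  simp [Pi.add_apply, red, h1]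

/-- corner of the layer `t` -/
def lc (N k : ℕ) (c : Fin 6 → ZMod N) (t : ℕ) : Fin 6 → ZMod N :=
  c + red N (Pi.single 5 (2 ^ (k + 1) + 4 + (t : ℤ)))

theorem lc_five (k : ℕ) (c : Fin 6 → ZMod N) (t : ℕ) :
    lc N k c t 5 = c 5 + ((2 ^ (k + 1) + 4 + t : ℕ) : ZMod N) := by
  simp [lc, red]

theorem lc_zero (k : ℕ) (c : Fin 6 → ZMod N) (t : ℕ) : lc N k c t 0 = c 0 := by
  simp [lc, red]

theorem regionOK_iff (k M : ℕ) (c : Fin 6 → ZMod N) (A : Finset (Fin 6 → ZMod N)) :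
    regionOK N k M (A : Set _) c ↔ Sd N k c ⊆ A ∧
      ∀ t ∈ range (2 * M), layerOK N k (A : Set _) (lc N k c t) := by
  unfold regionOK
  rw [seed_iff]
  simp only [Finset.mem_range]
  rfl

/-- one region -/
theorem region_prob [NeZero N] {C : ℝ}
    (hlay : ∀ (k : ℕ) (p : ℝ)
    (c : Fin 6 → ZMod N), 0 < p → p < 1 → C ≤ 2 ^ k → C * 2 ^ k ≤ N → 4 ^ k * p ^ 3 ≤ 1 →
    3 ^ k * p ≤ 1 → Pr p (fun A : Finset (Fin 6 → ZMod N) => ¬ layerOK N k (A : Set _) c) ≤
      Real.exp (-(96 ^ k * p ^ 4 / C)))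
    (k M : ℕ) (p : ℝ) (hp0 : 0 < p) (hp1 : p < 1) (h4 : 4 ^ k * p ^ 3 ≤ 1) (h3 : 3 ^ k * p ≤ 1)
    (hCk : C ≤ 2 ^ k) (hCN : C * 2 ^ k ≤ N)
    (hM : 2 * M * Real.exp (-(96 ^ k * p ^ 4 / C)) ≤ 1 / 2)
    (hN : 2 ^ (k + 1) + 4 + 2 * M ≤ N) (c : Fin 6 → ZMod N) (e : ℕ)
    (he : 4096 * (2 ^ (k + 1) + 1) ≤ e) :
    p ^ e / 2 ≤
      Pr p (fun A : Finset (Fin 6 → ZMod N) => regionOK N k M (A : Set _) c) := by
  classical
  have e1 : Pr p (fun A : Finset (Fin 6 → ZMod N) => regionOK N k M (A : Set _) c) =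
      Pr p (fun A : Finset (Fin 6 → ZMod N) => Sd N k c ⊆ A ∧
      ∀ t ∈ range (2 * M), layerOK N k (A : Set _) (lc N k c t)) :=
    Pr_congr (fun A => regionOK_iff k M c A)
  have e2 := Pr_indep p (dep_subset (Sd N k c) _ (Finset.Subset.refl _))
    (dep_all (T := (range (2 * M)).biUnion (fun t => LR N k (lc N k c t))) (range (2 * M))
      (E := fun t A => layerOK N k (A : Set _) (lc N k c t))
      (fun t ht => (dep_layer N k (lc N k c t)).mono
        (Finset.subset_biUnion_of_mem (fun t => LR N k (lc N k c t)) ht)))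
    (by
      rw [Finset.disjoint_left]
      intro x hx hx'
      obtain ⟨t, ht, hxt⟩ := Finset.mem_biUnion.1 hx'
      obtain ⟨u, hu, hxu⟩ := Sd_coord k c 5 hx
      have h5 := LR_five k _ hxt
      rw [lc_five, hxu] at h5
      have h6 := add_left_cancel h5
      rw [Finset.mem_range] at ht
      have h7 := nat_inj (N := N) (by omega) (by omega) h6
      omega)
  have e3 : p ^ e ≤ Pr p (fun A : Finset (Fin 6 → ZMod N) =>
      Sd N k c ⊆ A) := by
    rw [pr_subset]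
    exact pow_le_pow_of_le_one hp0.le hp1.le (le_trans (card_Sd k c) he)
  have e4 : 1 / 2 ≤ Pr p (fun A : Finset (Fin 6 → ZMod N) =>
      ∀ t ∈ range (2 * M), layerOK N k (A : Set _) (lc N k c t)) := by
    have h1 : Pr p (fun A : Finset (Fin 6 → ZMod N) =>
        ∀ t ∈ range (2 * M), layerOK N k (A : Set _) (lc N k c t)) = 1 -
        Pr p (fun A : Finset (Fin 6 → ZMod N) =>
          ∃ t ∈ range (2 * M), ¬ layerOK N k (A : Set _) (lc N k c t)) := by
      rw [← Pr_not]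
      apply Pr_congr
      intro A
      push Not
      rfl
    have h2 := Pr_bUnion_le hp0.le hp1.le (range (2 * M))
      (fun t (A : Finset (Fin 6 → ZMod N)) => ¬ layerOK N k (A : Set _) (lc N k c t))
    have h5 : ∑ t ∈ range (2 * M), Pr p (fun (A : Finset (Fin 6 → ZMod N)) =>
        ¬ layerOK N k (A : Set _) (lc N k c t)) ≤
        ∑ _t ∈ range (2 * M), Real.exp (-(96 ^ k * p ^ 4 / C)) :=
      Finset.sum_le_sum (fun t _ => hlay k p (lc N k c t) hp0 hp1 hCk hCN h4 h3)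
    rw [Finset.sum_const, Finset.card_range, nsmul_eq_mul] at h5
    push_cast at h5
    rw [h1]
    linarith
  rw [e1, e2]
  calc p ^ e / 2 = p ^ e * (1 / 2) := by ring
    _ ≤ _ := mul_le_mul e3 e4 (by norm_num) (Pr_nonneg hp0.le hp1.le _)

/-- corner of the region `r` -/
def rc (N L r : ℕ) : Fin 6 → ZMod N := red N (Pi.single 0 ((r * L : ℕ) : ℤ))

theorem rc_zero (L r : ℕ) : rc N L r 0 = ((r * L : ℕ) : ZMod N) := by
  simp [rc, red]

/-- the sites with coordinate zero in the slab `r` -/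
noncomputable def slab [NeZero N] (L r : ℕ) : Finset (Fin 6 → ZMod N) := by
  classical exact univ.filter (fun x => ∃ u : ℕ, u < L ∧ x 0 = ((r * L + u : ℕ) : ZMod N))

theorem slab_disj [NeZero N] {L r r' : ℕ} (h : (r + 1) * L ≤ N) (h' : (r' + 1) * L ≤ N)
    (hne : r ≠ r') : Disjoint (slab (N := N) L r) (slab (N := N) L r') := by
  classical
  rw [Finset.disjoint_left]
  intro x hx hx'
  unfold slab at hx hx'
  rw [Finset.mem_filter] at hx hx'
  obtain ⟨-, u, hu, e⟩ := hx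
  obtain ⟨-, u', hu', e'⟩ := hx'
  rw [e] at e'
  have h1 : (r + 1) * L = r * L + L := by ring
  have h1' : (r' + 1) * L = r' * L + L := by ring
  have h2 := nat_inj (N := N) (by omega) (by omega) e'
  rcases Nat.lt_or_gt_of_ne hne with h3 | h3
  · have h4 : (r + 1) * L ≤ r' * L := Nat.mul_le_mul_right L h3
    omega
  · have h4 : (r' + 1) * L ≤ r * L := Nat.mul_le_mul_right L h3
    omega

theorem region_dep [NeZero N] (k M r : ℕ) :
    Dep (slab (N := N) (2 ^ (k + 1) + 4) r) (fun A : Finset (Fin 6 → ZMod N) =>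
      regionOK N k M (A : Set _) (rc N (2 ^ (k + 1) + 4) r)) := by
  classical
  have h : Dep (slab (N := N) (2 ^ (k + 1) + 4) r) (fun A : Finset (Fin 6 → ZMod N) =>
      Sd N k (rc N (2 ^ (k + 1) + 4) r) ⊆ A ∧
      ∀ t ∈ range (2 * M), layerOK N k (A : Set _) (lc N k (rc N (2 ^ (k + 1) + 4) r) t)) := by
    apply dep_and
    · apply dep_subset
      intro x hx
      obtain ⟨u, hu, hxu⟩ := Sd_coord k _ 0 hx
      unfold slab
      rw [Finset.mem_filter]
      refine ⟨Finset.mem_univ _, u, by omega, ?_⟩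
      rw [hxu, rc_zero]
      push_cast
      ring
    · apply dep_all
      intro t ht
      apply (dep_layer N k _).mono
      intro x hx
      obtain ⟨u, hu, hxu⟩ := LR_coord k _ 0 (by decide) hx
      unfold slab
      rw [Finset.mem_filter]
      refine ⟨Finset.mem_univ _, u, by omega, ?_⟩
      rw [hxu, lc_zero, rc_zero]
      push_cast
      ring
  intro A
  exact (regionOK_iff k M _ A).trans ((h A).trans (regionOK_iff k M _ _).symm)

end PRegion

open PLayer PRegion in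
/-- Some region is good with probability at least `3/4`. -/
theorem prob_region : ∃ C0 : ℝ, 0 < C0 ∧ ∀ (N : ℕ) [NeZero N] (k M : ℕ) (p : ℝ), 0 < p → p < 1 →
    4 ^ k * p ^ 3 ≤ 1 → 3 ^ k * p ≤ 1 → C0 ≤ 2 ^ k →
    C0 * M * Real.exp (-(96 ^ k * p ^ 4 / C0)) ≤ 1 →
    (∀ e : ℕ, (e : ℝ) ≤ C0 * 2 ^ k → C0 * 2 ^ k ≤ N * p ^ e) → C0 * (2 ^ k + M) ≤ N →
    Pr p (fun A : Finset (Fin 6 → ZMod N) => ¬ ∃ c, regionOK N k M (A : Set _) c) ≤ 1 / 4 := by
  obtain ⟨C, hC, hlay⟩ := prob_layer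
  refine ⟨C + 12288, by linarith, ?_⟩
  intro N _ k M p hp0 hp1 h4 h3 hk hM he hN
  have hk0 : (1 : ℝ) ≤ 2 ^ k := one_le_pow₀ (by norm_num)
  have hM0 : (0 : ℝ) ≤ M := Nat.cast_nonneg M
  have hX : (0 : ℝ) ≤ 96 ^ k * p ^ 4 := by positivity
  have hCN : C * 2 ^ k ≤ N := by nlinarith
  have hM' : 2 * M * Real.exp (-(96 ^ k * p ^ 4 / C)) ≤ 1 / 2 := by
    have h5 : Real.exp (-(96 ^ k * p ^ 4 / C)) ≤ Real.exp (-(96 ^ k * p ^ 4 / (C + 12288))) := by
      apply Real.exp_le_exp.2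
      apply neg_le_neg
      exact div_le_div_of_nonneg_left hX hC (by linarith)
    have h6 : 0 ≤ Real.exp (-(96 ^ k * p ^ 4 / (C + 12288))) := (Real.exp_pos _).le
    have h7 : (M : ℝ) * Real.exp (-(96 ^ k * p ^ 4 / C)) ≤
        M * Real.exp (-(96 ^ k * p ^ 4 / (C + 12288))) := mul_le_mul_of_nonneg_left h5 hM0
    have h8 : 0 ≤ (M : ℝ) * Real.exp (-(96 ^ k * p ^ 4 / (C + 12288))) := by positivity
    have h9 : 4 * ((M : ℝ) * Real.exp (-(96 ^ k * p ^ 4 / (C + 12288)))) ≤ 1 := by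
      refine le_trans ?_ hM
      nlinarith
    linarith
  have hNn : 2 ^ (k + 1) + 4 + 2 * M ≤ N := by
    have h5 : ((2 ^ (k + 1) + 4 + 2 * M : ℕ) : ℝ) ≤ N := by
      refine le_trans ?_ hN
      push_cast
      rw [pow_succ]
      nlinarith
    exact_mod_cast h5
  obtain ⟨L, hL⟩ : ∃ L : ℕ, L = 2 ^ (k + 1) + 4 := ⟨_, rfl⟩
  obtain ⟨e, hee⟩ : ∃ e : ℕ, e = 4096 * (2 ^ (k + 1) + 1) := ⟨_, rfl⟩
  obtain ⟨x, hx⟩ : ∃ x : ℝ, x = p ^ e := ⟨_, rfl⟩
  have hx0 : 0 ≤ x := by rw [hx]; positivity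
  have hx1 : x ≤ 1 := by rw [hx]; exact pow_le_one₀ hp0.le hp1.le
  have key := pr_prod hp0.le hp1.le (q := 1 - x / 2) (by linarith) (range (N / L))
    (fun r => slab (N := N) L r)
    (fun r A => ¬ regionOK N k M (A : Set _) (rc N L r))
    (fun r _ => by subst hL; exact dep_not (region_dep k M r))
    (by
      intro r hr r' hr' hne
      rw [Finset.mem_range] at hr hr'
      refine slab_disj ?_ ?_ hne
      · exact le_trans (Nat.mul_le_mul_right L hr) (Nat.div_mul_le_self N L)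
      · exact le_trans (Nat.mul_le_mul_right L hr') (Nat.div_mul_le_self N L))
    (by
      intro r _
      rw [Pr_not]
      have := region_prob (N := N) (fun k p c => hlay N k p c) k M p hp0 hp1 h4 h3
        (by linarith) hCN hM' hNn (rc N L r) e hee.ge
      rw [← hx] at this
      linarith)
  rw [Finset.card_range] at key
  have h8 : (1 - x / 2) ^ (N / L) ≤ Real.exp (-((N / L : ℕ) * (x / 2))) := by
    calc (1 - x / 2) ^ (N / L) ≤ (Real.exp (-(x / 2))) ^ (N / L) :=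
          pow_le_pow_left₀ (by linarith) (by linarith [Real.add_one_le_exp (-(x / 2))]) _
      _ = Real.exp (-((N / L : ℕ) * (x / 2))) := by rw [← Real.exp_nat_mul]; congr 1; ring
  have hLR : (L : ℝ) ≤ 6 * 2 ^ k := by
    rw [hL]; push_cast; rw [pow_succ]; linarith
  have hL0 : (0 : ℝ) < L := by rw [hL]; positivity
  have hdiv : (N : ℝ) < ((N / L : ℕ) + 1) * L := by
    have h10 : N < (N / L + 1) * L := by
      have := Nat.lt_div_mul_add (a := N) (b := L) (by rw [hL]; positivity)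
      rw [add_mul, one_mul]; exact this
    exact_mod_cast h10
  have hNx : 12288 * 2 ^ k ≤ N * x := by
    have h10 := he e (by rw [hee]; push_cast; rw [pow_succ]; nlinarith)
    rw [← hx] at h10
    have h11 : 12288 * (2 : ℝ) ^ k ≤ (C + 12288) * 2 ^ k :=
      mul_le_mul_of_nonneg_right (by linarith) (by linarith)
    exact le_trans h11 h10
  have h2 : (2 : ℝ) ≤ (N / L : ℕ) * (x / 2) := by
    set R : ℝ := ((N / L : ℕ) : ℝ) with hR
    have hR0 : 0 ≤ R := Nat.cast_nonneg _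
    -- (R + 1) * L * x ≥ N x ≥ 12288 * 2^k, L x ≤ 6 * 2^k
    have h12 : N * x ≤ (R + 1) * L * x := mul_le_mul_of_nonneg_right hdiv.le hx0
    have h13 : L * x ≤ 6 * 2 ^ k := by nlinarith
    have h14 : R * L * x ≤ R * (6 * 2 ^ k) * x := by
      have : 0 ≤ R * x := by positivity
      nlinarith
    have h15 : 12282 * 2 ^ k ≤ (6 * (R * x)) * 2 ^ k := by nlinarith
    have h16 : 12282 ≤ 6 * (R * x) := le_of_mul_le_mul_right h15 (by linarith)
    linarith
  have hexp : Real.exp (-((N / L : ℕ) * (x / 2))) ≤ 1 / 4 := by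
    have h17 : Real.exp (-((N / L : ℕ) * (x / 2))) ≤ Real.exp (-2) :=
      Real.exp_le_exp.2 (by linarith)
    have h18 : Real.exp (-2) ≤ 1 / 4 := by
      rw [Real.exp_neg, ← one_div]
      apply one_div_le_one_div_of_le (by norm_num)
      have h19 : (2 : ℝ) ≤ Real.exp 1 := by linarith [Real.add_one_le_exp (1 : ℝ)]
      have h20 : Real.exp 2 = Real.exp 1 * Real.exp 1 := by rw [← Real.exp_add]; norm_num
      rw [h20]; nlinarith
    linarith
  calc Pr p (fun A : Finset (Fin 6 → ZMod N) => ¬ ∃ c, regionOK N k M (A : Set _) c)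
      ≤ Pr p (fun A : Finset (Fin 6 → ZMod N) => ∀ r ∈ range (N / L),
          ¬ regionOK N k M (A : Set _) (rc N L r)) := by
        apply Pr_mono hp0.le hp1.le
        intro A hA r _ hr
        exact hA ⟨_, hr⟩
    _ ≤ _ := key
    _ ≤ _ := h8
    _ ≤ 1 / 4 := hexp

end Pool.Agent.R952.BP
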