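import Pool.Agent.R952.BP.Low
import Pool.Agent.R952.BP.PRegion
import Pool.Agent.R952.BP.DetUp
import Pool.Agent.R952.BP.PLine
import Pool.Agent.R952.BP.NumLow
import Pool.Agent.R952.BP.NumUp
import Pool.Agent.R952.BP.Asym
import Pool.Agent.R952.BP.Crit

/-!
# The critical probability of the explicit family (helper952, for MP_c8529a_pr / S19636)
-/

set_option autoImplicit false

namespace Pool.Agent.R952.BP

open Finset Pool.Agent.Helper91.BP

/-- the sum in the frozen statement -/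
noncomputable def SS (n : ℕ) : Set ℝ :=
  {p : ℝ | 0 ≤ p ∧ p ≤ 1 ∧ (1 / 2 : ℝ) ≤
    Pr p (fun A : Finset (Fin 6 → ZMod (n + 1)) => Perc (n + 1) (A : Set _))}

theorem UBmain : ∃ C1 : ℝ, 0 < C1 ∧ ∀ (N : ℕ) [NeZero N] (k M : ℕ) (p : ℝ), 0 < p → p < 1 →
    4 ^ k * p ^ 3 ≤ 1 → 3 ^ k * p ≤ 1 → C1 ≤ 2 ^ k →
    C1 * M * Real.exp (-(96 ^ k * p ^ 4 / C1)) ≤ 1 →
    (∀ e : ℕ, (e : ℝ) ≤ C1 * 2 ^ k → C1 * 2 ^ k ≤ N * p ^ e) →
    C1 * (N : ℝ) ^ 6 * Real.exp (-(M * p ^ 32 / C1)) ≤ 1 → C1 * (2 ^ k + M) ≤ N →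
    1 / 2 ≤ Pr p (fun A : Finset (Fin 6 → ZMod N) => Perc N (A : Set _)) := by
  obtain ⟨C0, hC0, hreg⟩ := prob_region
  refine ⟨max C0 144, lt_max_of_lt_left hC0, ?_⟩
  intro N _ k M p hp0 hp1 h4 h3 hC hM he hl hN
  set C := max C0 144 with hCdef
  have hCC : C0 ≤ C := le_max_left _ _
  have hC144 : (144 : ℝ) ≤ C := le_max_right _ _
  have hCpos : (0 : ℝ) < C := by linarith
  have hM0 : (0 : ℝ) ≤ M := Nat.cast_nonneg M
  have h2k : (0 : ℝ) < 2 ^ k := by positivity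
  have hx : (0 : ℝ) ≤ 96 ^ k * p ^ 4 := by positivity
  have hy : (0 : ℝ) ≤ M * p ^ 32 := by positivity
  have hr := hreg N k M p hp0 hp1 h4 h3 (hCC.trans hC) (by
    refine le_trans ?_ hM
    apply mul_le_mul
    · exact mul_le_mul_of_nonneg_right hCC hM0
    · apply Real.exp_le_exp.2
      apply neg_le_neg
      exact div_le_div_of_nonneg_left hx hC0 hCC
    · exact (Real.exp_pos _).le
    · exact mul_nonneg hCpos.le hM0) (by
    intro e hee
    refine le_trans (mul_le_mul_of_nonneg_right hCC h2k.le) (he e ?_)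
    exact hee.trans (mul_le_mul_of_nonneg_right hCC h2k.le)) (by
    refine le_trans ?_ hN
    apply mul_le_mul_of_nonneg_right hCC
    positivity)
  have hNM : ((2 * M : ℕ) : ℝ) ≤ N := by
    push_cast
    nlinarith
  have hN2 : ((2 : ℕ) : ℝ) ≤ N := by
    have h1 : (1 : ℝ) ≤ 2 ^ k := one_le_pow₀ (by norm_num)
    push_cast
    nlinarith
  have hline := prob_line N M p hp0.le hp1.le (by exact_mod_cast hNM) (by exact_mod_cast hN2)
  have hline2 : Pr p (fun A : Finset (Fin 6 → ZMod N) => ¬ lineOK N M (A : Set _)) ≤ 1 / 4 := by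
    refine hline.trans ?_
    have h1 : Real.exp (-(M * p ^ 32)) ≤ Real.exp (-(M * p ^ 32 / C)) := by
      apply Real.exp_le_exp.2
      apply neg_le_neg
      exact div_le_self hy (by linarith)
    have h2 : (0 : ℝ) ≤ (N : ℝ) ^ 6 := by positivity
    have h3 : (0 : ℝ) ≤ Real.exp (-(M * p ^ 32 / C)) := (Real.exp_pos _).le
    have h4 : 144 * ((N : ℝ) ^ 6 * Real.exp (-(M * p ^ 32 / C))) ≤ 1 := by
      refine le_trans ?_ hl
      rw [mul_assoc C]
      exact mul_le_mul_of_nonneg_right hC144 (mul_nonneg h2 h3)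
    calc 36 * (N : ℝ) ^ 6 * Real.exp (-(M * p ^ 32))
        ≤ 36 * (N : ℝ) ^ 6 * Real.exp (-(M * p ^ 32 / C)) := by
          apply mul_le_mul_of_nonneg_left h1 (by positivity)
      _ ≤ 1 / 4 := by linarith
  have hperc : Pr p (fun A : Finset (Fin 6 → ZMod N) => ¬ Perc N (A : Set _)) ≤ 1 / 4 + 1 / 4 := by
    calc Pr p (fun A : Finset (Fin 6 → ZMod N) => ¬ Perc N (A : Set _))
        ≤ Pr p (fun A : Finset (Fin 6 → ZMod N) => (¬ ∃ c, regionOK N k M (A : Set _) c) ∨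
            ¬ lineOK N M (A : Set _)) := by
          apply Pr_mono hp0.le hp1.le
          intro A hA
          by_contra hcon
          rw [not_or, not_not, not_not] at hcon
          obtain ⟨⟨c, hc⟩, hl⟩ := hcon
          exact hA (det_up _ k M c hc hl)
      _ ≤ _ := Pr_or_le hp0.le hp1.le _ _
      _ ≤ _ := add_le_add hr hline2
  have := Pr_not p (fun A : Finset (Fin 6 → ZMod N) => Perc N (A : Set _))
  linarith

theorem up_bound (δ : ℝ) (hδ : 0 < δ) (hδ' : δ ≤ 1 / 100) : ∀ᶠ n : ℕ in Filter.atTop,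
    (Real.log ((n : ℝ) + 1)) ^ (-((5 + Real.logb 2 3) / 4 - δ)) ∈ SS n := by
  obtain ⟨C1, hC1, hub⟩ := UBmain
  filter_upwards [num_up C1 δ hC1 hδ hδ'] with n hn
  obtain ⟨k, M, p, hp, hp0, hp1, h4, h3, hC, hCM, hM, he, hl, hN⟩ := hn
  rw [← hp]
  have hcast : ((n + 1 : ℕ) : ℝ) = (n : ℝ) + 1 := by push_cast; ring
  refine ⟨hp0.le, hp1.le, ?_⟩
  apply hub (n + 1) k M p hp0 hp1 h4 h3 hC hM
  · intro e hee
    refine (he e hee).trans ?_
    rw [hcast]
    apply mul_le_mul_of_nonneg_right (by linarith)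
    positivity
  · rw [hcast]; exact hl
  · rw [hcast]; linarith

theorem low_bound (δ : ℝ) (hδ : 0 < δ) (hδ' : δ ≤ 1 / 100) : ∀ᶠ n : ℕ in Filter.atTop,
    ∀ q ∈ SS n, (Real.log ((n : ℝ) + 1)) ^ (-((5 + Real.logb 2 3) / 4 + δ)) ≤ q := by
  obtain ⟨C0, hC0, hlb⟩ := LBmain
  filter_upwards [num_low C0 δ hC0 hδ hδ'] with n hn
  obtain ⟨k, p, hp, hp0, hp1, h96, h128, hN, hC, hl⟩ := hn
  rw [← hp]
  intro q hq
  by_contra hcon
  rw [not_le] at hcon
  obtain ⟨hq0, hq1, hq⟩ := hq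
  have hcast : ((n + 1 : ℕ) : ℝ) = (n : ℝ) + 1 := by push_cast; ring
  have h1 := hlb (n + 1) k q hq0 hq1 (by
      refine le_trans ?_ h96
      apply mul_le_mul_of_nonneg_left (pow_le_pow_left₀ hq0 hcon.le 4)
      positivity) (by
      refine le_trans ?_ h128
      apply mul_le_mul_of_nonneg_left (pow_le_pow_left₀ hq0 hcon.le 5)
      positivity) (by rw [hcast]; linarith) hC (by rw [hcast]; exact hl)
  linarith

theorem final (r : ℕ) (hr : 1 ≤ r) (α : ℚ) :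
    ¬ Filter.Tendsto (fun n : ℕ => Real.log (sInf (SS n)) /
      Real.log (1 / Real.log^[r] ((n : ℝ) + 1))) Filter.atTop (nhds (α : ℝ)) := by
  apply final_asym (fun n => sInf (SS n)) _ _ r hr α
  · intro δ hδ hδ'
    filter_upwards [up_bound δ hδ hδ', low_bound δ hδ hδ'] with n h1 h2
    exact le_csInf ⟨_, h1⟩ h2
  · intro δ hδ hδ'
    filter_upwards [up_bound δ hδ hδ'] with n h1
    exact csInf_le ⟨0, fun q hq => hq.1⟩ h1

end Pool.Agent.R952.BP
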