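import Pool.Agent.R952.BP.PBad
import Pool.Agent.R952.BP.Cross

/-!
The main lower bound: union bound over the bad slabs.
-/

set_option autoImplicit false

namespace Pool.Agent.R952.BP

open Finset Pool.Agent.Helper91.BP

attribute [local irreducible] U HH RD

theorem Low_disj {N : ℕ} [NeZero N] {s : ℤ} {i : Fin 6} (c : Fin 6 → ZMod N) {K : ℕ}
    (hK : (K : ℤ) * HH < N) {l l' : ℕ} (h : l < l') (h' : l' < K) :
    Disjoint (BR N s i (c + red N (Pi.single i (((l : ℤ) + 1) * HH))))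
      (BR N s i (c + red N (Pi.single i (((l' : ℤ) + 1) * HH)))) := by
  classical
  rw [Finset.disjoint_left]
  intro y hy hy'
  unfold BR at hy hy'
  obtain ⟨x, hx, hxy⟩ := Finset.mem_image.1 hy
  obtain ⟨x', hx', hxy'⟩ := Finset.mem_image.1 hy'
  have bx := PBad_mem_BB.1 hx i
  have bx' := PBad_mem_BB.1 hx' i
  rw [if_pos rfl] at bx bx'
  have e1 := congrFun (hxy.trans hxy'.symm) i
  simp only [Pi.add_apply, red, Pi.single_eq_same] at e1
  have e2 : (((((l : ℤ) + 1) * HH + x i : ℤ)) : ZMod N) = ((((l' : ℤ) + 1) * HH + x' i : ℤ) : ZMod N) := by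
    rw [Int.cast_add, Int.cast_add]
    rw [add_assoc, add_assoc] at e1
    exact add_left_cancel e1
  rw [ZMod.intCast_eq_intCast_iff_dvd_sub] at e2
  have hH := PBad_HH0
  have hll : (l : ℤ) + 1 ≤ l' := by exact_mod_cast h
  have hlK : (l' : ℤ) + 1 ≤ K := by exact_mod_cast h'
  have hl0 : (0 : ℤ) ≤ l := Int.natCast_nonneg l
  have p1 : 0 < (((l' : ℤ) + 1) * HH + x' i) - (((l : ℤ) + 1) * HH + x i) := by
    have : ((l : ℤ) + 1) * HH ≤ l' * HH := mul_le_mul_of_nonneg_right hll hH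
    nlinarith [bx.1, bx.2, bx'.1, bx'.2]
  have p2 : (((l' : ℤ) + 1) * HH + x' i) - (((l : ℤ) + 1) * HH + x i) < N := by
    have h1 : ((l' : ℤ) + 1) * HH ≤ K * HH := mul_le_mul_of_nonneg_right hlK hH
    have h2 : 0 ≤ (l : ℤ) * HH := mul_nonneg hl0 hH
    nlinarith [bx.1, bx.2, bx'.1, bx'.2]
  have := Int.eq_zero_of_abs_lt_dvd e2 (by rw [abs_of_pos p1]; exact p2)
  omega

theorem LBmain : ∃ C0 : ℝ, 0 < C0 ∧ ∀ (N : ℕ) [NeZero N] (k : ℕ) (p : ℝ), 0 ≤ p → p ≤ 1 →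
    C0 * 96 ^ k * p ^ 4 ≤ 1 → C0 * 128 ^ k * p ^ 5 ≤ 1 → C0 * 2 ^ k ≤ N → C0 ≤ 2 ^ k →
    C0 * (N : ℝ) ^ 6 * Real.exp (-(2 ^ k / C0)) ≤ 1 →
    Pr p (fun A : Finset (Fin 6 → ZMod N) => Perc N (A : Set _)) < 1 / 2 := by
  classical
  obtain ⟨C, hC, hbad⟩ := prob_bad
  obtain ⟨h, hh⟩ : ∃ h : ℕ, (h : ℤ) = HH := ⟨HH.toNat, Int.toNat_of_nonneg PBad_HH0⟩
  have hpos : 0 < h := by
    have : (0:ℤ) < HH := by unfold HH RR; norm_num
    rw [← hh] at this
    exact_mod_cast this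
  have hposR : (0:ℝ) < h := by exact_mod_cast hpos
  refine ⟨6 * C + 4 * h + 109, by positivity, ?_⟩
  intro N _ k p h0 h1 hp4 hp5 hN hk hexp
  set C0 : ℝ := 6 * C + 4 * h + 109 with hC0
  have hC0pos : 0 < C0 := by positivity
  have h2k : (1:ℝ) ≤ 2 ^ k := one_le_pow₀ (by norm_num)
  have hC0C : C ≤ C0 := by rw [hC0]; linarith
  have hNr : (2:ℝ) ^ k < N := by
    have : 1 * (2:ℝ) ^ k < C0 * 2 ^ k := by
      apply mul_lt_mul_of_pos_right _ (by positivity)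
      rw [hC0]; linarith
    linarith
  have hNn : 2 ^ k < N := by exact_mod_cast hNr
  have hhk : 4 * h ≤ 2 ^ k := by
    have : (4:ℝ) * h ≤ 2 ^ k := by
      refine le_trans ?_ hk
      rw [hC0]; linarith
    exact_mod_cast this
  -- the number of slabs
  obtain ⟨K, hK⟩ : ∃ K, K = 2 ^ k / h - 1 := ⟨_, rfl⟩
  have hq1 : 4 ≤ 2 ^ k / h := (Nat.le_div_iff_mul_le hpos).2 hhk
  have hK1 : K + 1 = 2 ^ k / h := by omega
  have hK2 : (K + 1) * h ≤ 2 ^ k := by rw [hK1]; exact Nat.div_mul_le_self _ _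
  have hK3 : 2 ^ k < (K + 2) * h := by
    have := Nat.lt_div_mul_add hpos (a := 2 ^ k)
    rw [← hK1] at this
    linarith
  have hKz : ((K : ℤ) + 1) * HH ≤ 2 ^ k := by rw [← hh]; exact_mod_cast hK2
  have hKN : (K : ℤ) * HH < N := by
    have : ((K : ℤ)) * HH ≤ 2 ^ k := by nlinarith [PBad_HH0]
    have h3 : (2:ℤ) ^ k < N := by exact_mod_cast hNn
    linarith
  -- q
  have hq : C * (96 ^ k * p ^ 4 + 128 ^ k * p ^ 5) ≤ Real.exp (-1) := by
    have a1 : 96 ^ k * p ^ 4 ≤ 1 / C0 := by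
      rw [le_div_iff₀ hC0pos]; linarith
    have a2 : 128 ^ k * p ^ 5 ≤ 1 / C0 := by
      rw [le_div_iff₀ hC0pos]; linarith
    have a3 : C * (96 ^ k * p ^ 4 + 128 ^ k * p ^ 5) ≤ C * (1 / C0 + 1 / C0) :=
      mul_le_mul_of_nonneg_left (add_le_add a1 a2) hC.le
    have a4 : C * (1 / C0 + 1 / C0) ≤ 1 / 3 := by
      rw [← add_div, ← mul_div_assoc, div_le_iff₀ hC0pos]
      rw [hC0]
      linarith
    have a5 : (1:ℝ) / 3 ≤ Real.exp (-1) := by
      rw [Real.exp_neg, one_div]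
      apply inv_anti₀ (Real.exp_pos 1)
      have := Real.exp_one_lt_d9
      linarith
    linarith
  have hq0 : 0 ≤ C * (96 ^ k * p ^ 4 + 128 ^ k * p ^ 5) := by positivity
  -- the union bound
  have u1 : Pr p (fun A : Finset (Fin 6 → ZMod N) => Perc N (A : Set _)) ≤
      Pr p (fun A : Finset (Fin 6 → ZMod N) =>
        ∃ θ ∈ (Finset.univ : Finset ((Fin 6 → ZMod N) × Fin 6)), ∀ j : ℕ, j < K →
          Bad θ.2 (loc N A (2 ^ k) θ.2 (θ.1 + red N (Pi.single θ.2 (((j : ℤ) + 1) * HH))))) := by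
    apply Pr_mono h0 h1
    intro A hA
    obtain ⟨c, i, hci⟩ := det_low A hA (2 ^ k) (by rw [← hh]; exact_mod_cast hhk) K hKz
    exact ⟨(c, i), Finset.mem_univ _, hci⟩
  have u2 := Pr_bUnion_le h0 h1 (Finset.univ : Finset ((Fin 6 → ZMod N) × Fin 6))
    (fun θ (A : Finset (Fin 6 → ZMod N)) => ∀ j : ℕ, j < K →
      Bad θ.2 (loc N A (2 ^ k) θ.2 (θ.1 + red N (Pi.single θ.2 (((j : ℤ) + 1) * HH)))))
  have u3 : ∀ θ ∈ (Finset.univ : Finset ((Fin 6 → ZMod N) × Fin 6)),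
      Pr p (fun A : Finset (Fin 6 → ZMod N) => ∀ j : ℕ, j < K →
      Bad θ.2 (loc N A (2 ^ k) θ.2 (θ.1 + red N (Pi.single θ.2 (((j : ℤ) + 1) * HH))))) ≤
      (C * (96 ^ k * p ^ 4 + 128 ^ k * p ^ 5)) ^ K := by
    intro θ _
    apply Pr_prod_le h0 h1 hq0 (fun j => BR N (2 ^ k) θ.2
      (θ.1 + red N (Pi.single θ.2 (((j : ℤ) + 1) * HH))))
      (fun j A => Bad θ.2 (loc N A (2 ^ k) θ.2 (θ.1 + red N (Pi.single θ.2 (((j : ℤ) + 1) * HH)))))
    · intro l _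
      exact dep_bad N (2 ^ k) θ.2 _
    · intro l l' hl hl'
      exact Low_disj θ.1 hKN hl hl'
    · intro l _
      refine hbad N k p θ.2 _ h0 h1 ?_ ?_
      · refine le_trans ?_ hN
        exact mul_le_mul_of_nonneg_right hC0C (by positivity)
      · linarith
  have u4 : Pr p (fun A : Finset (Fin 6 → ZMod N) => Perc N (A : Set _)) ≤
      6 * (N : ℝ) ^ 6 * (C * (96 ^ k * p ^ 4 + 128 ^ k * p ^ 5)) ^ K := by
    refine u1.trans (u2.trans ((Finset.sum_le_sum u3).trans ?_))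
    rw [Finset.sum_const, nsmul_eq_mul, Finset.card_univ, Fintype.card_prod, Fintype.card_fun,
      ZMod.card, Fintype.card_fin]
    push_cast
    apply le_of_eq
    ring
  have u5 : (C * (96 ^ k * p ^ 4 + 128 ^ k * p ^ 5)) ^ K ≤ Real.exp (-K) := by
    refine (pow_le_pow_left₀ hq0 hq K).trans (le_of_eq ?_)
    rw [← Real.exp_nat_mul]
    congr 1
    ring
  have u6 : Real.exp (-K) ≤ Real.exp 2 * Real.exp (-(2 ^ k / C0)) := by
    rw [← Real.exp_add]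
    apply Real.exp_le_exp.2
    have b1 : (2:ℝ) ^ k / C0 ≤ 2 ^ k / h := by
      apply div_le_div_of_nonneg_left (by positivity) hposR
      rw [hC0]; linarith
    have b2 : (2:ℝ) ^ k / h ≤ K + 2 := by
      rw [div_le_iff₀ hposR]
      exact_mod_cast hK3.le
    linarith
  have u7 : Real.exp 2 < 9 := by
    have : Real.exp 2 = Real.exp 1 * Real.exp 1 := by rw [← Real.exp_add]; norm_num
    rw [this]
    have h3 := Real.exp_one_lt_d9
    have h4 := Real.exp_pos 1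
    nlinarith
  have hX : (N : ℝ) ^ 6 * Real.exp (-(2 ^ k / C0)) ≤ 1 / C0 := by
    rw [le_div_iff₀ hC0pos]
    linarith
  have hX0 : 0 ≤ (N : ℝ) ^ 6 * Real.exp (-(2 ^ k / C0)) := by positivity
  calc Pr p (fun A : Finset (Fin 6 → ZMod N) => Perc N (A : Set _))
      ≤ 6 * (N : ℝ) ^ 6 * (Real.exp 2 * Real.exp (-(2 ^ k / C0))) := by
        refine u4.trans ?_
        exact mul_le_mul_of_nonneg_left (u5.trans u6) (by positivity)
    _ = 6 * Real.exp 2 * ((N : ℝ) ^ 6 * Real.exp (-(2 ^ k / C0))) := by ring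
    _ ≤ 6 * 9 * (1 / C0) := by
        apply mul_le_mul _ hX hX0 (by norm_num)
        linarith
    _ < 1 / 2 := by
        rw [mul_one_div, div_lt_iff₀ hC0pos]
        rw [hC0]
        linarith

end Pool.Agent.R952.BP
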