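import Pool.Agent.R952.BP.Defs2
import Pool.Agent.R952.BP.Pascal

/-!
The probability of a bad slab (union bound).
-/

set_option autoImplicit false

namespace Pool.Agent.R952.BP

open Finset Pool.Agent.Helper91.BP

/-- cube -/
noncomputable def PBad_cube (D : ℤ) : Finset Site := Fintype.piFinset (fun _ => Finset.Icc (-D) D)

theorem PBad_mem_cube {D : ℤ} {x : Site} : x ∈ PBad_cube D ↔ ∀ j, |x j| ≤ D := by
  unfold PBad_cube
  rw [Fintype.mem_piFinset]
  simp only [Finset.mem_Icc, abs_le]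

theorem PBad_RD0 : 0 ≤ RD := by norm_num [RD, RR]

theorem PBad_HH0 : 0 ≤ HH := by norm_num [HH, RR]

/-- radius for the differences -/
def PBad_K : ℤ := RD + 2 ^ 18

theorem PBad_K1 {a b r : ℤ} (hr : 1 ≤ r ∧ r ≤ 2 ^ 18) (h : -RD ≤ a - (b + r) ∧ a - (b + r) ≤ RD) :
    -PBad_K ≤ a - b ∧ a - b ≤ PBad_K := by
  unfold PBad_K
  constructor <;> linarith [h.1, h.2, hr.1, hr.2]

attribute [local irreducible] PBad_cube RD HH PBad_K

theorem PBad_mem_BB {s : ℤ} {i : Fin 6} {x : Site} :
    x ∈ BB s i ↔ ∀ j, 0 ≤ x j ∧ x j < (if j = i then HH else 3 * s) := by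
  unfold BB
  rw [Fintype.mem_piFinset]
  refine forall_congr' fun j => ?_
  split_ifs <;> simp [Finset.mem_Ico]

theorem PBad_prod (a b : ℕ) (i : Fin 6) : (∏ j : Fin 6, if j = i then a else b) = a * b^5 := by
  fin_cases i <;> simp [Fin.prod_univ_six] <;> ring

theorem PBad_card_BB (k : ℕ) (i : Fin 6) : (BB (2 ^ k) i).card = HH.toNat * (3 * 2 ^ k) ^ 5 := by
  unfold BB
  rw [Fintype.card_piFinset]
  have h : ∀ j : Fin 6, (if j = i then Finset.Ico 0 HH else Finset.Ico 0 (3 * (2:ℤ) ^ k)).card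
      = if j = i then HH.toNat else 3 * 2 ^ k := by
    intro j
    split_ifs
    · rw [Int.card_Ico, sub_zero]
    · rw [Int.card_Ico, sub_zero]
      have : (3 * (2:ℤ) ^ k) = ((3 * 2 ^ k : ℕ) : ℤ) := by push_cast; ring
      rw [this, Int.toNat_natCast]
  rw [Finset.prod_congr rfl (fun j _ => h j)]
  exact PBad_prod _ _ _

theorem PBad_Pr_sub {V : Type*} [Fintype V] [DecidableEq V] (p : ℝ) (T : Finset V) :
    Pr p (fun A => T ⊆ A) = p ^ T.card := by
  have h := sum_prod (V := V) p (fun _ => 1) (fun v => if v ∈ T then 0 else 1)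
  have h2 : ∏ v : V, (p * (fun _ => (1:ℝ)) v + (1 - p) * (fun v => if v ∈ T then (0:ℝ) else 1) v)
      = p ^ T.card := by
    have : ∀ v : V, (p * (fun _ => (1:ℝ)) v + (1 - p) * (fun v => if v ∈ T then (0:ℝ) else 1) v)
        = if v ∈ T then p else 1 := by
      intro v
      by_cases hv : v ∈ T
      · simp [hv]
      · simp [hv]
    rw [Finset.prod_congr rfl (fun v _ => this v)]
    rw [Finset.prod_ite, Finset.prod_const_one, mul_one, Finset.prod_const]
    congr 2
    ext v
    simp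
  rw [h2] at h
  rw [← h]
  unfold Pr
  apply Finset.sum_congr rfl
  intro A _
  by_cases hA : T ⊆ A
  · rw [if_pos hA, Finset.prod_const_one, Finset.prod_eq_one, mul_one, mul_one]
    intro v hv
    rw [if_neg]
    intro hT
    exact (Finset.mem_compl.1 hv) (hA hT)
  · rw [if_neg hA]
    obtain ⟨v, hv, hvA⟩ := Finset.not_subset.1 hA
    rw [Finset.prod_eq_zero (s := Aᶜ) (i := v) (Finset.mem_compl.2 hvA) (by rw [if_pos hv])]
    ring

theorem PBad_union {N : ℕ} [NeZero N] {s : ℤ} {i : Fin 6} {c : Fin 6 → ZMod N} {p : ℝ}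
    (h0 : 0 ≤ p) (h1 : p ≤ 1)
    (hinj : Set.InjOn (fun x : Site => c + red N x) (BB s i : Set Site)) {τ : Type*}
    (Θ : Finset τ) (W : τ → Finset Site) (m : ℕ)
    (E : Finset Site → Prop)
    (hE : ∀ V ⊆ BB s i, E V → ∃ θ ∈ Θ, W θ ⊆ V ∧ m ≤ (W θ).card) :
    Pr p (fun A : Finset (Fin 6 → ZMod N) => E (loc N A s i c)) ≤ Θ.card * p ^ m := by
  classical
  set Θ' := Θ.filter (fun θ => W θ ⊆ BB s i ∧ m ≤ (W θ).card) with hΘ'
  have e1 : Pr p (fun A : Finset (Fin 6 → ZMod N) => E (loc N A s i c)) ≤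
      Pr p (fun A : Finset (Fin 6 → ZMod N) => ∃ θ ∈ Θ', (W θ).image (fun x => c + red N x) ⊆ A) := by
    apply Pr_mono h0 h1
    intro A hA
    have hsub : loc N A s i c ⊆ BB s i := by
      unfold loc
      exact Finset.filter_subset _ _
    obtain ⟨θ, hθ, hW, hm⟩ := hE _ hsub hA
    refine ⟨θ, ?_, ?_⟩
    · rw [hΘ', Finset.mem_filter]
      exact ⟨hθ, hW.trans hsub, hm⟩
    · intro y hy
      obtain ⟨x, hx, rfl⟩ := Finset.mem_image.1 hy
      have := hW hx
      unfold loc at this
      exact (Finset.mem_filter.1 this).2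
  refine e1.trans ((Pr_bUnion_le h0 h1 Θ' _).trans ?_)
  have e2 : ∀ θ ∈ Θ', Pr p (fun A : Finset (Fin 6 → ZMod N) =>
      (W θ).image (fun x => c + red N x) ⊆ A) ≤ p ^ m := by
    intro θ hθ
    rw [hΘ', Finset.mem_filter] at hθ
    rw [PBad_Pr_sub, Finset.card_image_of_injOn]
    · exact pow_le_pow_of_le_one h0 h1 hθ.2.2
    · exact hinj.mono (by exact_mod_cast hθ.2.1)
  refine (Finset.sum_le_sum e2).trans ?_
  rw [Finset.sum_const, nsmul_eq_mul]
  apply mul_le_mul_of_nonneg_right _ (pow_nonneg h0 m)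
  exact_mod_cast Finset.card_le_card (Finset.filter_subset _ _)

theorem PBad_inj {N : ℕ} {s : ℤ} {i : Fin 6} (c : Fin 6 → ZMod N) (hs : 3 * s ≤ N)
    (hH : HH ≤ N) : Set.InjOn (fun x : Site => c + red N x) (BB s i : Set Site) := by
  intro x hx y hy hxy
  have hx' := PBad_mem_BB.1 (Finset.mem_coe.1 hx)
  have hy' := PBad_mem_BB.1 (Finset.mem_coe.1 hy)
  have h := add_left_cancel hxy
  funext j
  have hj : ((x j : ℤ) : ZMod N) = ((y j : ℤ) : ZMod N) := congrFun h j
  rw [ZMod.intCast_eq_intCast_iff_dvd_sub] at hj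
  have hlt : |y j - x j| < (N : ℤ) := by
    have a := hx' j
    have b := hy' j
    have hle : (if j = i then HH else 3 * s) ≤ (N : ℤ) := by
      split_ifs
      · exact hH
      · exact hs
    rw [abs_lt]
    constructor <;> omega
  have := Int.eq_zero_of_abs_lt_dvd hj hlt
  omega

theorem dep_bad (N : ℕ) [NeZero N] (s : ℤ) (i : Fin 6) (c : Fin 6 → ZMod N) :
    Dep (BR N s i c) (fun A : Finset (Fin 6 → ZMod N) => Bad i (loc N A s i c)) := by
  classical
  intro A
  have : loc N A s i c = loc N (A ∩ BR N s i c) s i c := by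
    unfold loc
    apply Finset.filter_congr
    intro x hx
    rw [Finset.mem_inter]
    constructor
    · intro h
      refine ⟨h, ?_⟩
      unfold BR
      exact Finset.mem_image_of_mem _ hx
    · intro h
      exact h.1
  simp only
  rw [← this]

theorem PBad_F1 {N : ℕ} [NeZero N] {k : ℕ} {i : Fin 6} {c : Fin 6 → ZMod N} {p : ℝ}
    (h0 : 0 ≤ p) (h1 : p ≤ 1)
    (hinj : Set.InjOn (fun x : Site => c + red N x) (BB (2 ^ k) i : Set Site)) :
    Pr p (fun A : Finset (Fin 6 → ZMod N) => F1 (loc N A (2 ^ k) i c)) ≤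
      ((HH.toNat * (3 * 2 ^ k) ^ 5 * (PBad_cube RD).powerset.card : ℕ) : ℝ) * p ^ 4 := by
  have h := PBad_union h0 h1 hinj (BB (2 ^ k) i ×ˢ (PBad_cube RD).powerset)
    (fun θ : Site × Finset Site => θ.2.image (fun t => θ.1 + t)) 4 F1 (by
      rintro V hV ⟨X, hXV, hX4, hX⟩
      obtain ⟨x, hx⟩ : X.Nonempty := by
        rw [← Finset.card_pos, hX4]; norm_num
      have hXe : (X.image (fun y => y - x)).image (fun t => x + t) = X := by
        rw [Finset.image_image]
        ext y
        simp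
      refine ⟨(x, X.image (fun y => y - x)), ?_, ?_, ?_⟩
      · rw [Finset.mem_product]
        refine ⟨hV (hXV hx), ?_⟩
        rw [Finset.mem_powerset]
        intro t ht
        obtain ⟨y, hy, rfl⟩ := Finset.mem_image.1 ht
        rw [PBad_mem_cube]
        intro j
        exact hX y hy x hx j
      · simp only
        rw [hXe]
        exact hXV
      · simp only
        rw [hXe, hX4])
  rw [Finset.card_product, PBad_card_BB] at h
  exact h

theorem PBad_nuc {W : Finset Site} {z : Site} (h : nuc (W : Set Site) z) :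
    cell z 0 0 1 ∈ W ∧ cell z 0 0 2 ∈ W ∧ cell z 0 0 4 ∈ W := by
  refine ⟨?_, ?_, ?_⟩
  · exact Finset.mem_coe.1 (h 1 (by simp [code]))
  · exact Finset.mem_coe.1 (h 2 (by simp [code]))
  · exact Finset.mem_coe.1 (h 4 (by simp [code]))

theorem PBad_nuc_pat (z : Site) : cell z 0 0 1 ∈ pat z ∧ cell z 0 0 2 ∈ pat z ∧
    cell z 0 0 4 ∈ pat z := by
  refine ⟨⟨0, 0, 1, by simp [code, sym], ?_⟩, ⟨0, 0, 2, by simp [code, sym], ?_⟩,
    ⟨0, 0, 4, by simp [code, sym], ?_⟩⟩ <;> simp

theorem PBad_cell0 (z : Site) (i j r : ℤ) : cell z i j r 0 = z 0 + i := rfl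
theorem PBad_cell1 (z : Site) (i j r : ℤ) : cell z i j r 1 = z 1 + j := rfl
/-- the second component of a cell -/
theorem PBad_cell2 (z : Site) (i j r : ℤ) : cell z i j r 2 = z 2 + r := rfl
theorem PBad_cell3 (z : Site) (i j r : ℤ) : cell z i j r 3 = z 3 := by
  show z 3 + 0 = z 3
  ring
theorem PBad_cell4 (z : Site) (i j r : ℤ) : cell z i j r 4 = z 4 := by
  show z 4 + 0 = z 4
  ring
theorem PBad_cell5 (z : Site) (i j r : ℤ) : cell z i j r 5 = z 5 := by
  show z 5 + 0 = z 5
  ring
theorem PBad_trg0 (z : Site) (i j : ℤ) : trg z i j 0 = z 0 + i := by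
  show z 0 + i + 0 = z 0 + i
  ring
theorem PBad_trg1 (z : Site) (i j : ℤ) : trg z i j 1 = z 1 + j := by
  show z 1 + j + 0 = z 1 + j
  ring
theorem PBad_trg3 (z : Site) (i j : ℤ) : trg z i j 3 = z 3 + 1 := by
  show z 3 + 0 + 1 = z 3 + 1
  ring

theorem PBad_cell_back (z : Site) : (cell z 0 0 1 + ![0, 0, -1, 0, 0, 0] : Site) = z := by
  unfold cell
  funext l
  rw [Pi.add_apply, Pi.add_apply]
  fin_cases l <;> simp

theorem PBad_ne {z : Site} {i j r i' j' r' : ℤ} (h : r ≠ r') : cell z i j r ≠ cell z i' j' r' := by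
  intro e
  have := congrFun e 2
  rw [PBad_cell2, PBad_cell2] at this
  exact h (by omega)

theorem PBad_F3 {N : ℕ} [NeZero N] {k : ℕ} {c : Fin 6 → ZMod N} {p : ℝ}
    (h0 : 0 ≤ p) (h1 : p ≤ 1)
    (hinj : Set.InjOn (fun x : Site => c + red N x) (BB (2 ^ k) 5 : Set Site)) :
    Pr p (fun A : Finset (Fin 6 → ZMod N) => F3 (loc N A (2 ^ k) 5 c)) ≤
      ((HH.toNat * (3 * 2 ^ k) ^ 5 * 3 ^ (k + 2) : ℕ) : ℝ) * p ^ 4 := by
  have h := PBad_union h0 h1 hinj (BB (2 ^ k) 5 ×ˢ
      ((range (2 ^ (k + 2)) ×ˢ range (2 ^ (k + 2))).filter (fun q => sym q.1 q.2 = .o)))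
    (fun θ : Site × (ℕ × ℕ) => {θ.1, cell (θ.1 + ![0, 0, -1, 0, 0, 0]) 0 0 2,
      cell (θ.1 + ![0, 0, -1, 0, 0, 0]) 0 0 4, trg (θ.1 + ![0, 0, -1, 0, 0, 0]) θ.2.1 θ.2.2})
    4 F3 (by
      rintro V hV ⟨z, hz5, hn, i, j, hij, ht⟩
      obtain ⟨n1, n2, n3⟩ := PBad_nuc hn
      have b1 := PBad_mem_BB.1 (hV n1)
      have b2 := PBad_mem_BB.1 (hV ht)
      have e := PBad_cell_back z
      refine ⟨(cell z 0 0 1, (i, j)), ?_, ?_, ?_⟩
      · rw [Finset.mem_product]
        refine ⟨hV n1, ?_⟩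
        rw [Finset.mem_filter, Finset.mem_product, Finset.mem_range, Finset.mem_range]
        have c0 := b1 0
        have c1 := b1 1
        have d0 := b2 0
        have d1 := b2 1
        rw [PBad_cell0, if_neg (by decide)] at c0
        rw [PBad_cell1, if_neg (by decide)] at c1
        rw [PBad_trg0, if_neg (by decide)] at d0
        rw [PBad_trg1, if_neg (by decide)] at d1
        have hp : (2:ℤ) ^ (k + 2) = 4 * 2 ^ k := by rw [pow_add]; ring
        refine ⟨⟨?_, ?_⟩, hij⟩
        · have : (i : ℤ) < 2 ^ (k + 2) := by rw [hp]; linarith [c0.1, d0.2, show (0:ℤ) < 2 ^ k by positivity]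
          exact_mod_cast this
        · have : (j : ℤ) < 2 ^ (k + 2) := by rw [hp]; linarith [c1.1, d1.2, show (0:ℤ) < 2 ^ k by positivity]
          exact_mod_cast this
      · simp only
        rw [e]
        intro x hx
        simp only [Finset.mem_insert, Finset.mem_singleton] at hx
        rcases hx with rfl | rfl | rfl | rfl
        · exact n1
        · exact n2
        · exact n3
        · exact ht
      · simp only
        rw [e]
        have t3 : ∀ r : ℤ, cell z 0 0 r ≠ trg z i j := by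
          intro r hr
          have := congrFun hr 3
          rw [PBad_cell3, PBad_trg3] at this
          omega
        rw [Finset.card_insert_of_notMem, Finset.card_insert_of_notMem,
          Finset.card_insert_of_notMem, Finset.card_singleton]
        · rw [Finset.mem_singleton]
          exact t3 4
        · simp only [Finset.mem_insert, Finset.mem_singleton, not_or]
          exact ⟨PBad_ne (by norm_num), t3 2⟩
        · simp only [Finset.mem_insert, Finset.mem_singleton, not_or]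
          exact ⟨PBad_ne (by norm_num), PBad_ne (by norm_num), t3 1⟩)
  rw [Finset.card_product, PBad_card_BB] at h
  refine h.trans ?_
  apply mul_le_mul_of_nonneg_right _ (pow_nonneg h0 4)
  exact_mod_cast Nat.mul_le_mul_left _ (sym_one_le (k + 2))

theorem PBad_F2 {N : ℕ} [NeZero N] {k : ℕ} {c : Fin 6 → ZMod N} {p : ℝ}
    (h0 : 0 ≤ p) (h1 : p ≤ 1) (hk : RD ≤ 2 ^ k)
    (hinj : Set.InjOn (fun x : Site => c + red N x) (BB (2 ^ k) 5 : Set Site)) :
    Pr p (fun A : Finset (Fin 6 → ZMod N) => F2 (loc N A (2 ^ k) 5 c)) ≤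
      ((HH.toNat * (3 * 2 ^ k) ^ 5 * ((4 * 2 ^ k) * (4 * 2 ^ k) * 
        ((PBad_cube PBad_K).card * (PBad_cube PBad_K).card)) : ℕ) : ℝ) * p ^ 5 := by
  have h := PBad_union h0 h1 hinj (BB (2 ^ k) 5 ×ˢ
      ((range (4 * 2 ^ k) ×ˢ range (4 * 2 ^ k)) ×ˢ
        (PBad_cube PBad_K ×ˢ PBad_cube PBad_K)))
    (fun θ : Site × ((ℕ × ℕ) × (Site × Site)) => {θ.1, cell (θ.1 + ![0, 0, -1, 0, 0, 0]) 0 0 2,
      cell (θ.1 + ![0, 0, -1, 0, 0, 0]) 0 0 4,
      cell (θ.1 + ![0, 0, -1, 0, 0, 0]) θ.2.1.1 θ.2.1.2 0 + θ.2.2.1,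
      cell (θ.1 + ![0, 0, -1, 0, 0, 0]) θ.2.1.1 θ.2.1.2 0 + θ.2.2.2})
    5 F2 (by
      rintro V hV ⟨z, hz5, hn, q, ⟨i, j, r, hr, rfl⟩, a, ha, b, hb, hab, hap, hbp, haq, hbq⟩
      obtain ⟨n1, n2, n3⟩ := PBad_nuc hn
      obtain ⟨p1, p2, p3⟩ := PBad_nuc_pat z
      have b1 := PBad_mem_BB.1 (hV n1)
      have b2 := PBad_mem_BB.1 (hV ha)
      have e := PBad_cell_back z
      have hr1 : 1 ≤ r ∧ r ≤ 2 ^ 18 := by
        have : ∀ y : Sym, ∀ r ∈ code y, 1 ≤ r ∧ r ≤ 2 ^ 18 := by decide
        exact this _ r hr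
      have ea : cell z i j 0 + (a - cell z i j 0) = a := by abel
      have eb : cell z i j 0 + (b - cell z i j 0) = b := by abel
      have hnear : ∀ a : Site, nearD RD a (cell z i j r) → a - cell z i j 0 ∈ PBad_cube PBad_K := by
        intro a ha
        rw [PBad_mem_cube]
        intro l
        have h := ha l
        rw [Pi.sub_apply]
        have hc : cell z i j r l = cell z i j 0 l + (if l = 2 then r else 0) := by
          fin_cases l
          · simp [PBad_cell0]
          · simp [PBad_cell1]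
          · simp [PBad_cell2]
          · simp [PBad_cell3]
          · simp [PBad_cell4]
          · simp [PBad_cell5]
        rw [hc, abs_le] at h
        rw [abs_le]
        split_ifs at h
        · exact PBad_K1 hr1 h
        · have := PBad_K1 (a := a l) (b := cell z i j 0 l) hr1
          unfold PBad_K
          constructor <;> linarith [h.1, h.2, hr1.1, hr1.2]
      refine ⟨(cell z 0 0 1, ((i, j), (a - cell z i j 0, b - cell z i j 0))), ?_, ?_, ?_⟩
      · rw [Finset.mem_product, Finset.mem_product, Finset.mem_product, Finset.mem_product,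
          Finset.mem_range, Finset.mem_range]
        refine ⟨hV n1, ⟨⟨?_, ?_⟩, hnear a haq, hnear b hbq⟩⟩
        · have c0 := b1 0
          have d0 := b2 0
          have f0 := haq 0
          rw [PBad_cell0, if_neg (by decide)] at c0
          rw [PBad_cell0] at f0
          rw [if_neg (by decide)] at d0
          rw [abs_le] at f0
          have : (i : ℤ) < 4 * 2 ^ k := by linarith [c0.1, d0.2, f0.1]
          exact_mod_cast this
        · have c0 := b1 1
          have d0 := b2 1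
          have f0 := haq 1
          rw [PBad_cell1, if_neg (by decide)] at c0
          rw [PBad_cell1] at f0
          rw [if_neg (by decide)] at d0
          rw [abs_le] at f0
          have : (j : ℤ) < 4 * 2 ^ k := by linarith [c0.1, d0.2, f0.1]
          exact_mod_cast this
      · simp only
        rw [e, ea, eb]
        intro x hx
        simp only [Finset.mem_insert, Finset.mem_singleton] at hx
        rcases hx with rfl | rfl | rfl | rfl | rfl
        · exact n1
        · exact n2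
        · exact n3
        · exact ha
        · exact hb
      · simp only
        rw [e, ea, eb]
        have ta : ∀ x ∈ pat z, x ≠ a := by
          rintro x hx rfl
          exact hap hx
        have tb : ∀ x ∈ pat z, x ≠ b := by
          rintro x hx rfl
          exact hbp hx
        rw [Finset.card_insert_of_notMem, Finset.card_insert_of_notMem,
          Finset.card_insert_of_notMem, Finset.card_insert_of_notMem, Finset.card_singleton]
        · rw [Finset.mem_singleton]
          exact hab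
        · simp only [Finset.mem_insert, Finset.mem_singleton, not_or]
          exact ⟨ta _ p3, tb _ p3⟩
        · simp only [Finset.mem_insert, Finset.mem_singleton, not_or]
          exact ⟨PBad_ne (by norm_num), ta _ p2, tb _ p2⟩
        · simp only [Finset.mem_insert, Finset.mem_singleton, not_or]
          exact ⟨PBad_ne (by norm_num), PBad_ne (by norm_num), ta _ p1, tb _ p1⟩)
  rw [Finset.card_product, PBad_card_BB, Finset.card_product, Finset.card_product,
    Finset.card_product, Finset.card_range] at h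
  exact h

/-- the nucleus -/
def PBad_nu (x : Site) : Finset Site := {x, x + ![0, 0, 1, 0, 0, 0], x + ![0, 0, 3, 0, 0, 0]}

theorem PBad_F4 {N : ℕ} [NeZero N] {k : ℕ} {c : Fin 6 → ZMod N} {p : ℝ}
    (h0 : 0 ≤ p) (h1 : p ≤ 1)
    (hinj : Set.InjOn (fun x : Site => c + red N x) (BB (2 ^ k) 5 : Set Site)) :
    Pr p (fun A : Finset (Fin 6 → ZMod N) => F4 (loc N A (2 ^ k) 5 c)) ≤
      ((HH.toNat * (3 * 2 ^ k) ^ 5 * ((3 * 2 ^ k) * (3 * 2 ^ k) * (PBad_cube RD).card) : ℕ) : ℝ)
        * p ^ 5 := by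
  have h := PBad_union h0 h1 hinj (BB (2 ^ k) 5 ×ˢ
      ((range (3 * 2 ^ k) ×ˢ range (3 * 2 ^ k)) ×ˢ PBad_cube RD))
    (fun θ : Site × ((ℕ × ℕ) × Site) => PBad_nu θ.1 ∪
      PBad_nu ![θ.2.1.1, θ.2.1.2, θ.1 2 + θ.2.2 2, θ.1 3 + θ.2.2 3, θ.1 4 + θ.2.2 4, θ.1 5])
    5 F4 (by
      rintro V hV ⟨z, z', hz5, hz5', hne, hn, hn', d2, d3, d4⟩
      obtain ⟨n1, n2, n3⟩ := PBad_nuc hn
      obtain ⟨m1, m2, m3⟩ := PBad_nuc hn'
      have b1 := PBad_mem_BB.1 (hV m1)
      have c0 := b1 0
      have c1 := b1 1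
      rw [PBad_cell0, if_neg (by decide), add_zero] at c0
      rw [PBad_cell1, if_neg (by decide), add_zero] at c1
      have hnu : ∀ z : Site, PBad_nu (cell z 0 0 1) = {cell z 0 0 1, cell z 0 0 2, cell z 0 0 4} := by
        intro z
        unfold PBad_nu
        have e1 : cell z 0 0 1 + ![0, 0, 1, 0, 0, 0] = cell z 0 0 2 := by
          unfold cell
          funext l
          rw [Pi.add_apply, Pi.add_apply, Pi.add_apply]
          fin_cases l <;> simp [add_assoc]
        have e2 : cell z 0 0 1 + ![0, 0, 3, 0, 0, 0] = cell z 0 0 4 := by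
          unfold cell
          funext l
          rw [Pi.add_apply, Pi.add_apply, Pi.add_apply]
          fin_cases l <;> simp [add_assoc]
        rw [e1, e2]
      have e5 : (![(((z' 0).toNat : ℕ) : ℤ), (((z' 1).toNat : ℕ) : ℤ), (cell z 0 0 1) 2 + (z' - z) 2,
          (cell z 0 0 1) 3 + (z' - z) 3, (cell z 0 0 1) 4 + (z' - z) 4, (cell z 0 0 1) 5] : Site)
          = cell z' 0 0 1 := by
        funext l
        fin_cases l
        · show (((z' 0).toNat : ℕ) : ℤ) = z' 0 + 0
          rw [Int.toNat_of_nonneg c0.1, add_zero]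
        · show (((z' 1).toNat : ℕ) : ℤ) = z' 1 + 0
          rw [Int.toNat_of_nonneg c1.1, add_zero]
        · show (z 2 + 1) + (z' 2 - z 2) = z' 2 + 1
          ring
        · show (z 3 + 0) + (z' 3 - z 3) = z' 3 + 0
          ring
        · show (z 4 + 0) + (z' 4 - z 4) = z' 4 + 0
          ring
        · show z 5 + 0 = z' 5 + 0
          rw [hz5, hz5']
      refine ⟨(cell z 0 0 1, (((z' 0).toNat, (z' 1).toNat), fun l => if l = 2 ∨ l = 3 ∨ l = 4 then
        (z' - z) l else 0)), ?_, ?_, ?_⟩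
      · rw [Finset.mem_product, Finset.mem_product, Finset.mem_product,
          Finset.mem_range, Finset.mem_range, PBad_mem_cube]
        refine ⟨hV n1, ⟨⟨?_, ?_⟩, ?_⟩⟩
        · have : ((z' 0).toNat : ℤ) < 3 * 2 ^ k := by
            rw [Int.toNat_of_nonneg c0.1]; exact c0.2
          exact_mod_cast this
        · have : ((z' 1).toNat : ℤ) < 3 * 2 ^ k := by
            rw [Int.toNat_of_nonneg c1.1]; exact c1.2
          exact_mod_cast this
        · intro l
          have hRD : 0 ≤ RD := PBad_RD0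
          simp only
          split_ifs with hl
          · rw [Pi.sub_apply, abs_sub_comm]
            rcases hl with rfl | rfl | rfl
            · exact d2
            · exact d3
            · exact d4
          · simpa using hRD
      · simp only [true_or, or_true, if_true]
        rw [e5, hnu, hnu]
        intro x hx
        simp only [Finset.mem_union, Finset.mem_insert, Finset.mem_singleton] at hx
        rcases hx with (rfl | rfl | rfl) | (rfl | rfl | rfl)
        · exact n1
        · exact n2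
        · exact n3
        · exact m1
        · exact m2
        · exact m3
      · simp only [true_or, or_true, if_true]
        rw [e5, hnu, hnu]
        have hc3 : ∀ z : Site, ({cell z 0 0 1, cell z 0 0 2, cell z 0 0 4} : Finset Site).card = 3 := by
          intro z
          rw [Finset.card_insert_of_notMem, Finset.card_insert_of_notMem, Finset.card_singleton]
          · rw [Finset.mem_singleton]
            exact PBad_ne (by norm_num)
          · simp only [Finset.mem_insert, Finset.mem_singleton, not_or]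
            exact ⟨PBad_ne (by norm_num), PBad_ne (by norm_num)⟩
        have hun := Finset.card_union_add_card_inter
          ({cell z 0 0 1, cell z 0 0 2, cell z 0 0 4} : Finset Site)
          ({cell z' 0 0 1, cell z' 0 0 2, cell z' 0 0 4} : Finset Site)
        rw [hc3, hc3] at hun
        have hint : (({cell z 0 0 1, cell z 0 0 2, cell z 0 0 4} : Finset Site) ∩
          ({cell z' 0 0 1, cell z' 0 0 2, cell z' 0 0 4} : Finset Site)).card ≤ 1 := by
          rw [Finset.card_le_one]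
          intro x hx y hy
          rw [Finset.mem_inter] at hx hy
          simp only [Finset.mem_insert, Finset.mem_singleton] at hx hy
          by_contra hxy
          apply hne
          have key : z 2 = z' 2 := by
            have hx1 : (x 2 = z 2 + 1 ∨ x 2 = z 2 + 2 ∨ x 2 = z 2 + 4) := by
              rcases hx.1 with rfl | rfl | rfl <;> simp [PBad_cell2]
            have hx2 : (x 2 = z' 2 + 1 ∨ x 2 = z' 2 + 2 ∨ x 2 = z' 2 + 4) := by
              rcases hx.2 with h | h | h <;> rw [h] <;> simp [PBad_cell2]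
            have hy1 : (y 2 = z 2 + 1 ∨ y 2 = z 2 + 2 ∨ y 2 = z 2 + 4) := by
              rcases hy.1 with rfl | rfl | rfl <;> simp [PBad_cell2]
            have hy2 : (y 2 = z' 2 + 1 ∨ y 2 = z' 2 + 2 ∨ y 2 = z' 2 + 4) := by
              rcases hy.2 with h | h | h <;> rw [h] <;> simp [PBad_cell2]
            have hxy2 : x 2 ≠ y 2 := by
              intro h2
              apply hxy
              rcases hx.1 with rfl | rfl | rfl <;> rcases hy.1 with rfl | rfl | rfl <;>
                simp [PBad_cell2] at h2 ⊢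
            omega
          funext l
          have hx1 : l ≠ 2 → x l = z l := by
            intro hl
            have hc : ∀ r : ℤ, cell z 0 0 r l = z l := by
              intro r
              fin_cases l
              · simp [PBad_cell0]
              · simp [PBad_cell1]
              · exact absurd rfl hl
              · simp [PBad_cell3]
              · simp [PBad_cell4]
              · simp [PBad_cell5]
            rcases hx.1 with h | h | h <;> rw [h, hc]
          have hx2 : l ≠ 2 → x l = z' l := by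
            intro hl
            have hc : ∀ r : ℤ, cell z' 0 0 r l = z' l := by
              intro r
              fin_cases l
              · simp [PBad_cell0]
              · simp [PBad_cell1]
              · exact absurd rfl hl
              · simp [PBad_cell3]
              · simp [PBad_cell4]
              · simp [PBad_cell5]
            rcases hx.2 with h | h | h <;> rw [h, hc]
          by_cases hl : l = 2
          · rw [hl]; exact key
          · rw [← hx1 hl, hx2 hl]
        omega)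
  rw [Finset.card_product, PBad_card_BB, Finset.card_product, Finset.card_product,
    Finset.card_range] at h
  exact h

theorem prob_bad : ∃ C0 : ℝ, 0 < C0 ∧ ∀ (N : ℕ) [NeZero N] (k : ℕ) (p : ℝ) (i : Fin 6)
    (c : Fin 6 → ZMod N), 0 ≤ p → p ≤ 1 → C0 * 2 ^ k ≤ N → C0 ≤ 2 ^ k →
    Pr p (fun A : Finset (Fin 6 → ZMod N) => Bad i (loc N A (2 ^ k) i c)) ≤
      C0 * (96 ^ k * p ^ 4 + 128 ^ k * p ^ 5) := by
  obtain ⟨H, hH⟩ : ∃ H : ℝ, H = (HH.toNat : ℝ) := ⟨_, rfl⟩
  obtain ⟨K1, hK1⟩ : ∃ K : ℝ, K = ((PBad_cube RD).powerset.card : ℝ) := ⟨_, rfl⟩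
  obtain ⟨K2, hK2⟩ : ∃ K : ℝ, K = ((PBad_cube PBad_K).card : ℝ) := ⟨_, rfl⟩
  obtain ⟨K3, hK3⟩ : ∃ K : ℝ, K = ((PBad_cube RD).card : ℝ) := ⟨_, rfl⟩
  obtain ⟨R, hR⟩ : ∃ R : ℝ, R = (RD : ℝ) := ⟨_, rfl⟩
  have hH0 : 0 ≤ H := by rw [hH]; positivity
  have hK10 : 0 ≤ K1 := by rw [hK1]; positivity
  have hK20 : 0 ≤ K2 := by rw [hK2]; positivity
  have hK30 : 0 ≤ K3 := by rw [hK3]; positivity
  have hR0 : 0 ≤ R := by rw [hR]; exact_mod_cast PBad_RD0
  refine ⟨243 * H * K1 + 243 * H * 9 + 243 * H * 16 * (K2 * K2) + 243 * H * 9 * K3 + 3 + H + R,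
    by positivity, ?_⟩
  intro N _ k p i c h0 h1 hN hk
  have h2k : (1:ℝ) ≤ 2 ^ k := one_le_pow₀ (by norm_num)
  have hC : 0 ≤ 243 * H * K1 + 243 * H * 9 + 243 * H * 16 * (K2 * K2) + 243 * H * 9 * K3 := by
    positivity
  have a1 : 3 * (2:ℤ) ^ k ≤ N := by
    have : (3:ℝ) * 2 ^ k ≤ N := by
      refine le_trans ?_ hN
      apply mul_le_mul_of_nonneg_right _ (by positivity)
      linarith
    exact_mod_cast this
  have a2 : HH ≤ N := by
    have e : (HH.toNat : ℤ) = HH := Int.toNat_of_nonneg PBad_HH0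
    have : (HH.toNat : ℝ) ≤ N := by
      rw [← hH]
      refine le_trans ?_ hN
      nlinarith
    rw [← e]
    exact_mod_cast this
  have a3 : RD ≤ 2 ^ k := by
    have : (RD : ℝ) ≤ 2 ^ k := by
      rw [← hR]
      linarith
    exact_mod_cast this
  have hinj : ∀ i, Set.InjOn (fun x : Site => c + red N x) (BB (2 ^ k) i : Set Site) :=
    fun i => PBad_inj c a1 a2
  have f1 := PBad_F1 h0 h1 (hinj i)
  have f2 := PBad_F2 h0 h1 a3 (hinj 5)
  have f3 := PBad_F3 h0 h1 (hinj 5)
  have f4 := PBad_F4 h0 h1 (hinj 5)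
  have hle : Pr p (fun A : Finset (Fin 6 → ZMod N) => Bad i (loc N A (2 ^ k) i c)) ≤
      Pr p (fun A : Finset (Fin 6 → ZMod N) => F1 (loc N A (2 ^ k) i c)) +
      (Pr p (fun A : Finset (Fin 6 → ZMod N) => F2 (loc N A (2 ^ k) 5 c)) +
      (Pr p (fun A : Finset (Fin 6 → ZMod N) => F3 (loc N A (2 ^ k) 5 c)) +
      Pr p (fun A : Finset (Fin 6 → ZMod N) => F4 (loc N A (2 ^ k) 5 c)))) := by
    have g1 : Pr p (fun A : Finset (Fin 6 → ZMod N) => Bad i (loc N A (2 ^ k) i c)) ≤
        Pr p (fun A : Finset (Fin 6 → ZMod N) => F1 (loc N A (2 ^ k) i c) ∨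
          (F2 (loc N A (2 ^ k) 5 c) ∨ (F3 (loc N A (2 ^ k) 5 c) ∨ F4 (loc N A (2 ^ k) 5 c)))) := by
      apply Pr_mono h0 h1
      intro A hA
      rcases hA with h | ⟨rfl, h⟩
      · exact Or.inl h
      · exact Or.inr h
    refine g1.trans ((Pr_or_le h0 h1 _ _).trans ?_)
    refine add_le_add le_rfl ((Pr_or_le h0 h1 _ _).trans ?_)
    exact add_le_add le_rfl (Pr_or_le h0 h1 _ _)
  push_cast at f1 f2 f3 f4
  rw [← hH, ← hK1] at f1
  rw [← hH, ← hK2] at f2
  rw [← hH] at f3
  rw [← hH, ← hK3] at f4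
  have p4 : 0 ≤ p ^ 4 := pow_nonneg h0 4
  have p5 : 0 ≤ p ^ 5 := pow_nonneg h0 5
  have e32 : ((2:ℝ) ^ k) ^ 5 = 32 ^ k := by rw [← pow_mul, mul_comm, pow_mul]; norm_num
  have e128 : ((2:ℝ) ^ k) ^ 5 * (2 ^ k * 2 ^ k) = 128 ^ k := by
    rw [e32, ← mul_pow, ← mul_pow]; norm_num
  have e96 : (32:ℝ) ^ k * 3 ^ k = 96 ^ k := by rw [← mul_pow]; norm_num
  have l32 : (32:ℝ) ^ k ≤ 96 ^ k := pow_le_pow_left₀ (by norm_num) (by norm_num) k
  have t1 : H * (3 * 2 ^ k) ^ 5 * K1 * p ^ 4 ≤ 243 * H * K1 * (96 ^ k * p ^ 4) := by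
    have : H * (3 * 2 ^ k) ^ 5 * K1 * p ^ 4 = 243 * H * K1 * (32 ^ k * p ^ 4) := by
      rw [← e32]; ring
    rw [this]
    apply mul_le_mul_of_nonneg_left _ (by positivity)
    exact mul_le_mul_of_nonneg_right l32 p4
  have t3 : H * (3 * 2 ^ k) ^ 5 * 3 ^ (k + 2) * p ^ 4 = 243 * H * 9 * (96 ^ k * p ^ 4) := by
    rw [← e96, ← e32]; ring
  have t2 : H * (3 * 2 ^ k) ^ 5 * (4 * 2 ^ k * (4 * 2 ^ k) * (K2 * K2)) * p ^ 5
      = 243 * H * 16 * (K2 * K2) * (128 ^ k * p ^ 5) := by
    rw [← e128]; ring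
  have t4 : H * (3 * 2 ^ k) ^ 5 * (3 * 2 ^ k * (3 * 2 ^ k) * K3) * p ^ 5
      = 243 * H * 9 * K3 * (128 ^ k * p ^ 5) := by
    rw [← e128]; ring
  rw [t2] at f2
  rw [t3] at f3
  rw [t4] at f4
  have X : 0 ≤ 96 ^ k * p ^ 4 := by positivity
  have Y : 0 ≤ 128 ^ k * p ^ 5 := by positivity
  have f1' := f1.trans t1
  refine hle.trans ((add_le_add f1' (add_le_add f2 (add_le_add f3 f4))).trans ?_)
  have q1 : 0 ≤ 243 * H * K1 * (128 ^ k * p ^ 5) := by positivity
  have q2 : 0 ≤ 243 * H * 9 * (128 ^ k * p ^ 5) := by positivity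
  have q3 : 0 ≤ 243 * H * 16 * (K2 * K2) * (96 ^ k * p ^ 4) := by positivity
  have q4 : 0 ≤ 243 * H * 9 * K3 * (96 ^ k * p ^ 4) := by positivity
  have q5 : 0 ≤ (3 + H + R) * (96 ^ k * p ^ 4) := by positivity
  have q6 : 0 ≤ (3 + H + R) * (128 ^ k * p ^ 5) := by positivity
  linarith

end Pool.Agent.R952.BP
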